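import Pool.Agent.Y115.Main
import Pool.Agent.Y142.Core

/-!
# The character of a stable subspace of a pure polarized representation
-/

set_option autoImplicit false

namespace Pool.Agent.H50.FT

open NumberField Polynomial Module Pool.Agent.W569.FM Pool.Agent.Y115.CQ Pool.Agent.Y115.Chi
  Pool.Agent.Y115.M

variable {ℓ : ℕ} [hℓ : Fact ℓ.Prime]

/-- a character of the absolute Galois group of `ℚ` with algebraic values of absolute value one at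
Frobenius elements is of finite order -/
theorem finite_order (ψ : GF ℚ →* ℚ_[ℓ]ˣ) (hψ : Continuous ψ) (j : ℚ_[ℓ] →+* ℂ) (p : Fin 3 → ℕ)
    (hp : ∀ i, (p i).Prime) (hinj : Function.Injective p) (hne : ∀ i, p i ≠ ℓ)
    (P : Fin 3 → Ideal (OO ℚ)) (hP : ∀ i, (P i).IsPrime) (hPl : ∀ i, (p i : OO ℚ) ∈ P i)
    (σ : Fin 3 → GF ℚ) (hσ : ∀ i, FrobAt (p i) (P i) (σ i))
    (halg : ∀ i, IsAlgebraic ℚ (ψ (σ i) : ℚ_[ℓ])) (hnorm : ‖j (ψ (σ 0) : ℚ_[ℓ])‖ = 1) :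
    ∃ N : ℕ, 0 < N ∧ ∀ g, ψ g ^ N = 1 := by
  obtain ⟨N, a, hN, h⟩ := char_main (E := ℚ_[ℓ]) ψ hψ p hp hinj hne P hP hPl σ hσ halg
  refine ⟨N, hN, fun g => ?_⟩
  have ha : a = 0 := by
    have h1 := congrArg (fun u : ℚ_[ℓ]ˣ => ‖j (u : ℚ_[ℓ])‖) (h (σ 0))
    simp only [Units.val_pow_eq_pow_val, Units.val_zpow_eq_zpow_val] at h1
    rw [map_pow, norm_pow, hnorm, one_pow, map_zpow₀, norm_zpow] at h1
    have hℓP : (ℓ : OO ℚ) ∉ P 0 := Pool.Agent.Y115.T.not_mem_of_ne (hp 0) (hne 0) (hP 0).ne_top (hPl 0)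
    have h2 : (chiE ℓ ℚ_[ℓ] (σ 0) : ℚ_[ℓ]) = (p 0 : ℚ_[ℓ]) := by
      rw [coe_chiE, chi_frob (hP 0) hℓP (hσ 0)]
      simp
    rw [h2, map_natCast, Complex.norm_natCast] at h1
    have h3 : (1 : ℝ) < (p 0 : ℝ) := by exact_mod_cast (hp 0).one_lt
    have h4 : (p 0 : ℝ) ^ a = (p 0 : ℝ) ^ (0 : ℤ) := by rw [zpow_zero, ← h1]
    exact zpow_right_injective₀ (by linarith) h3.ne' h4
  rw [h g, ha, zpow_zero]

section pure

variable {V : Type} [AddCommGroup V] [Module ℚ_[ℓ] V] [FiniteDimensional ℚ_[ℓ] V]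

theorem det_restrict_pure (j : ℚ_[ℓ] →+* ℂ) (T : End ℚ_[ℓ] V) (P : ℚ[X])
    (hT : T.charpoly = P.map (algebraMap ℚ ℚ_[ℓ])) {r : ℝ} (hP : ∀ a ∈ P.aroots ℂ, ‖a‖ ^ 2 = r)
    (W : Submodule ℚ_[ℓ] V) (hW : W ≤ W.comap T) :
    IsAlgebraic ℚ (LinearMap.det (T.restrict hW)) ∧
      ‖j (LinearMap.det (T.restrict hW))‖ ^ 2 = r ^ finrank ℚ_[ℓ] W := by
  set C := (T.restrict hW).charpoly with hC
  have hCm : C.Monic := LinearMap.charpoly_monic _
  have hdeg : C.natDegree = finrank ℚ_[ℓ] W := LinearMap.charpoly_natDegree _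
  have hjP : T.charpoly.map j = P.map (algebraMap ℚ ℂ) := by
    rw [hT, Polynomial.map_map]
    congr 1
    exact Subsingleton.elim _ _
  have hle : (C.map j).roots ≤ P.aroots ℂ := by
    rw [aroots_def, ← hjP]
    apply Polynomial.roots.le_of_dvd ((LinearMap.charpoly_monic T).map j).ne_zero
    exact Polynomial.map_dvd j (Dvd.intro _ (Pool.Agent.Y142.charpoly_eq_mul hW).symm)
  have hsplit : (C.map j).Splits := IsAlgClosed.splits _
  have hdet : j (LinearMap.det (T.restrict hW)) = (C.map j).roots.prod := by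
    rw [LinearMap.det_eq_sign_charpoly_coeff, ← hC, map_mul, map_pow, map_neg, map_one, ← coeff_map,
      hsplit.coeff_zero_eq_prod_roots_of_monic (hCm.map j), Polynomial.natDegree_map, hdeg,
      ← mul_assoc, ← pow_add, ← two_mul, pow_mul, neg_one_sq, one_pow, one_mul]
  have hcard : Multiset.card (C.map j).roots = finrank ℚ_[ℓ] W := by
    rw [← hsplit.natDegree_eq_card_roots, Polynomial.natDegree_map, hdeg]
  constructor
  · refine (isAlgebraic_algHom_iff (RingHom.toRatAlgHom j) j.injective).1 ?_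
    change IsAlgebraic ℚ (j (LinearMap.det (T.restrict hW)))
    rw [hdet]
    refine isAlgebraic_multiset_prod fun a ha => ?_
    have h1 := Multiset.mem_of_le hle ha
    rw [mem_aroots'] at h1
    refine ⟨P, fun h0 => h1.1 (by rw [h0, Polynomial.map_zero]), h1.2⟩
  · rw [hdet, norm_multiset_prod _ r fun a ha => hP a (Multiset.mem_of_le hle ha), hcard]

omit [FiniteDimensional ℚ_[ℓ] V] in
theorem det_restrict_top (T : End ℚ_[ℓ] V) (h : ∀ x ∈ (⊤ : Submodule ℚ_[ℓ] V), T x ∈ (⊤ : Submodule ℚ_[ℓ] V)) :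
    LinearMap.det (T.restrict h) = LinearMap.det T := by
  rw [← LinearMap.det_conj (T.restrict h) (Submodule.topEquiv : (⊤ : Submodule ℚ_[ℓ] V) ≃ₗ[ℚ_[ℓ]] V)]
  congr 1

theorem det_sq_of_similitude {B : LinearMap.BilinForm ℚ_[ℓ] V} (hB : B.Nondegenerate)
    {T : End ℚ_[ℓ] V} {c : ℚ_[ℓ]} (h : ∀ x y, B (T x) (T y) = c * B x y) :
    LinearMap.det T ^ 2 = c ^ finrank ℚ_[ℓ] V := by
  classical
  let b := finBasis ℚ_[ℓ] V
  have h1 : B.comp T T = c • B := by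
    refine LinearMap.ext fun x => LinearMap.ext fun y => ?_
    exact h x y
  have h2 := congrArg (LinearMap.BilinForm.toMatrix b) h1
  rw [LinearMap.BilinForm.toMatrix_comp b b, map_smul] at h2
  have h3 := congrArg Matrix.det h2
  rw [Matrix.det_mul, Matrix.det_mul, Matrix.det_transpose, Matrix.det_smul, LinearMap.det_toMatrix,
    Fintype.card_fin] at h3
  have h4 : (LinearMap.BilinForm.toMatrix b B).det ≠ 0 :=
    (LinearMap.BilinForm.nondegenerate_iff_det_ne_zero b).1 hB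
  apply mul_right_cancel₀ h4
  rw [← h3]
  ring

end pure

theorem cont_units {G : Type} [Group G] [TopologicalSpace G] [IsTopologicalGroup G]
    (f : G →* ℚ_[ℓ]ˣ) (h : Continuous fun g => (f g : ℚ_[ℓ])) : Continuous f := by
  rw [Units.continuous_iff]
  refine ⟨h, ?_⟩
  have h1 : (fun g => (((f g)⁻¹ : ℚ_[ℓ]ˣ) : ℚ_[ℓ])) = fun g => ((f g⁻¹ : ℚ_[ℓ]ˣ) : ℚ_[ℓ]) := by
    funext g
    rw [map_inv]
  rw [h1]
  exact h.comp continuous_inv

section psi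

variable {V : Type} [AddCommGroup V] [Module ℚ_[ℓ] V] [FiniteDimensional ℚ_[ℓ] V] {Γ : Type}
  [Group Γ] [TopologicalSpace Γ] [IsTopologicalGroup Γ]

/-- the character `det(W) ^ 2 * μ ^ (- dim W)` -/
theorem exists_psi (R : Representation ℚ_[ℓ] Γ V)
    (hc : ∀ (φ : Dual ℚ_[ℓ] V) (x : V), Continuous fun g => φ (R g x))
    {B : LinearMap.BilinForm ℚ_[ℓ] V} (hB : B.Nondegenerate)
    (hsim : ∀ γ, ∃ c, ∀ x y, B (R γ x) (R γ y) = c * B x y) (W : Submodule ℚ_[ℓ] V)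
    (hW : ∀ g, W ≤ W.comap (R g)) (hW0 : W ≠ ⊥) :
    ∃ (μ : Γ → ℚ_[ℓ]) (ψ : Γ →* ℚ_[ℓ]ˣ), Continuous ψ ∧
      (∀ γ x y, B (R γ x) (R γ y) = μ γ * B x y) ∧ (∀ γ, μ γ ≠ 0) ∧
      (∀ γ, (ψ γ : ℚ_[ℓ]) * μ γ ^ finrank ℚ_[ℓ] W = LinearMap.det ((R γ).restrict (hW γ)) ^ 2) ∧
      ∀ (j : ℚ_[ℓ] →+* ℂ) (γ : Γ) (P : ℚ[X]) (r : ℝ), 0 < r →
        (R γ).charpoly = P.map (algebraMap ℚ ℚ_[ℓ]) → (∀ a ∈ P.aroots ℂ, ‖a‖ ^ 2 = r) →
        IsAlgebraic ℚ (ψ γ : ℚ_[ℓ]) ∧ ‖j (ψ γ : ℚ_[ℓ])‖ = 1 := by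
  obtain ⟨x₀, hx₀W, hx₀⟩ := W.ne_bot_iff.1 hW0
  obtain ⟨y₀, hxy⟩ : ∃ y, B x₀ y ≠ 0 := by
    by_contra hcon
    push Not at hcon
    exact hx₀ (hB.1 x₀ hcon)
  choose χ hχ using hsim
  let χ' : Γ →* ℚ_[ℓ] :=
    { toFun := χ
      map_one' := by
        have h1 := hχ 1 x₀ y₀
        rw [map_one, Module.End.one_apply, Module.End.one_apply] at h1
        exact mul_right_cancel₀ hxy (by rw [← h1, one_mul])
      map_mul' := by
        intro g h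
        have h1 := hχ (g * h) x₀ y₀
        rw [map_mul, Module.End.mul_apply, Module.End.mul_apply, hχ, hχ, ← mul_assoc] at h1
        exact (mul_right_cancel₀ hxy h1).symm }
  have hχ0 : ∀ γ, χ γ ≠ 0 := fun γ => (χ'.toHomUnits γ).ne_zero
  have hχc : Continuous fun g => (χ'.toHomUnits g : ℚ_[ℓ]) := by
    have h1 : (fun g => (χ'.toHomUnits g : ℚ_[ℓ])) = fun g => B (R g x₀) (R g y₀) * (B x₀ y₀)⁻¹ := by
      funext g
      rw [hχ, mul_assoc, mul_inv_cancel₀ hxy, mul_one]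
      rfl
    rw [h1]
    exact (Pool.Agent.Y142.continuous_bilin R B hc x₀ y₀).mul continuous_const
  have hδc := Pool.Agent.Y142.continuous_detRep R W hW hc
  set δ : Γ →* ℚ_[ℓ]ˣ := Pool.Agent.Y142.detRep R W hW with hδ
  set e := finrank ℚ_[ℓ] W with he
  let ψ : Γ →* ℚ_[ℓ]ˣ := δ ^ 2 * (χ'.toHomUnits ^ e)⁻¹
  have hψ : ∀ γ, (ψ γ : ℚ_[ℓ]) * χ γ ^ e = LinearMap.det ((R γ).restrict (hW γ)) ^ 2 := by
    intro γ
    have h1 : ψ γ * (χ'.toHomUnits γ) ^ e = δ γ ^ 2 := by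
      change δ γ ^ 2 * ((χ'.toHomUnits γ) ^ e)⁻¹ * (χ'.toHomUnits γ) ^ e = δ γ ^ 2
      rw [inv_mul_cancel_right]
    have h2 := congrArg Units.val h1
    rw [Units.val_mul, Units.val_pow_eq_pow_val, Units.val_pow_eq_pow_val] at h2
    exact h2
  refine ⟨χ, ψ, ?_, hχ, hχ0, hψ, ?_⟩
  · have h1 := cont_units δ hδc
    have h2 := cont_units χ'.toHomUnits hχc
    exact (h1.pow 2).mul (h2.pow e).inv
  · intro j γ P r hr hP hroots
    obtain ⟨a1, a2⟩ := det_restrict_pure j (R γ) P hP hroots W (hW γ)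
    obtain ⟨b1, b2⟩ : IsAlgebraic ℚ (LinearMap.det (R γ)) ∧
        ‖j (LinearMap.det (R γ))‖ ^ 2 = r ^ finrank ℚ_[ℓ] V := by
      have h1 := det_restrict_pure j (R γ) P hP hroots ⊤ (fun _ _ => trivial)
      have h2 := det_restrict_top (R γ) (fun _ _ => trivial)
      rw [finrank_top] at h1
      exact ⟨h2 ▸ h1.1, h2 ▸ h1.2⟩
    have h1 := det_sq_of_similitude hB (hχ γ)
    have hn : 0 < finrank ℚ_[ℓ] V := by
      rw [Module.finrank_pos_iff_exists_ne_zero]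
      exact ⟨x₀, hx₀⟩
    have h2 : ‖j (χ γ)‖ = r := by
      have h3 : ‖j (χ γ)‖ ^ finrank ℚ_[ℓ] V = r ^ finrank ℚ_[ℓ] V := by
        rw [← norm_pow, ← map_pow, ← h1, map_pow, norm_pow, b2]
      exact (pow_left_inj₀ (norm_nonneg _) hr.le hn.ne').1 h3
    have h3 : IsAlgebraic ℚ (χ γ) := by
      have h4 : IsAlgebraic ℚ (χ γ ^ finrank ℚ_[ℓ] V) := by
        rw [← h1]
        exact b1.pow 2
      exact IsAlgebraic.of_pow hn h4
    have h5 : (ψ γ : ℚ_[ℓ]) = LinearMap.det ((R γ).restrict (hW γ)) ^ 2 * (χ γ ^ e)⁻¹ := by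
      rw [← hψ, mul_assoc, mul_inv_cancel₀ (pow_ne_zero _ (hχ0 γ)), mul_one]
    constructor
    · rw [h5]
      exact (a1.pow 2).mul (h3.pow e).inv
    · rw [h5, map_mul, norm_mul, map_pow, norm_pow, a2, map_inv₀, norm_inv, map_pow, norm_pow, h2]
      exact mul_inv_cancel₀ (pow_ne_zero _ hr.ne')

end psi

end Pool.Agent.H50.FT
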