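import Pool.Agent.H50.FT.Tens

/-!
# The tensor attached to a subspace of a polarized representation
-/

set_option autoImplicit false

namespace Pool.Agent.H50.FT

open Module Pool.Agent.Y114.RM

variable {k : Type} [Field k] {V : Type} [AddCommGroup V] [Module k V] {e : ℕ}

/-- `(x, f) ↦ (f (w b))` -/
noncomputable def evA (w : Fin e → V) : (V × Dual k V) →ₗ[k] (Fin e → k) :=
  LinearMap.pi fun b => Dual.eval k V (w b) ∘ₗ LinearMap.snd k V (Dual k V)

theorem evA_apply (w : Fin e → V) (p : V × Dual k V) (b : Fin e) : evA w p b = p.2 (w b) := rfl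

/-- `(x, f) ↦ (B x (w b))` -/
noncomputable def evB (B : LinearMap.BilinForm k V) (w : Fin e → V) :
    (V × Dual k V) →ₗ[k] (Fin e → k) :=
  LinearMap.pi fun b => B.flip (w b) ∘ₗ LinearMap.fst k V (Dual k V)

theorem evB_apply (B : LinearMap.BilinForm k V) (w : Fin e → V) (p : V × Dual k V) (b : Fin e) :
    evB B w p b = B p.1 (w b) := rfl

/-- the tensor attached to the vectors `w b` -/
noncomputable def TW (B : LinearMap.BilinForm k V) (w : Fin e → V) : Tensor k V (e + e) :=
  prodT (detT (evA w)) (detT (evB B w))

theorem det_updateRow_one (b : Fin e) (r : Fin e → k) :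
    Matrix.det ((1 : Matrix (Fin e) (Fin e) k).updateRow b r) = r b := by
  rw [← Matrix.det_transpose, ← Matrix.updateCol_transpose, Matrix.transpose_one,
    ← Matrix.cramer_apply, Matrix.cramer_one]
  rfl

/-- if `Y` kills the tensor of the vectors `w b`, it preserves the span of these vectors -/
theorem mem_span_of_kills {B : LinearMap.BilinForm k V} {w : Fin e → V} (f : Fin e → Dual k V)
    (hf : ∀ a b, f a (w b) = (1 : Matrix (Fin e) (Fin e) k) a b) (x : Fin e → V)
    (hx : ∀ a b, B (x a) (w b) = (1 : Matrix (Fin e) (Fin e) k) a b) {Y : End k V}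
    (h : KillsTensor Y (TW B w)) (b₀ : Fin e) : Y (w b₀) ∈ Submodule.span k (Set.range w) := by
  by_contra hcon
  obtain ⟨g, hg, hgw⟩ := Submodule.exists_le_ker_of_notMem hcon
  have hgw' : ∀ b, g (w b) = 0 := fun b => hgw (Submodule.subset_span ⟨b, rfl⟩)
  apply hg
  let f' : Fin e → Dual k V := Function.update f b₀ g
  let v : Fin (e + e) → V × Dual k V := Fin.append (fun a => (0, f' a)) fun a => (x a, 0)
  have h1 := h v
  change der Y (TW B w) v = 0 at h1
  unfold TW at h1
  rw [der_prodT] at h1
  have hv1 : (fun i => v (Fin.castAdd e i)) = fun a => ((0 : V), f' a) := by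
    funext i
    exact Fin.append_left _ _ i
  have hv2 : (fun i => v (Fin.natAdd e i)) = fun a => (x a, (0 : Dual k V)) := by
    funext i
    exact Fin.append_right _ _ i
  rw [hv1, hv2] at h1
  have h2 : detT (evB B w) (fun a => (x a, (0 : Dual k V))) = 1 := by
    rw [detT_apply]
    have h3 : Matrix.of (fun i => evB B w (x i, (0 : Dual k V))) =
        (1 : Matrix (Fin e) (Fin e) k) := by
      ext a b
      exact hx a b
    rw [h3, Matrix.det_one]
  have hrow : ∀ p : V × Dual k V, p.2 = g → ∀ b, evA w p b = 0 := by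
    rintro ⟨p1, p2⟩ hp b
    rw [evA_apply]
    change p2 (w b) = 0
    change p2 = g at hp
    rw [hp, hgw']
  have h3 : detT (evA w) (fun a => ((0 : V), f' a)) = 0 := by
    rw [detT_apply]
    refine Matrix.det_eq_zero_of_row_eq_zero b₀ fun b => ?_
    exact hrow _ (Function.update_self _ _ _) b
  rw [h2, h3, zero_mul, add_zero, mul_one] at h1
  unfold der at h1
  rw [Finset.sum_eq_single b₀] at h1
  · rw [detT_apply] at h1
    have h4 : Matrix.of (fun i => evA w (Function.update (fun a => ((0 : V), f' a)) b₀
        (lie Y ((0 : V), f' b₀)) i)) =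
        (1 : Matrix (Fin e) (Fin e) k).updateRow b₀ (fun b => -(g (Y (w b)))) := by
      ext a b
      by_cases hab : a = b₀
      · subst hab
        rw [Matrix.updateRow_self, Matrix.of_apply, Function.update_self, evA_apply]
        change (-(f' a ∘ₗ Y)) (w b) = _
        rw [LinearMap.neg_apply, LinearMap.comp_apply]
        change -(Function.update f a g a) (Y (w b)) = _
        rw [Function.update_self]
      · rw [Matrix.updateRow_ne hab, Matrix.of_apply, Function.update_of_ne hab, evA_apply]
        change (Function.update f b₀ g a) (w b) = _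
        rw [Function.update_of_ne hab, hf]
    rw [h4, det_updateRow_one, neg_eq_zero] at h1
    exact h1
  · intro l _ hl
    rw [detT_apply]
    refine Matrix.det_eq_zero_of_row_eq_zero b₀ fun b => ?_
    rw [Matrix.of_apply, Function.update_of_ne (Ne.symm hl)]
    exact hrow _ (Function.update_self _ _ _) b
  · intro h5
    exact absurd (Finset.mem_univ _) h5

/-- the action of a similitude on the tensor of a stable subspace -/
theorem TW_grp {B : LinearMap.BilinForm k V} {w : Fin e → V} {g g' : End k V} {μ : k}
    (hB : ∀ x y, B (g x) y = μ * B x (g' y)) {M : Matrix (Fin e) (Fin e) k}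
    (hM : ∀ b, g' (w b) = ∑ c, M c b • w c) (v : Fin (e + e) → V × Dual k V) :
    TW B w (fun l => grp g g' (v l)) = μ ^ e * M.det ^ 2 * TW B w v := by
  unfold TW
  rw [prodT_apply, prodT_apply, detT_apply, detT_apply, detT_apply, detT_apply]
  have h1 : Matrix.of (fun i => evA w (grp g g' (v (Fin.castAdd e i)))) =
      Matrix.of (fun i => evA w (v (Fin.castAdd e i))) * M := by
    ext a b
    rw [Matrix.mul_apply, Matrix.of_apply, evA_apply]
    change (v (Fin.castAdd e a)).2 (g' (w b)) = _
    rw [hM, map_sum]
    refine Finset.sum_congr rfl fun c _ => ?_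
    rw [map_smul, smul_eq_mul, Matrix.of_apply, evA_apply, mul_comm]
  have h2 : Matrix.of (fun i => evB B w (grp g g' (v (Fin.natAdd e i)))) =
      μ • (Matrix.of (fun i => evB B w (v (Fin.natAdd e i))) * M) := by
    ext a b
    rw [Matrix.smul_apply, Matrix.mul_apply, Matrix.of_apply, evB_apply]
    change B (g (v (Fin.natAdd e a)).1) (w b) = _
    rw [hB, hM, map_sum, smul_eq_mul]
    congr 1
    refine Finset.sum_congr rfl fun c _ => ?_
    rw [map_smul, smul_eq_mul, Matrix.of_apply, evB_apply, mul_comm]
  rw [h1, h2, Matrix.det_mul, Matrix.det_smul, Matrix.det_mul, Fintype.card_fin]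
  ring

end Pool.Agent.H50.FT
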