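import Pool.Agent.H50.FT.TanV
import Pool.Agent.H50.FT.Wten

/-!
# Determinants near the identity
-/

set_option autoImplicit false

namespace Pool.Agent.H50.FT

open Module Topology Filter Pool.Agent.Y708.ZO Pool.Agent.Y142.ZO Pool.Agent.Y497.ZO

section det

variable {ℓ : ℕ} [hℓ : Fact ℓ.Prime]

/-- the derivative of the determinant at the identity is the trace -/
theorem det_dq {m : ℕ} {g : ℕ → Matrix (Fin m) (Fin m) ℚ_[ℓ]} {A : Matrix (Fin m) (Fin m) ℚ_[ℓ]}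
    (h : Tendsto (fun n : ℕ => ((ℓ : ℚ_[ℓ]) ^ n)⁻¹ • (g n - 1)) atTop (𝓝 A)) :
    Tendsto (fun n : ℕ => ((ℓ : ℚ_[ℓ]) ^ n)⁻¹ • ((g n).det - 1)) atTop (𝓝 A.trace) := by
  have hl : ∀ n : ℕ, (ℓ : ℚ_[ℓ]) ^ n ≠ 0 := fun n => pow_ne_zero _ ell_ne
  let f : ContinuousMultilinearMap ℚ_[ℓ] (fun _ : Fin m => Fin m → ℚ_[ℓ]) ℚ_[ℓ] :=
    ⟨(Matrix.detRowAlternating (R := ℚ_[ℓ]) (n := Fin m)).toMultilinearMap,
      continuous_multilinear _⟩
  have hf : ∀ y : Fin m → Fin m → ℚ_[ℓ], f y = Matrix.det (Matrix.of y) := fun y => rfl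
  let x : Fin m → Fin m → ℚ_[ℓ] := (1 : Matrix (Fin m) (Fin m) ℚ_[ℓ])
  let d : ℕ → Fin m → Fin m → ℚ_[ℓ] := fun n => (g n - 1 : Matrix (Fin m) (Fin m) ℚ_[ℓ])
  let A' : Fin m → Fin m → ℚ_[ℓ] := A
  have hcd : Tendsto (fun n => ((ℓ : ℚ_[ℓ]) ^ n)⁻¹ • d n) atTop (𝓝 A') := h
  have hd : Tendsto d atTop (𝓝 0) := by
    have h1 := (pow_tendsto (ℓ := ℓ)).smul hcd
    rw [zero_smul] at h1
    refine h1.congr fun n => ?_
    rw [smul_smul, mul_inv_cancel₀ (hl n), one_smul]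
  have hder := f.hasFDerivAt x
  rw [← hasFDerivWithinAt_univ] at hder
  have hlim := hder.lim hd (Eventually.of_forall fun _ => Set.mem_univ _) hcd
  rw [ContinuousMultilinearMap.linearDeriv_apply] at hlim
  have h1 : ∑ i, f (Function.update x i (A' i)) = A.trace := by
    unfold Matrix.trace
    refine Finset.sum_congr rfl fun i _ => ?_
    rw [hf]
    exact det_updateRow_one i (A' i)
  rw [h1] at hlim
  refine hlim.congr fun n => ?_
  have h2 : f (x + d n) = (g n).det := by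
    rw [hf]
    congr 1
    change (1 : Matrix (Fin m) (Fin m) ℚ_[ℓ]) + (g n - 1) = g n
    rw [add_sub_cancel]
  have h3 : f x = 1 := by
    rw [hf]
    exact Matrix.det_one
  rw [h2, h3]

end det

section main

attribute [local instance] Matrix.normedAddCommGroup Matrix.normedSpace

variable {ℓ : ℕ} [hℓ : Fact ℓ.Prime] {N : ℕ}

/-- if the traces of the tangent vectors on a block vanish, the determinant of the block is `1` on an
open subgroup -/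
theorem det_open {G : Type} [Group G] [TopologicalSpace G] [IsTopologicalGroup G]
    (ρ : G →* Mt ℓ N) (hρ : Continuous ρ) {m : ℕ} (τ : G →* Matrix (Fin m) (Fin m) ℚ_[ℓ])
    (hτ : Continuous τ) (Λ : Mt ℓ N →ₗ[ℚ_[ℓ]] Matrix (Fin m) (Fin m) ℚ_[ℓ])
    (hΛc : Continuous Λ)
    (hΛ : ∀ g, Λ (ρ g) = τ g) (h : ∀ X, IsTangent ℓ ρ X → (Λ X).trace = 0) :
    ∃ U : Subgroup G, IsOpen (U : Set G) ∧ ∀ σ ∈ U, (τ σ).det = 1 := by
  have : IsUltrametricDist (Mt ℓ 1) :=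
    inferInstanceAs (IsUltrametricDist (Fin 1 → Fin 1 → ℚ_[ℓ]))
  let δ : G →* Mt ℓ 1 :=
    { toFun := fun g => Matrix.diagonal fun _ => (τ g).det
      map_one' := by rw [map_one, Matrix.det_one, Matrix.diagonal_one]
      map_mul' := fun a b => by rw [map_mul, Matrix.det_mul, Matrix.diagonal_mul_diagonal] }
  have hδ : ∀ g, δ g = Matrix.diagonal fun _ => (τ g).det := fun g => rfl
  have hδc : Continuous δ := by
    refine continuous_matrix fun a c => ?_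
    have h1 : a = c := Subsingleton.elim _ _
    subst h1
    have h2 : (fun g => δ g a a) = fun g => (τ g).det := by
      funext g
      rw [hδ, Matrix.diagonal_apply_eq]
    rw [h2]
    exact hτ.matrix_det
  obtain ⟨U₁, hU₁, hU₁'⟩ := exists_open G ρ hρ (((ℓ : ℝ) ^ 2)⁻¹) (inv_pos.2 (pow_pos lR_pos 2))
    (inv_pow_le 2)
  obtain ⟨U₂, hU₂, hU₂'⟩ := exists_open G δ hδc (((ℓ : ℝ) ^ 2)⁻¹) (inv_pos.2 (pow_pos lR_pos 2))
    (inv_pow_le 2)
  refine ⟨U₁ ⊓ U₂, hU₁.inter hU₂, fun σ hσ => ?_⟩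
  have h0 : ‖Aj (ρ σ) 0‖ ≤ 1 := aj_zero (ρ σ) (by rw [mul_one]; exact hU₁' σ hσ.1)
  have h0' : ‖Aj (δ σ) 0‖ ≤ 1 := aj_zero (δ σ) (by rw [mul_one]; exact hU₂' σ hσ.2)
  obtain ⟨A, hA⟩ := exists_lim (ρ σ) h0
  obtain ⟨B, hB⟩ := exists_lim (δ σ) h0'
  have hB1 := norm_lim (LinearMap.id : Mt ℓ 1 →ₗ[ℚ_[ℓ]] Mt ℓ 1) le_rfl
    (fun A hA k hk => npow' A hA k hk) (δ σ) h0' B hB
  have hA0 := h A (aj_tangent ρ σ A hA)
  have hΛ1 : Λ 1 = 1 := by
    have h1 := hΛ 1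
    rwa [map_one ρ, map_one τ] at h1
  have h1 : Tendsto (fun n : ℕ => ((ℓ : ℚ_[ℓ]) ^ n)⁻¹ • (τ (σ ^ (ℓ ^ (n - 2))) - 1)) atTop
      (𝓝 (Λ A)) := by
    refine (tendsto_add_atTop_iff_nat (f := fun n : ℕ => ((ℓ : ℚ_[ℓ]) ^ n)⁻¹ •
      (τ (σ ^ (ℓ ^ (n - 2))) - 1)) 2).1 ?_
    refine ((hΛc.tendsto A).comp hA).congr fun n => ?_
    change Λ (Aj (ρ σ) n) = _
    unfold Aj
    rw [Nat.add_sub_cancel, map_smul, map_sub, hΛ1, ← map_pow, hΛ]
  have h2 := det_dq h1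
  rw [hA0] at h2
  have h3 : Tendsto (fun n : ℕ => Aj (δ σ) n 0 0) atTop (𝓝 0) := by
    refine ((tendsto_add_atTop_iff_nat 2).2 h2).congr fun n => ?_
    unfold Aj
    rw [Nat.add_sub_cancel, ← map_pow, hδ, Matrix.smul_apply, Matrix.sub_apply,
      Matrix.diagonal_apply_eq, Matrix.one_apply_eq]
  have h4 : Tendsto (fun n : ℕ => Aj (δ σ) n 0 0) atTop (𝓝 (B 0 0)) :=
    ((continuous_apply_apply (0 : Fin 1) (0 : Fin 1)).tendsto B).comp hB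
  have h5 : B 0 0 = 0 := tendsto_nhds_unique h4 h3
  have h6 : B = 0 := by
    ext a c
    have ha : a = 0 := Subsingleton.elim _ _
    have hc : c = 0 := Subsingleton.elim _ _
    rw [ha, hc, h5]
    rfl
  rw [LinearMap.id_apply, LinearMap.id_apply, h6, norm_zero, eq_comm, norm_eq_zero] at hB1
  have h7 := pow_eq (δ σ) 0
  rw [pow_zero, pow_one, hB1, smul_zero, add_zero, hδ] at h7
  have h8 := congrFun (congrFun h7 0) 0
  rwa [Matrix.diagonal_apply_eq, Matrix.one_apply_eq] at h8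
where
  npow' {ℓ : ℕ} [Fact ℓ.Prime] (A : Mt ℓ 1) (hA : ‖A‖ ≤ 1) (k : ℕ) (hk : 1 ≤ k) :
      ‖(LinearMap.id : Mt ℓ 1 →ₗ[ℚ_[ℓ]] Mt ℓ 1) (A ^ k)‖ ≤
        ‖(LinearMap.id : Mt ℓ 1 →ₗ[ℚ_[ℓ]] Mt ℓ 1) A‖ := by
    rw [LinearMap.id_apply, LinearMap.id_apply]
    exact npow A le_rfl hA k hk

end main

end Pool.Agent.H50.FT
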