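import Pool.Agent.H50.FT.Tens

/-!
# The orthogonal projection to a space of endomorphisms for the trace form
-/

set_option autoImplicit false

namespace Pool.Agent.H50.FT

open Module Pool.Agent.Y114.RM

section ideal

variable {k : Type} [Field k] {V : Type} [AddCommGroup V] [Module k V] [FiniteDimensional k V]

/-- the trace form -/
noncomputable def trf (k V : Type) [Field k] [AddCommGroup V] [Module k V] :
    LinearMap.BilinForm k (End k V) :=
  (LinearMap.mul k (End k V)).compr₂ (LinearMap.trace k V)

omit [FiniteDimensional k V] in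
theorem trf_apply (X Y : End k V) : trf k V X Y = LinearMap.trace k V (X * Y) := rfl

omit [FiniteDimensional k V] in
theorem trf_comm (X Y : End k V) : trf k V X Y = trf k V Y X := by
  rw [trf_apply, trf_apply, LinearMap.trace_mul_comm]

theorem isCompl_trf {L : Submodule k (End k V)} (hnd : NonDeg L) :
    IsCompl L ((trf k V).orthogonal L) := by
  have hrefl : (trf k V).IsRefl := fun X Y h => by rw [trf_comm]; exact h
  rw [LinearMap.BilinForm.isCompl_orthogonal_iff_disjoint hrefl, Submodule.disjoint_def]
  intro X hX hX'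
  refine hnd X hX fun Y hY => ?_
  have h1 : trf k V Y X = 0 := (LinearMap.BilinForm.mem_orthogonal_iff.1 hX') Y hY
  rw [LinearMap.trace_mul_comm]
  exact h1

/-- the orthogonal projection to `L` for the trace form -/
noncomputable def oproj (L : Submodule k (End k V)) (hnd : NonDeg L) :
    End k V →ₗ[k] End k V := L.projection _ (isCompl_trf hnd)

variable {L : Submodule k (End k V)} (hnd : NonDeg L)

theorem oproj_mem (X : End k V) : oproj L hnd X ∈ L := Submodule.projection_apply_mem _ X

theorem oproj_of_mem {X : End k V} (hX : X ∈ L) : oproj L hnd X = X :=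
  Submodule.projection_apply_of_mem_left _ hX

theorem oproj_perp {X : End k V} (hX : X ∈ (trf k V).orthogonal L) : oproj L hnd X = 0 :=
  (Submodule.projection_apply_eq_zero_iff (isCompl_trf hnd)).2 hX

theorem sub_oproj (X : End k V) : X - oproj L hnd X ∈ (trf k V).orthogonal L := by
  refine (Submodule.projection_apply_eq_zero_iff (isCompl_trf hnd)).1 ?_
  change oproj L hnd (X - oproj L hnd X) = 0
  rw [map_sub, oproj_of_mem hnd (oproj_mem hnd X), sub_self]

/-- the orthogonal projection commutes with conjugations which preserve `L` -/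
theorem oproj_AdE {g g' : End k V}
    (h : ∀ X ∈ L, AdE g g' X ∈ L) (h' : ∀ X ∈ L, AdE g' g X ∈ L) (R : End k V) :
    oproj L hnd (AdE g g' R) = AdE g g' (oproj L hnd R) := by
  have h1 : AdE g g' (R - oproj L hnd R) ∈ (trf k V).orthogonal L := by
    rw [LinearMap.BilinForm.mem_orthogonal_iff]
    intro Y hY
    have h2 := (LinearMap.BilinForm.mem_orthogonal_iff.1 (sub_oproj hnd R)) _ (h' Y hY)
    change trf k V Y (AdE g g' (R - oproj L hnd R)) = 0
    change trf k V (AdE g' g Y) (R - oproj L hnd R) = 0 at h2
    rw [trf_apply, AdE_apply] at h2 ⊢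
    rw [← h2, ← mul_assoc, ← mul_assoc, LinearMap.trace_mul_comm]
    simp only [mul_assoc]
  have h3 : AdE g g' R = AdE g g' (oproj L hnd R) + AdE g g' (R - oproj L hnd R) := by
    rw [← map_add, add_sub_cancel]
  rw [h3, map_add, oproj_of_mem hnd (h _ (oproj_mem hnd R)), oproj_perp hnd h1, add_zero]

/-- if `L` is normalized by `X ∈ G`, the part of `X` orthogonal to `L` commutes with `L` -/
theorem sub_oproj_comm (hLie : IsLie L) {X : End k V}
    (hX : ∀ Z ∈ L, X * Z - Z * X ∈ L) {Z : End k V} (hZ : Z ∈ L) :
    Z * (X - oproj L hnd X) = (X - oproj L hnd X) * Z := by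
  set C := X - oproj L hnd X with hC
  have h1 : C * Z - Z * C ∈ L := by
    have h2 : C * Z - Z * C = (X * Z - Z * X) - (oproj L hnd X * Z - Z * oproj L hnd X) := by
      rw [hC]
      noncomm_ring
    rw [h2]
    exact L.sub_mem (hX Z hZ) (hLie _ (oproj_mem hnd X) _ hZ)
  have hCp : C ∈ (trf k V).orthogonal L := sub_oproj hnd X
  clear_value C
  have h2 : C * Z - Z * C = 0 := by
    refine hnd _ h1 fun Y hY => ?_
    have h3 := (LinearMap.BilinForm.mem_orthogonal_iff.1 hCp) _ (hLie Z hZ Y hY)
    change LinearMap.trace k V ((Z * Y - Y * Z) * C) = 0 at h3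
    rw [← h3, LinearMap.trace_mul_comm k (Z * Y - Y * Z) C, sub_mul, mul_sub, map_sub, map_sub,
      mul_assoc C Z Y, mul_assoc Z C Y, LinearMap.trace_mul_comm k Z (C * Y), mul_assoc C Y Z]
  rw [sub_eq_zero] at h2
  exact h2.symm

end ideal

end Pool.Agent.H50.FT
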