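import Pool.Agent.R931.BD.Place
import Pool.Agent.Y708.ZO.Tan

/-!
# From tangent vectors with independent eigenvalues to Frobenius elements
-/

set_option autoImplicit false

namespace Pool.Agent.H50.FT

open NumberField IsDedekindDomain Polynomial Module Topology Filter Pool.Agent.Y114.TF
  Pool.Agent.Y114.GF Pool.Agent.Y114.MU Pool.Agent.Y114.RM Pool.Agent.R931.IR

section seq

variable {ℓ : ℕ} [hℓ : Fact ℓ.Prime]

/-- `a m = 1 + ℓ ^ m (u + o(1))` -/
def DS (ℓ : ℕ) [Fact ℓ.Prime] (a : ℕ → PadicAlgCl ℓ) (u : PadicAlgCl ℓ) : Prop :=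
  Tendsto (fun m : ℕ => ((ℓ : PadicAlgCl ℓ) ^ m)⁻¹ * (a m - 1)) atTop (𝓝 u)

theorem l_ne_om : (ℓ : PadicAlgCl ℓ) ≠ 0 := by
  exact_mod_cast (Fact.out : ℓ.Prime).ne_zero

theorem l_pow_tendsto : Tendsto (fun m : ℕ => (ℓ : PadicAlgCl ℓ) ^ m) atTop (𝓝 0) := by
  refine tendsto_pow_atTop_nhds_zero_of_norm_lt_one ?_
  have h1 : ‖(ℓ : PadicAlgCl ℓ)‖ = ‖(ℓ : ℚ_[ℓ])‖ := by
    have h2 := norm_algebraMap' (PadicAlgCl ℓ) (ℓ : ℚ_[ℓ])
    rwa [map_natCast] at h2
  rw [h1]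
  exact Padic.norm_p_lt_one

theorem DS.congr {a b : ℕ → PadicAlgCl ℓ} {u : PadicAlgCl ℓ} (h : DS ℓ a u)
    (hab : ∀ m, a m = b m) : DS ℓ b u := by
  have h1 : a = b := funext hab
  rwa [← h1]

theorem DS.one : DS ℓ (fun _ => 1) 0 := by
  unfold DS
  simp

theorem DS.tendsto {a : ℕ → PadicAlgCl ℓ} {u : PadicAlgCl ℓ} (h : DS ℓ a u) :
    Tendsto a atTop (𝓝 1) := by
  have h1 := (l_pow_tendsto (ℓ := ℓ)).mul h
  rw [zero_mul] at h1
  have h2 := h1.add_const 1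
  rw [zero_add] at h2
  refine h2.congr fun m => ?_
  rw [← mul_assoc, mul_inv_cancel₀ (pow_ne_zero _ l_ne_om), one_mul, sub_add_cancel]

theorem DS.mul {a b : ℕ → PadicAlgCl ℓ} {u v : PadicAlgCl ℓ} (ha : DS ℓ a u) (hb : DS ℓ b v) :
    DS ℓ (fun m => a m * b m) (u + v) := by
  have h1 := (Tendsto.mul ha hb.tendsto).add hb
  rw [mul_one] at h1
  refine h1.congr fun m => ?_
  ring

theorem DS.inv {a : ℕ → PadicAlgCl ℓ} {u : PadicAlgCl ℓ} (ha : DS ℓ a u) :
    DS ℓ (fun m => (a m)⁻¹) (-u) := by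
  have h0 : ∀ᶠ m in atTop, a m ≠ 0 := ha.tendsto.eventually_ne one_ne_zero
  have h1 := (Tendsto.mul ha (ha.tendsto.inv₀ one_ne_zero)).neg
  rw [inv_one, mul_one] at h1
  refine h1.congr' ?_
  filter_upwards [h0] with m hm
  field_simp
  ring

theorem DS.pow {a : ℕ → PadicAlgCl ℓ} {u : PadicAlgCl ℓ} (ha : DS ℓ a u) (k : ℕ) :
    DS ℓ (fun m => a m ^ k) (k * u) := by
  induction k with
  | zero => simpa using DS.one (ℓ := ℓ)
  | succ k ih =>
    have h1 := ih.mul ha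
    have e1 : ((k + 1 : ℕ) : PadicAlgCl ℓ) * u = k * u + u := by push_cast; ring
    rw [e1]
    exact h1.congr fun m => (pow_succ _ _).symm

theorem DS.zpow {a : ℕ → PadicAlgCl ℓ} {u : PadicAlgCl ℓ} (ha : DS ℓ a u) (k : ℤ) :
    DS ℓ (fun m => a m ^ k) (k * u) := by
  cases k with
  | ofNat k => simpa using ha.pow k
  | negSucc k =>
    have h1 := (ha.pow (k + 1)).inv
    have e1 : ((Int.negSucc k : ℤ) : PadicAlgCl ℓ) * u = -(((k + 1 : ℕ) : PadicAlgCl ℓ) * u) := by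
      rw [Int.cast_negSucc]
      ring
    rw [e1]
    exact h1.congr fun m => (zpow_negSucc _ _).symm

theorem DS.prod {r : ℕ} {a : Fin r → ℕ → PadicAlgCl ℓ} {u : Fin r → PadicAlgCl ℓ}
    (ha : ∀ k, DS ℓ (a k) (u k)) : DS ℓ (fun m => ∏ k, a k m) (∑ k, u k) := by
  classical
  have h1 : ∀ s : Finset (Fin r), DS ℓ (fun m => ∏ k ∈ s, a k m) (∑ k ∈ s, u k) := by
    intro s
    induction s using Finset.induction_on with
    | empty => simpa using DS.one (ℓ := ℓ)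
    | insert i s hi ih =>
      rw [Finset.sum_insert hi]
      exact ((ha i).mul ih).congr fun m => (Finset.prod_insert hi).symm
  exact h1 _

/-- if `u ≠ 0` then `a m ^ M ≠ 1` for large `m` -/
theorem DS.ne_one {a : ℕ → PadicAlgCl ℓ} {u : PadicAlgCl ℓ} (ha : DS ℓ a u) (hu : u ≠ 0) {M : ℕ}
    (hM : 0 < M) : ∀ᶠ m in atTop, a m ^ M ≠ 1 := by
  have h1 := ha.pow M
  have h2 : (M : PadicAlgCl ℓ) * u ≠ 0 := mul_ne_zero (by exact_mod_cast hM.ne') hu
  have h3 := h1.eventually_ne h2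
  filter_upwards [h3] with m hm h4
  apply hm
  rw [h4, sub_self, mul_zero]

end seq

section roots

variable {ℓ : ℕ} [hℓ : Fact ℓ.Prime]

theorem root_shift {d : ℕ} (A B : End ℚ_[ℓ] (Fin d → ℚ_[ℓ])) (c : ℚ_[ℓ])
    (hB : LinearMap.toMatrix' B = 1 + c • LinearMap.toMatrix' A) {x : PadicAlgCl ℓ}
    (hx : IsRootOf A.charpoly x) :
    IsRootOf B.charpoly (1 + algebraMap ℚ_[ℓ] (PadicAlgCl ℓ) c * x) := by
  unfold IsRootOf at hx ⊢
  rw [eval_eq_det] at hx ⊢
  have h1 : Matrix.scalar (Fin d) (1 + algebraMap ℚ_[ℓ] (PadicAlgCl ℓ) c * x) -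
      (LinearMap.toMatrix' B).map (algebraMap ℚ_[ℓ] (PadicAlgCl ℓ)) =
      algebraMap ℚ_[ℓ] (PadicAlgCl ℓ) c • (Matrix.scalar (Fin d) x -
        (LinearMap.toMatrix' A).map (algebraMap ℚ_[ℓ] (PadicAlgCl ℓ))) := by
    rw [hB]
    ext i j
    rw [Matrix.sub_apply, Matrix.map_apply, Matrix.add_apply, Matrix.smul_apply, Matrix.smul_apply,
      Matrix.sub_apply, Matrix.map_apply, Matrix.scalar_apply, Matrix.scalar_apply,
      Matrix.diagonal_apply, Matrix.diagonal_apply, Matrix.one_apply, map_add, smul_eq_mul,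
      smul_eq_mul, map_mul]
    by_cases hij : i = j
    · rw [if_pos hij, if_pos hij, if_pos hij, map_one]
      ring
    · rw [if_neg hij, if_neg hij, if_neg hij, map_zero]
      ring
  rw [h1, Matrix.det_smul, hx, mul_zero]

theorem isRoot_nonempty {d : ℕ} (hd : 0 < d) (A : End ℚ_[ℓ] (Fin d → ℚ_[ℓ])) :
    {y : PadicAlgCl ℓ | IsRootOf A.charpoly y}.Nonempty := by
  have h1 : (A.charpoly.map (algebraMap ℚ_[ℓ] (PadicAlgCl ℓ))).degree ≠ 0 := by
    rw [degree_map, degree_eq_natDegree (LinearMap.charpoly_monic A).ne_zero,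
      LinearMap.charpoly_natDegree, Module.finrank_fin_fun]
    exact_mod_cast hd.ne'
  obtain ⟨y, hy⟩ := IsAlgClosed.exists_root _ h1
  refine ⟨y, ?_⟩
  rw [IsRoot, eval_map] at hy
  exact hy

/-- roots of convergent sequences -/
theorem exists_roots {d : ℕ} {A : ℕ → End ℚ_[ℓ] (Fin d → ℚ_[ℓ])}
    {X : End ℚ_[ℓ] (Fin d → ℚ_[ℓ])}
    (hA : Tendsto (fun m => LinearMap.toMatrix' (A m)) atTop (𝓝 (LinearMap.toMatrix' X)))
    {x : PadicAlgCl ℓ} (hx : IsRootOf X.charpoly x) :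
    ∃ y : ℕ → PadicAlgCl ℓ, (∀ m, IsRootOf (A m).charpoly (y m)) ∧ Tendsto y atTop (𝓝 x) := by
  have hd : 0 < d := by
    rw [Nat.pos_iff_ne_zero]
    rintro rfl
    unfold IsRootOf at hx
    have h1 : X.charpoly = 1 := by
      refine eq_one_of_monic_natDegree_zero (LinearMap.charpoly_monic X) ?_
      rw [LinearMap.charpoly_natDegree, Module.finrank_fin_fun]
    rw [h1, map_one] at hx
    exact one_ne_zero hx
  obtain ⟨y, hy, hy'⟩ := Pool.Agent.Y708.ZO.seq_of_near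
    (fun m => {y : PadicAlgCl ℓ | IsRootOf (A m).charpoly y}) (fun m => isRoot_nonempty hd (A m)) x
    (fun ε hε => by
      have hc : Continuous fun M : Matrix (Fin d) (Fin d) ℚ_[ℓ] => ‖(Matrix.scalar (Fin d) x -
          M.map (algebraMap ℚ_[ℓ] (PadicAlgCl ℓ))).det‖ := by
        apply Continuous.norm
        apply Continuous.matrix_det
        apply continuous_const.sub
        exact continuous_id.matrix_map (continuous_algebraMap ℚ_[ℓ] (PadicAlgCl ℓ))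
      have h1 := (hc.tendsto _).comp hA
      have h2 : ‖(Matrix.scalar (Fin d) x -
          (LinearMap.toMatrix' X).map (algebraMap ℚ_[ℓ] (PadicAlgCl ℓ))).det‖ = 0 := by
        rw [← eval_eq_det, hx, norm_zero]
      rw [h2] at h1
      have h3 := h1.eventually_lt_const (show (0 : ℝ) < ε ^ d by positivity)
      filter_upwards [h3] with m hm
      obtain ⟨y, hy, hyx⟩ := exists_root_near (A m) x hε (by
        rw [eval_eq_det]
        exact hm)
      exact ⟨y, hy, by rwa [dist_comm, dist_eq_norm]⟩)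
  exact ⟨y, hy, hy'⟩

end roots

end Pool.Agent.H50.FT
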