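import Pool.Agent.H50.FT.Oproj
import Pool.Agent.R913.Adj.Weight

/-!
# Orthogonality for the trace form in Lie algebras of endomorphisms
-/

set_option autoImplicit false

namespace Pool.Agent.H50.FT

open Module Pool.Agent.Y114.RM Pool.Agent.R913.Adj

section lin

variable {k : Type} [Field k] {V : Type} [AddCommGroup V] [Module k V] [FiniteDimensional k V]

/-- the pairing of two spaces by the trace form -/
noncomputable def pr (A B : Submodule k (End k V)) : A →ₗ[k] Dual k B :=
  (trf k V).compl₁₂ A.subtype B.subtype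

omit [FiniteDimensional k V] in
theorem pr_apply (A B : Submodule k (End k V)) (x : A) (y : B) :
    pr A B x y = LinearMap.trace k V ((x : End k V) * y) := rfl

theorem exists_perp {T G : Submodule k (End k V)} (hTG : T ≤ G) (h : ¬ G ≤ T) :
    ∃ C ∈ G, C ≠ 0 ∧ ∀ Z ∈ T, LinearMap.trace k V (C * Z) = 0 := by
  have h1 : T < G := lt_of_le_not_ge hTG h
  have h2 := Submodule.finrank_lt_finrank_of_lt h1
  have h3 : LinearMap.ker (pr G T) ≠ ⊥ :=
    LinearMap.ker_ne_bot_of_finrank_lt (by rwa [Subspace.dual_finrank_eq])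
  obtain ⟨C, hC, hC0⟩ := (Submodule.ne_bot_iff _).1 h3
  refine ⟨C, C.2, fun h0 => hC0 (Subtype.ext h0), fun Z hZ => ?_⟩
  have h4 := LinearMap.congr_fun (LinearMap.mem_ker.1 hC) ⟨Z, hZ⟩
  rw [pr_apply] at h4
  exact h4

theorem exists_repr {G : Submodule k (End k V)} (hG : NonDeg G) (e : End k V) :
    ∃ z ∈ G, ∀ Y ∈ G, LinearMap.trace k V (z * Y) = LinearMap.trace k V (e * Y) := by
  have h1 : Function.Injective (pr G G) := by
    rw [injective_iff_map_eq_zero]
    intro x hx
    refine Subtype.ext (hG x x.2 fun Y hY => ?_)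
    have h2 := LinearMap.congr_fun hx ⟨Y, hY⟩
    rw [pr_apply] at h2
    exact h2
  have h2 : Function.Surjective (pr G G) :=
    (LinearMap.injective_iff_surjective_of_finrank_eq_finrank
      (by rw [Subspace.dual_finrank_eq])).1 h1
  obtain ⟨z, hz⟩ := h2 ((trf k V e) ∘ₗ G.subtype)
  refine ⟨z, z.2, fun Y hY => ?_⟩
  have h3 := LinearMap.congr_fun hz ⟨Y, hY⟩
  rw [pr_apply] at h3
  exact h3

omit [FiniteDimensional k V] in
theorem trace_bracket (C Z Y : End k V) : LinearMap.trace k V ((C * Z - Z * C) * Y) =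
    LinearMap.trace k V (C * (Z * Y - Y * Z)) := by
  rw [sub_mul, mul_sub, map_sub, map_sub, mul_assoc C Z Y, mul_assoc Z C Y,
    LinearMap.trace_mul_comm k Z (C * Y), mul_assoc C Y Z]

omit [FiniteDimensional k V] in
/-- what is orthogonal to an ideal commutes with it -/
theorem comm_of_perp {T G : Submodule k (End k V)} (hG : IsLie G) (hnd : NonDeg G) (hTG : T ≤ G)
    (hid : ∀ Z ∈ T, ∀ Y ∈ G, Z * Y - Y * Z ∈ T) {C : End k V} (hC : C ∈ G)
    (hperp : ∀ Z ∈ T, LinearMap.trace k V (C * Z) = 0) {Z : End k V} (hZ : Z ∈ T) :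
    Z * C = C * Z := by
  have h1 := hnd _ (hG C hC Z (hTG hZ)) fun Y hY => by
    rw [trace_bracket]
    exact hperp _ (hid Z hZ Y hY)
  exact (sub_eq_zero.1 h1).symm

omit [FiniteDimensional k V] in
/-- the element which represents a trace with an operator which commutes with the Lie algebra is
central -/
theorem central_repr {G : Submodule k (End k V)} (hG : IsLie G) (hnd : NonDeg G) {e z : End k V}
    (he : ∀ Y ∈ G, Y * e = e * Y) (hz : z ∈ G)
    (h : ∀ Y ∈ G, LinearMap.trace k V (z * Y) = LinearMap.trace k V (e * Y)) {Y : End k V}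
    (hY : Y ∈ G) : Y * z = z * Y := by
  have h1 := hnd _ (hG z hz Y hY) fun Y' hY' => by
    rw [trace_bracket, h _ (hG Y hY Y' hY'), ← trace_bracket, he Y hY, sub_self, zero_mul, map_zero]
  exact (sub_eq_zero.1 h1).symm

end lin

section blocks

variable {k : Type} [Field k] {ι : Type} [Fintype ι] [DecidableEq ι] {V : ι → Type}
  [∀ i, AddCommGroup (V i)] [∀ i, Module k (V i)]

/-- the `i`-th block of an endomorphism -/
noncomputable def blk (i : ι) : End k (∀ i, V i) →ₗ[k] End k (V i) where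
  toFun X := LinearMap.proj i ∘ₗ X ∘ₗ LinearMap.single k V i
  map_add' X Y := by
    refine LinearMap.ext fun x => ?_
    rfl
  map_smul' c X := by
    refine LinearMap.ext fun x => ?_
    rfl

theorem blk_apply (i : ι) (X : End k (∀ i, V i)) (x : V i) : blk i X x = X (Pi.single i x) i := rfl

/-- the projection to the `i`-th summand -/
noncomputable def pj (i : ι) : End k (∀ i, V i) := LinearMap.single k V i ∘ₗ LinearMap.proj i

theorem pj_comm {X : End k (∀ i, V i)} (hX : ∀ x i, X x i = X (Pi.single i (x i)) i) (i : ι) :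
    X * pj i = pj i * X := by
  refine LinearMap.ext fun x => ?_
  change X (Pi.single i (x i)) = Pi.single i (X x i)
  funext j
  by_cases hj : j = i
  · subst hj
    rw [Pi.single_eq_same, ← hX]
  · rw [Pi.single_eq_of_ne hj, hX, Pi.single_eq_of_ne hj, Pi.single_zero, map_zero, Pi.zero_apply]

theorem trace_pj [∀ i, FiniteDimensional k (V i)] (X : End k (∀ i, V i)) (i : ι) :
    LinearMap.trace k (∀ i, V i) (pj i * X) = LinearMap.trace k (V i) (blk i X) := by
  have h1 : pj i * X = LinearMap.single k V i ∘ₗ (LinearMap.proj i ∘ₗ X) := rfl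
  have h2 : blk i X = (LinearMap.proj i ∘ₗ X) ∘ₗ LinearMap.single k V i := rfl
  rw [h1, h2, LinearMap.trace_comp_comm']

/-- If the centre of `G` is spanned by `W`, which is orthogonal to `T ≤ G`, the traces of the
elements of `T` on the blocks vanish. -/
theorem trace_blk_eq_zero [∀ i, FiniteDimensional k (V i)]
    {T G : Submodule k (End k (∀ i, V i))} (hG : IsLie G) (hnd : NonDeg G) (hTG : T ≤ G)
    (hparts : ∀ X ∈ G, ∀ x i, X x i = X (Pi.single i (x i)) i) {W : End k (∀ i, V i)}
    (hcen : ∀ Z ∈ G, (∀ Y ∈ G, Y * Z = Z * Y) → ∃ c : k, Z = c • W)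
    (hW : ∀ Z ∈ T, LinearMap.trace k (∀ i, V i) (W * Z) = 0) {X : End k (∀ i, V i)} (hX : X ∈ T)
    (i : ι) : LinearMap.trace k (V i) (blk i X) = 0 := by
  obtain ⟨z, hz, hzY⟩ := exists_repr hnd (pj i)
  obtain ⟨c, hc⟩ := hcen z hz fun Y hY =>
    central_repr hG hnd (fun Y hY => pj_comm (hparts Y hY) i) hz hzY hY
  rw [← trace_pj, ← hzY X (hTG hX), hc, smul_mul_assoc, map_smul, hW X hX, smul_zero]

end blocks

end Pool.Agent.H50.FT
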