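import Pool.Agent.H50.FT.Wts
import Pool.Agent.Y114.RM.Final
import Pool.Agent.H50.FT.Perp

/-!
# Elements with as many independent eigenvalues as the rank
-/

set_option autoImplicit false

namespace Pool.Agent.H50.FT

open LieAlgebra LieModule Module TensorProduct Polynomial Pool.Agent.Y114.RM

section rank

attribute [local instance 100] LieRing.ofAssociativeRing

variable {k : Type} [Field k] {V : Type} [AddCommGroup V] [Module k V]

/-- the Lie subalgebra -/
def toLieSub (G : Submodule k (End k V)) (hG : IsLie G) : LieSubalgebra k (End k V) :=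
  { G with
    lie_mem' := fun {X Y} hX hY => by
      change X * Y - Y * X ∈ G
      exact hG X hX Y hY }

theorem tf_eq (G : Submodule k (End k V)) (hG : IsLie G) (X Y : toLieSub G hG) :
    traceForm k (toLieSub G hG) V X Y =
      LinearMap.trace k V ((X : End k V) * (Y : End k V)) := rfl

theorem exists_indep_eig [CharZero k] [Uncountable k] [FiniteDimensional k V] (A : Type) [Field A]
    [Algebra k A] [CharZero A] [IsAlgClosed A] (G : Submodule k (End k V)) (hG : IsLie G)
    (hnd : NonDeg G) {r : ℕ} (hr : ∀ X ∈ G, r ≤ finrank k (cen G X)) :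
    ∃ X ∈ G, ∃ x : Fin r → A,
      (∀ j, Module.End.HasEigenvalue (R := A) (M := A ⊗[k] V) (X.baseChange A) (x j)) ∧
      ∀ e : Fin r → ℤ, ∑ j, (e j : A) * x j = 0 → e = 0 := by
  obtain ⟨x, hx⟩ := exists_isCartanSubalgebra_engel k (toLieSub G hG)
  have hnil : LieRing.IsNilpotent (LieSubalgebra.engel k x) := hx.nilpotent
  have h1 : ∀ u : toLieSub G hG, (∀ y, traceForm k (toLieSub G hG) V u y = 0) → u = 0 := by
    intro u hu
    refine Subtype.ext (hnd u u.2 fun Y hY => ?_)
    have h2 := hu ⟨Y, hY⟩
    rw [tf_eq] at h2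
    exact h2
  have h2 : ∀ u : LieSubalgebra.engel k x,
      (∀ y, traceForm k (LieSubalgebra.engel k x) V u y = 0) → u = 0 := by
    intro u hu
    refine Subtype.ext (engel_nondeg h1 x u.2 fun y hy => ?_)
    exact hu ⟨y, hy⟩
  have h3 : r ≤ finrank k (LieSubalgebra.engel k x) := by
    refine (hr x x.2).trans ?_
    have h4 : finrank k (LieSubalgebra.engel k x) = finrank k
        (((LieSubalgebra.engel k x).toSubmodule).map (toLieSub G hG).toSubmodule.subtype) :=
      ((LieSubalgebra.engel k x).toSubmodule.equivMapOfInjective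
        (toLieSub G hG).toSubmodule.subtype (Submodule.injective_subtype _)).finrank_eq
    rw [h4]
    refine Submodule.finrank_mono fun Y hY => ?_
    obtain ⟨hYG, hYx⟩ := mem_cen.1 hY
    refine ⟨⟨Y, hYG⟩, ?_, rfl⟩
    change (⟨Y, hYG⟩ : toLieSub G hG) ∈ LieSubalgebra.engel k x
    rw [LieSubalgebra.mem_engel_iff]
    refine ⟨1, ?_⟩
    rw [pow_one, ad_apply]
    refine Subtype.ext ?_
    change (x : End k V) * Y - Y * (x : End k V) = 0
    rw [hYx, sub_self]
  obtain ⟨F, hF1, hF2⟩ := exists_weights A h2 h3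
  obtain ⟨h, hh⟩ := exists_generic F hF2
  exact ⟨((h : toLieSub G hG) : End k V), (h : toLieSub G hG).2, fun j => F j h,
    fun j => hF1 j h, hh⟩

end rank

section blocks

variable {k : Type} [Field k] {A : Type} [Field A] [Algebra k A] {ι : Type} [Fintype ι]
  [DecidableEq ι] {V : ι → Type} [∀ i, AddCommGroup (V i)] [∀ i, Module k (V i)]
  [∀ i, FiniteDimensional k (V i)]

/-- an eigenvalue is an eigenvalue of a block -/
theorem exists_block {X : End k (∀ i, V i)} (hX : ∀ x i, X x i = X (Pi.single i (x i)) i) {x : A}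
    (hx : Module.End.HasEigenvalue (R := A) (M := A ⊗[k] (∀ i, V i)) (X.baseChange A) x) :
    ∃ i, aeval x (blk (V := V) i X).charpoly = 0 := by
  obtain ⟨v, hv⟩ := hx.exists_hasEigenvector
  have hv1 : X.baseChange A v = x • v := hv.apply_eq_smul
  have hv0 : v ≠ 0 := hv.2
  let π : ∀ i, A ⊗[k] (∀ i, V i) →ₗ[A] A ⊗[k] V i := fun i =>
    (LinearMap.proj i : (∀ i, V i) →ₗ[k] V i).baseChange A
  let σ : ∀ i, A ⊗[k] V i →ₗ[A] A ⊗[k] (∀ i, V i) := fun i =>
    (LinearMap.single k V i).baseChange A
  have hsum : ∑ i, σ i (π i v) = v := by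
    have h1 : ∑ i, (σ i) ∘ₗ (π i) = LinearMap.id := by
      have h2 : ∑ i, (LinearMap.single k V i) ∘ₗ (LinearMap.proj i) = LinearMap.id := by
        refine LinearMap.ext fun y => ?_
        funext j
        rw [LinearMap.sum_apply, Finset.sum_apply, LinearMap.id_apply]
        simp
      have h3 := congrArg (LinearMap.baseChange A) h2
      rw [LinearMap.baseChange_id] at h3
      rw [← h3]
      refine Eq.trans ?_ (map_sum (LinearMap.baseChangeHom k A (∀ i, V i) (∀ i, V i)) _ _).symm
      refine Finset.sum_congr rfl fun i _ => ?_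
      exact (LinearMap.baseChange_comp _ _).symm
    have h4 := LinearMap.congr_fun h1 v
    rw [LinearMap.sum_apply] at h4
    exact h4
  obtain ⟨i, hi⟩ : ∃ i, π i v ≠ 0 := by
    by_contra hcon
    push Not at hcon
    apply hv0
    rw [← hsum]
    exact Finset.sum_eq_zero fun i _ => by rw [hcon i, map_zero]
  refine ⟨i, ?_⟩
  have hcomm : (blk (V := V) i X) ∘ₗ (LinearMap.proj i : (∀ i, V i) →ₗ[k] V i) =
      LinearMap.proj i ∘ₗ X := by
    refine LinearMap.ext fun y => ?_
    change X (Pi.single i (y i)) i = X y i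
    rw [hX y i]
  have h1 : (blk (V := V) i X).baseChange A (π i v) = x • π i v := by
    have h2 := congrArg (LinearMap.baseChange A) hcomm
    rw [LinearMap.baseChange_comp, LinearMap.baseChange_comp] at h2
    have h3 := LinearMap.congr_fun h2 v
    change (blk (V := V) i X).baseChange A (π i v) = π i (X.baseChange A v) at h3
    rw [h3, hv1, map_smul]
  have h2 : Module.End.HasEigenvalue (R := A) (M := A ⊗[k] V i)
      ((blk (V := V) i X).baseChange A) x :=
    Module.End.hasEigenvalue_of_hasEigenvector ⟨Module.End.mem_eigenspace_iff.2 h1, hi⟩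
  have h3 := (Module.End.hasEigenvalue_iff_isRoot_charpoly _ x).1 h2
  rw [LinearMap.charpoly_baseChange, IsRoot, eval_map] at h3
  exact h3

end blocks

end Pool.Agent.H50.FT
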