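import Pool.Agent.H50.FT.TanI
import Pool.Agent.H50.FT.Four

/-!
# The image of Galois is open in the motivic group
-/

set_option autoImplicit false

namespace Pool.Agent.H50.FT

open Module NumberField Polynomial Topology Filter Pool.Agent.Y114.RM Pool.Agent.Y114.TF
  Pool.Agent.Y114.GF Pool.Agent.H204R3.GP Pool.Agent.R913.Adj Pool.Agent Pool.Agent.W569.FM
  Pool.Agent.Y708.ZO Pool.Agent.Y142.ZO Pool.Agent.Y497.ZO

section der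

variable {k : Type} [Field k] {V : Type} [AddCommGroup V] [Module k V]

/-- the derived algebra -/
def der1 (G : Submodule k (End k V)) : Submodule k (End k V) :=
  Submodule.span k {Z | ∃ A ∈ G, ∃ B ∈ G, A * B - B * A = Z}

theorem der1_le {G : Submodule k (End k V)} (hG : IsLie G) : der1 G ≤ G := by
  unfold der1
  rw [Submodule.span_le]
  rintro _ ⟨A, hA, B, hB, rfl⟩
  exact hG A hA B hB

theorem perp_der {G : Submodule k (End k V)} {C : End k V} (hC : ∀ Y ∈ G, Y * C = C * Y)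
    {Y : End k V} (hY : Y ∈ der1 G) : LinearMap.trace k V (C * Y) = 0 := by
  unfold der1 at hY
  induction hY using Submodule.span_induction with
  | mem Y hY =>
    obtain ⟨A, hA, B, -, rfl⟩ := hY
    rw [← trace_bracket, hC A hA, sub_self, zero_mul, map_zero]
  | zero => rw [mul_zero, map_zero]
  | add X Y _ _ hX hY => rw [mul_add, map_add, hX, hY, add_zero]
  | smul c X _ hX => rw [mul_smul_comm, map_smul, hX, smul_zero]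

/-- if every element of `G` is the sum of a central element and of an element of the Lie algebra `L`,
the derived algebra of `G` is contained in `L` -/
theorem der_le {G L : Submodule k (End k V)} (hL : IsLie L)
    (h : ∀ X ∈ G, ∃ Z ∈ G, (∀ Y ∈ G, Y * Z = Z * Y) ∧ X - Z ∈ L) : der1 G ≤ L := by
  unfold der1
  rw [Submodule.span_le]
  rintro _ ⟨A, hA, B, hB, rfl⟩
  obtain ⟨Z₁, -, hZ₁, h1⟩ := h A hA
  obtain ⟨Z₂, hG₂, hZ₂, h2⟩ := h B hB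
  have h3 := hL _ h1 _ h2
  have e : A * B - B * A = (A - Z₁) * (B - Z₂) - (B - Z₂) * (A - Z₁) := by
    have c1 : B * Z₁ = Z₁ * B := hZ₁ B hB
    have c2 : A * Z₂ = Z₂ * A := hZ₂ A hA
    have c3 : Z₂ * Z₁ = Z₁ * Z₂ := hZ₁ Z₂ hG₂
    rw [sub_mul, sub_mul, mul_sub, mul_sub, mul_sub, mul_sub, c1, c2, c3]
    abel
  rw [SetLike.mem_coe, e]
  exact h3

end der

section four

variable {ι : Type} [Fintype ι] [DecidableEq ι] {n : ι → ℕ} {ℓ : ℕ} [hℓ : Fact ℓ.Prime]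
  {Γ : Type} [Group Γ] [TopologicalSpace Γ] [IsTopologicalGroup Γ] [CompactSpace Γ]

/-- if every element of `𝔤` is the sum of an element of the derived algebra and of an element which
kills the Tate tensors, four variables suffice -/
theorem tate_of_four_ab (ρ : ∀ i, Representation ℚ_[ℓ] Γ (Fin (n i) → ℚ_[ℓ]))
    (hρ : ∀ i, Continuous fun g => LinearMap.toMatrix' (ρ i g))
    {𝔤 : Submodule ℚ_[ℓ] (End ℚ_[ℓ] (∀ i, Fin (n i) → ℚ_[ℓ]))} (h𝔤 : IsMotivic ρ 𝔤)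
    (hss : FiniteIndexSemisimple (sumRep ρ))
    (h4 : ∀ m ≤ 4, ∀ φ : Tensor ℚ_[ℓ] (∀ i, Fin (n i) → ℚ_[ℓ]) m, TateTensor (sumRep ρ) φ →
      ∀ X ∈ 𝔤, KillsTensor X φ)
    (hab : ∀ X ∈ 𝔤, ∃ Y ∈ der1 𝔤, ∀ (m : ℕ) (φ : Tensor ℚ_[ℓ] (∀ i, Fin (n i) → ℚ_[ℓ]) m),
      TateTensor (sumRep ρ) φ → KillsTensor (X - Y) φ)
    (m : ℕ) (φ : Tensor ℚ_[ℓ] (∀ i, Fin (n i) → ℚ_[ℓ]) m) (hφ : TateTensor (sumRep ρ) φ)
    {X : End ℚ_[ℓ] (∀ i, Fin (n i) → ℚ_[ℓ])} (hX : X ∈ 𝔤) : KillsTensor X φ := by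
  obtain ⟨L, hL, hLie, -, -⟩ := Y41.RM.lieL' ℚ_[ℓ] (∀ i, Fin (n i) → ℚ_[ℓ]) Γ (sumRep ρ)
  have hder : der1 𝔤 ≤ L := der_le hLie fun A hA => by
    obtain ⟨Z, hZ, hZc, hAZ⟩ := ideal_of_four ρ hρ h𝔤 hss h4 hA
    exact ⟨Z, hZ, hZc, (hL _).2 (mem_LT_of_semisimple (sumRep ρ) hss hAZ)⟩
  obtain ⟨Y, hY, hXY⟩ := hab X hX
  have h1 : X - Y ∈ L := (hL _).2 (mem_LT_of_semisimple (sumRep ρ) hss hXY)
  have h2 := L.add_mem h1 (hder hY)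
  rw [sub_add_cancel] at h2
  exact ((hL _).1 h2).2 m φ hφ

/-- the same conclusion as in `TV_eq`, if every element of `𝔤` is the sum of an element of the
derived algebra and of a tangent vector -/
theorem TV_eq_ab (ρ : ∀ i, Representation ℚ_[ℓ] Γ (Fin (n i) → ℚ_[ℓ]))
    (hρ : ∀ i, Continuous fun g => LinearMap.toMatrix' (ρ i g)) {D : ℕ}
    (b : Basis (Fin D) ℚ_[ℓ] (∀ i, Fin (n i) → ℚ_[ℓ]))
    {𝔤 : Submodule ℚ_[ℓ] (End ℚ_[ℓ] (∀ i, Fin (n i) → ℚ_[ℓ]))} (h𝔤 : IsMotivic ρ 𝔤)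
    (hT : ∀ (m : ℕ) (φ : Tensor ℚ_[ℓ] (∀ i, Fin (n i) → ℚ_[ℓ]) m), TateTensor (sumRep ρ) φ →
      ∀ X ∈ 𝔤, KillsTensor X φ)
    (s : GF ℚ →* Γ) (hs : Continuous s) (hfin : FiniteOrderFrom s ℓ) (w : ι → ℤ)
    (p : Fin 3 → ℕ) (hinj : Function.Injective p) (hp : ∀ t, (p t).Prime ∧ p t ≠ ℓ)
    (hgood : ∀ t, ∃ σ, IsFrobeniusAt (p t) σ ∧ ∀ i, ∃ P : ℚ[X],
      (ρ i (s σ⁻¹)).charpoly = P.map (algebraMap ℚ ℚ_[ℓ]) ∧
        ∀ a ∈ P.aroots ℂ, ‖a‖ ^ 2 = (p t : ℝ) ^ w i)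
    (hab : ∀ X ∈ 𝔤, ∃ Y ∈ der1 𝔤, X - Y ∈ TV b (sumRep ρ)) :
    𝔤 ≤ TV b (sumRep ρ) := by
  by_contra hcon
  have hle := TV_le b h𝔤
  have hid : ∀ Z ∈ TV b (sumRep ρ), ∀ Y ∈ 𝔤, Z * Y - Y * Z ∈ TV b (sumRep ρ) := fun Z hZ Y hY =>
    TV_ideal ρ hρ b h𝔤 hT s hs hfin w p hinj hp hgood hZ hY
  obtain ⟨C, hC, hC0, hperp⟩ := exists_perp hle hcon
  have hcomm : ∀ Z ∈ TV b (sumRep ρ), Z * C = C * Z := fun Z hZ =>
    comm_of_perp h𝔤.bracket h𝔤.nondeg hle hid hC hperp hZ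
  have hcen : ∀ Y ∈ 𝔤, Y * C = C * Y := fun Y hY =>
    kills_E2.1 (hT _ _ (tate_of_comm_tangent ρ hρ b hcomm) Y hY)
  refine hC0 (h𝔤.nondeg C hC fun X hX => ?_)
  obtain ⟨Y, hY, hXY⟩ := hab X hX
  have h1 := hperp _ hXY
  rw [mul_sub, map_sub, perp_der hcen hY, sub_zero] at h1
  exact h1

end four

section tangent

variable {ι : Type} [Fintype ι] [DecidableEq ι] {n : ι → ℕ} {ℓ : ℕ} [hℓ : Fact ℓ.Prime]
  {Γ : Type} [Group Γ]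

/-- `X` is tangent to the image of `Γ` -/
def Tgt (ρ : ∀ i, Representation ℚ_[ℓ] Γ (Fin (n i) → ℚ_[ℓ]))
    (X : End ℚ_[ℓ] (∀ i, Fin (n i) → ℚ_[ℓ])) : Prop :=
  ∃ σ : ℕ → Γ, ∀ i, Tendsto
    (fun m : ℕ => ((ℓ : ℚ_[ℓ]) ^ m)⁻¹ • (LinearMap.toMatrix' (ρ i (σ m)) - 1)) atTop
    (𝓝 (LinearMap.toMatrix' (blk (V := fun i => Fin (n i) → ℚ_[ℓ]) i X)))

theorem tgt_of_TV (ρ : ∀ i, Representation ℚ_[ℓ] Γ (Fin (n i) → ℚ_[ℓ])) {D : ℕ}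
    (b : Basis (Fin D) ℚ_[ℓ] (∀ i, Fin (n i) → ℚ_[ℓ])) {X : End ℚ_[ℓ] (∀ i, Fin (n i) → ℚ_[ℓ])}
    (hX : X ∈ TV b (sumRep ρ)) : Tgt ρ X := by
  obtain ⟨σ, hσ⟩ := (mem_TV b _ X).1 hX
  refine ⟨σ, fun i => ?_⟩
  have h1 := ((Lb_cont b i).tendsto _).comp hσ
  rw [Lb_mt] at h1
  have h1' : Lb b i 1 = 1 := by
    have h2 := Lb_mt b i (1 : End ℚ_[ℓ] (∀ i, Fin (n i) → ℚ_[ℓ]))
    rw [map_one] at h2
    rw [h2]
    have h3 : blk (V := fun i => Fin (n i) → ℚ_[ℓ]) i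
        (1 : End ℚ_[ℓ] (∀ i, Fin (n i) → ℚ_[ℓ])) = 1 := by
      refine LinearMap.ext fun x => ?_
      rw [blk_apply, Module.End.one_apply, Module.End.one_apply, Pi.single_eq_same]
    rw [h3, LinearMap.toMatrix'_one]
  refine h1.congr fun m => ?_
  change Lb b i (((ℓ : ℚ_[ℓ]) ^ m)⁻¹ • (Mr b (sumRep ρ) (σ m) - 1)) = _
  rw [map_smul, map_sub, h1', Mr_apply, Lb_mt, blk_sumRep]

/-- the matrix of the endomorphism with one block -/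
noncomputable def Fb {D : ℕ} (b : Basis (Fin D) ℚ_[ℓ] (∀ i, Fin (n i) → ℚ_[ℓ])) (i : ι) :
    Matrix (Fin (n i)) (Fin (n i)) ℚ_[ℓ] →ₗ[ℚ_[ℓ]] Matrix (Fin D) (Fin D) ℚ_[ℓ] :=
  (mt b).toLinearMap ∘ₗ
    { toFun := fun A : End ℚ_[ℓ] (Fin (n i) → ℚ_[ℓ]) =>
        LinearMap.single ℚ_[ℓ] (fun i => Fin (n i) → ℚ_[ℓ]) i ∘ₗ A ∘ₗ LinearMap.proj i
      map_add' := fun A B => by
        rw [LinearMap.add_comp, LinearMap.comp_add]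
      map_smul' := fun c A => by
        rw [LinearMap.smul_comp, LinearMap.comp_smul, RingHom.id_apply] } ∘ₗ
    (LinearMap.toMatrix').symm.toLinearMap

theorem sum_Fb {D : ℕ} (b : Basis (Fin D) ℚ_[ℓ] (∀ i, Fin (n i) → ℚ_[ℓ]))
    {X : End ℚ_[ℓ] (∀ i, Fin (n i) → ℚ_[ℓ])} (hX : ∀ x i, X x i = X (Pi.single i (x i)) i) :
    ∑ i, Fb b i (LinearMap.toMatrix' (blk (V := fun i => Fin (n i) → ℚ_[ℓ]) i X)) = mt b X := by
  have h1 : ∀ i, Fb b i (LinearMap.toMatrix' (blk (V := fun i => Fin (n i) → ℚ_[ℓ]) i X)) =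
      mt b (LinearMap.single ℚ_[ℓ] (fun i => Fin (n i) → ℚ_[ℓ]) i ∘ₗ
        blk (V := fun i => Fin (n i) → ℚ_[ℓ]) i X ∘ₗ LinearMap.proj i) := by
    intro i
    change mt b (LinearMap.single ℚ_[ℓ] (fun i => Fin (n i) → ℚ_[ℓ]) i ∘ₗ
      (LinearMap.toMatrix').symm (LinearMap.toMatrix' (blk (V := fun i => Fin (n i) → ℚ_[ℓ]) i X)) ∘ₗ
        LinearMap.proj i) = _
    rw [LinearEquiv.symm_apply_apply]
  rw [Finset.sum_congr rfl fun i _ => h1 i, ← map_sum]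
  congr 1
  refine LinearMap.ext fun x => ?_
  rw [LinearMap.sum_apply]
  funext j
  rw [Finset.sum_apply, Finset.sum_eq_single j]
  · change (Pi.single j (X (Pi.single j (x j)) j) : ∀ i, Fin (n i) → ℚ_[ℓ]) j = _
    rw [Pi.single_eq_same, ← hX]
  · intro i _ hi
    change (Pi.single i (X (Pi.single i (x i)) i) : ∀ i, Fin (n i) → ℚ_[ℓ]) j = _
    rw [Pi.single_eq_of_ne (Ne.symm hi)]
  · intro h
    exact absurd (Finset.mem_univ _) h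

theorem TV_of_tgt (ρ : ∀ i, Representation ℚ_[ℓ] Γ (Fin (n i) → ℚ_[ℓ])) {D : ℕ}
    (b : Basis (Fin D) ℚ_[ℓ] (∀ i, Fin (n i) → ℚ_[ℓ])) {X : End ℚ_[ℓ] (∀ i, Fin (n i) → ℚ_[ℓ])}
    (hX : ∀ x i, X x i = X (Pi.single i (x i)) i) (h : Tgt ρ X) : X ∈ TV b (sumRep ρ) := by
  obtain ⟨σ, hσ⟩ := h
  rw [mem_TV]
  refine ⟨σ, ?_⟩
  have h1 : Tendsto (fun m : ℕ => ∑ i, Fb b i (((ℓ : ℚ_[ℓ]) ^ m)⁻¹ •
      (LinearMap.toMatrix' (ρ i (σ m)) - 1))) atTop (𝓝 (∑ i, Fb b i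
      (LinearMap.toMatrix' (blk (V := fun i => Fin (n i) → ℚ_[ℓ]) i X)))) :=
    tendsto_finsetSum _ fun i _ =>
      ((LinearMap.continuous_of_finiteDimensional (Fb b i)).tendsto _).comp (hσ i)
  rw [sum_Fb b hX] at h1
  refine h1.congr fun m => ?_
  have h2 := sum_Fb b (X := sumRep ρ (σ m)) fun x i => by
    change ρ i (σ m) (x i) = ρ i (σ m) ((Pi.single i (x i) : ∀ i, Fin (n i) → ℚ_[ℓ]) i)
    rw [Pi.single_eq_same]
  have h3 := sum_Fb b (X := (1 : End ℚ_[ℓ] (∀ i, Fin (n i) → ℚ_[ℓ]))) fun x i => by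
    change x i = (Pi.single i (x i) : ∀ i, Fin (n i) → ℚ_[ℓ]) i
    rw [Pi.single_eq_same]
  have h4 : ∀ i, LinearMap.toMatrix' (blk (V := fun i => Fin (n i) → ℚ_[ℓ]) i
      (1 : End ℚ_[ℓ] (∀ i, Fin (n i) → ℚ_[ℓ]))) = 1 := by
    intro i
    have h3 : blk (V := fun i => Fin (n i) → ℚ_[ℓ]) i
        (1 : End ℚ_[ℓ] (∀ i, Fin (n i) → ℚ_[ℓ])) = 1 := by
      refine LinearMap.ext fun x => ?_
      rw [blk_apply, Module.End.one_apply, Module.End.one_apply, Pi.single_eq_same]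
    rw [h3, LinearMap.toMatrix'_one]
  simp only [blk_sumRep] at h2
  simp only [h4, map_one] at h3
  simp only [map_smul, map_sub]
  rw [← Finset.smul_sum, Finset.sum_sub_distrib, h2, h3]
  rfl

end tangent

end Pool.Agent.H50.FT
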