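import Pool.Agent.H50.FT.Place6
import Pool.Agent.H50.FT.TanF
import Pool.Agent.H50.FT.Rank
import Pool.Agent.R931.BD.Place

/-!
# From one prime to every prime
-/

set_option autoImplicit false

namespace Pool.Agent.H50.FT

open NumberField IsDedekindDomain Polynomial Module Topology Filter TensorProduct
  Pool.Agent.Y114.TF Pool.Agent.Y114.GF Pool.Agent.Y114.MU Pool.Agent.Y114.RM
  Pool.Agent.R931.IR Pool.Agent.H204R3.GP Pool.Agent.R913.Adj Pool.Agent.W569.FM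

section primes

/-- three primes with pure Frobenius elements -/
theorem three_primes {ι : Type} {n : ι → ℕ} {ℓ : ℕ} [hℓ : Fact ℓ.Prime]
    (ρ : Reps Gal(AlgebraicClosure ℚ/ℚ) n ℓ) (w : ι → ℤ) (S : Set (HeightOneSpectrum (𝓞 ℚ)))
    (hS : S.Finite) (P : HeightOneSpectrum (𝓞 ℚ) → ι → ℚ[X])
    (hP : ∀ v ∉ S, ¬ Above v ℓ → ∀ i, GoodReduction ρ i (w i) v (P v i)) :
    ∃ p : Fin 3 → ℕ, Function.Injective p ∧ (∀ t, (p t).Prime ∧ p t ≠ ℓ) ∧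
      ∀ t, ∃ σ, IsFrobeniusAt (p t) σ ∧ ∀ i, ∃ P : ℚ[X],
        (ρ i σ⁻¹).charpoly = P.map (algebraMap ℚ ℚ_[ℓ]) ∧
          ∀ a ∈ P.aroots ℂ, ‖a‖ ^ 2 = (p t : ℝ) ^ w i := by
  let T : Set ℕ := {p | p.Prime ∧ p ≠ ℓ ∧ ∀ v, Above v p → v ∉ S}
  have hTinf : T.Infinite := by
    have h1 : ({p : ℕ | p.Prime} \ ({ℓ} ∪ {p : ℕ | p.Prime ∧ ∃ v ∈ S, (p : 𝓞 ℚ) ∈ v.asIdeal})).Infinite :=
      Nat.infinite_setOfPred_prime.sdiff ((Set.finite_singleton ℓ).union (finite_below S hS))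
    refine h1.mono ?_
    rintro p ⟨hp, hp'⟩
    exact ⟨hp, fun h => hp' (Or.inl h), fun v hv hvS => hp' (Or.inr ⟨hp, v, hvS, hv⟩)⟩
  let f := hTinf.natEmbedding
  have hf : ∀ m, (f m : ℕ) ∈ T := fun m => (f m).2
  refine ⟨fun t => f (t : ℕ), fun a b hab => Fin.ext (f.injective (Subtype.ext hab)),
    fun t => ⟨(hf t).1, (hf t).2.1⟩, fun t => ?_⟩
  obtain ⟨hp, hpℓ, hpS⟩ := hf t
  set p : ℕ := (f (t : ℕ)).1 with hpdef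
  obtain ⟨v, hv⟩ := exists_above hp
  obtain ⟨Q, σ, hQ, hQv, hσ⟩ := Pool.Agent.W571.FM.frob_cm v
  have hq : q v = p := absNorm_eq hp hv
  refine ⟨σ, ⟨Q, hQ.isPrime, ?_, fun x => ?_⟩, fun i => ⟨P v i, ?_, ?_⟩⟩
  · apply Pool.Agent.W571.FM.natCast_mem_cm.1
    rw [hQv]
    exact hv
  · have h1 := hσ x
    rwa [absNorm_eq hp hv] at h1
  · exact ((hP v (hpS v hv) (notAbove_of_ne hp hℓ.out hpℓ hv) i).2 Q ⟨hQ.isPrime, hQv⟩ σ).2 hσ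
  · intro a ha
    have h1 := (hP v (hpS v hv) (notAbove_of_ne hp hℓ.out hpℓ hv) i).1 a ha
    rwa [hq] at h1

end primes

section restrict

variable {ι : Type} [Fintype ι] [DecidableEq ι] {n : ι → ℕ} {ℓ : ℕ} [hℓ : Fact ℓ.Prime]
  {Γ : Type} [Group Γ] {G : Type} [Group G]

theorem tate_restrict (ρ : Reps Γ n ℓ) (s : G →* Γ) {m : ℕ}
    {φ : Tensor ℚ_[ℓ] (∀ i, Fin (n i) → ℚ_[ℓ]) m} (h : TateTensor (sumRep ρ) φ) :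
    TateTensor (sumRep (restrictTo ρ s)) φ := by
  obtain ⟨Δ, hΔ, h1⟩ := h
  refine ⟨Δ.comap s, ⟨?_⟩, fun g hg v => ?_⟩
  · rw [Subgroup.index_comap]
    intro h0
    exact hΔ.index_ne_zero (Subgroup.index_eq_zero_of_relIndex_eq_zero h0)
  have h2 := h1 (s g) hg v
  rw [← map_inv] at h2
  exact h2

theorem motivic_restrict {ρ : Reps Γ n ℓ} (s : G →* Γ) {𝔤 : EndSpace n ℓ} (h : Motivic ρ 𝔤) :
    Motivic (restrictTo ρ s) 𝔤 where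
  bracket := IsMotivic.bracket h
  parts := IsMotivic.parts h
  nondeg := IsMotivic.nondeg h
  semisimple := IsMotivic.semisimple h
  algebraic := IsMotivic.algebraic h
  tate m φ hφ := tate_restrict ρ s (IsMotivic.tate h m φ hφ)

end restrict

section core

variable {ι : Type} [Fintype ι] [DecidableEq ι] {n : ι → ℕ} {ℓ : ℕ} [hℓ : Fact ℓ.Prime]
  {Γ : Type} [Group Γ] [TopologicalSpace Γ] [IsTopologicalGroup Γ] [CompactSpace Γ]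

/-- the centre is spanned by the weights, or the abelian part is known -/
def AbPart (ρ : ∀ i, Representation ℚ_[ℓ] Γ (Fin (n i) → ℚ_[ℓ])) (w : ι → ℤ)
    (𝔤 : Submodule ℚ_[ℓ] (End ℚ_[ℓ] (∀ i, Fin (n i) → ℚ_[ℓ]))) : Prop :=
  (∀ Z ∈ 𝔤, (∀ Y ∈ 𝔤, Y * Z = Z * Y) →
    ∃ c : ℚ_[ℓ], Z = c • weightOp (fun i => Fin (n i) → ℚ_[ℓ]) w) ∨
  ∀ X ∈ 𝔤, ∃ Y ∈ der1 𝔤, Tgt ρ (X - Y)

/-- four variables, in both cases -/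
theorem tate_four (ρ : ∀ i, Representation ℚ_[ℓ] Γ (Fin (n i) → ℚ_[ℓ]))
    (hρ : ∀ i, Continuous fun g => LinearMap.toMatrix' (ρ i g))
    {𝔤 : Submodule ℚ_[ℓ] (End ℚ_[ℓ] (∀ i, Fin (n i) → ℚ_[ℓ]))} (h𝔤 : IsMotivic ρ 𝔤)
    (hss : FiniteIndexSemisimple (sumRep ρ))
    (h4 : ∀ m ≤ 4, ∀ φ : Tensor ℚ_[ℓ] (∀ i, Fin (n i) → ℚ_[ℓ]) m, TateTensor (sumRep ρ) φ →
      ∀ X ∈ 𝔤, KillsTensor X φ) {w : ι → ℤ} {γ : Γ} (hγ : ActsPurely ρ w γ)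
    (hab : AbPart ρ w 𝔤) :
    ∀ (m : ℕ) (φ : Tensor ℚ_[ℓ] (∀ i, Fin (n i) → ℚ_[ℓ]) m), TateTensor (sumRep ρ) φ →
      ∀ X ∈ 𝔤, KillsTensor X φ := by
  intro m φ hφ X hX
  rcases hab with hcen | hab
  · exact tate_of_four ρ hρ h𝔤 hss h4 hγ hcen m φ hφ hX
  · refine tate_of_four_ab ρ hρ h𝔤 hss h4 (fun X hX => ?_) m φ hφ hX
    obtain ⟨Y, hY, hXY⟩ := hab X hX
    refine ⟨Y, hY, fun m φ hφ => ?_⟩
    refine TV_kills (finBasis ℚ_[ℓ] (∀ i, Fin (n i) → ℚ_[ℓ])) (sumRep ρ)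
      (TV_of_tgt ρ _ (h𝔤.parts _ (𝔤.sub_mem hX (der1_le h𝔤.bracket hY))) hXY) φ hφ

/-- the open image, in both cases -/
theorem open_image (ρ : ∀ i, Representation ℚ_[ℓ] Γ (Fin (n i) → ℚ_[ℓ]))
    (hρ : ∀ i, Continuous fun g => LinearMap.toMatrix' (ρ i g))
    {𝔤 : Submodule ℚ_[ℓ] (End ℚ_[ℓ] (∀ i, Fin (n i) → ℚ_[ℓ]))} (h𝔤 : IsMotivic ρ 𝔤)
    (hT : ∀ (m : ℕ) (φ : Tensor ℚ_[ℓ] (∀ i, Fin (n i) → ℚ_[ℓ]) m), TateTensor (sumRep ρ) φ →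
      ∀ X ∈ 𝔤, KillsTensor X φ)
    (s : GF ℚ →* Γ) (hs : Continuous s) (hfin : FiniteOrderFrom s ℓ) (w : ι → ℤ)
    (p : Fin 3 → ℕ) (hinj : Function.Injective p) (hp : ∀ t, (p t).Prime ∧ p t ≠ ℓ)
    (hgood : ∀ t, ∃ σ, IsFrobeniusAt (p t) σ ∧ ∀ i, ∃ P : ℚ[X],
      (ρ i (s σ⁻¹)).charpoly = P.map (algebraMap ℚ ℚ_[ℓ]) ∧
        ∀ a ∈ P.aroots ℂ, ‖a‖ ^ 2 = (p t : ℝ) ^ w i)
    (hab : AbPart ρ w 𝔤) {X : End ℚ_[ℓ] (∀ i, Fin (n i) → ℚ_[ℓ])} (hX : X ∈ 𝔤) : Tgt ρ X := by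
  refine tgt_of_TV ρ (finBasis ℚ_[ℓ] (∀ i, Fin (n i) → ℚ_[ℓ])) ?_
  rcases hab with hcen | hab
  · exact TV_eq ρ hρ _ h𝔤 hT s hs hfin w p hinj hp hgood hcen hX
  · refine TV_eq_ab ρ hρ _ h𝔤 hT s hs hfin w p hinj hp hgood (fun X hX => ?_) hX
    obtain ⟨Y, hY, hXY⟩ := hab X hX
    exact ⟨Y, hY, TV_of_tgt ρ _ (h𝔤.parts _ (𝔤.sub_mem hX (der1_le h𝔤.bracket hY))) hXY⟩

omit [TopologicalSpace Γ] [IsTopologicalGroup Γ] [CompactSpace Γ] in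
/-- if the image is open all Tate tensors are killed -/
theorem kills_of_open {ρ : ∀ i, Representation ℚ_[ℓ] Γ (Fin (n i) → ℚ_[ℓ])}
    {𝔤 : Submodule ℚ_[ℓ] (End ℚ_[ℓ] (∀ i, Fin (n i) → ℚ_[ℓ]))} (h𝔤 : IsMotivic ρ 𝔤)
    (h : ∀ X ∈ 𝔤, Tgt ρ X) (m : ℕ) (φ : Tensor ℚ_[ℓ] (∀ i, Fin (n i) → ℚ_[ℓ]) m)
    (hφ : TateTensor (sumRep ρ) φ) (X : End ℚ_[ℓ] (∀ i, Fin (n i) → ℚ_[ℓ])) (hX : X ∈ 𝔤) :
    KillsTensor X φ :=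
  TV_kills (finBasis ℚ_[ℓ] (∀ i, Fin (n i) → ℚ_[ℓ])) (sumRep ρ)
    (TV_of_tgt ρ _ (h𝔤.parts X hX) (h X hX)) φ hφ

end core

section rank

variable {ι : Type} [Fintype ι] [DecidableEq ι] {n : ι → ℕ} {ℓ : ℕ} [hℓ : Fact ℓ.Prime]
  {Γ : Type} [Group Γ]

theorem uncountable_padic : Uncountable ℚ_[ℓ] := by
  rw [← Cardinal.aleph0_lt_mk_iff]
  exact lt_of_lt_of_le Cardinal.aleph0_lt_continuum
    (continuum_le_cardinal_of_nontriviallyNormedField ℚ_[ℓ])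

/-- the rank gives a tangent vector with independent eigenvalues -/
theorem tangentIndep_of_rank {ρ : Reps Γ n ℓ}
    {𝔤 : Submodule ℚ_[ℓ] (End ℚ_[ℓ] (∀ i, Fin (n i) → ℚ_[ℓ]))} (h𝔤 : IsMotivic ρ 𝔤) {r : ℕ}
    (hr : RankAtLeast 𝔤 r) (h : ∀ X ∈ 𝔤, Tgt ρ X) : TangentIndep ρ r := by
  have : Uncountable ℚ_[ℓ] := uncountable_padic
  obtain ⟨X, hX, x, hx, hind⟩ := exists_indep_eig (PadicAlgCl ℓ) 𝔤 (IsMotivic.bracket h𝔤)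
    (IsMotivic.nondeg h𝔤) hr
  have h1 : ∀ j, ∃ i, aeval (x j) (blk (V := fun i => Fin (n i) → ℚ_[ℓ]) i X).charpoly = 0 :=
    fun j => exists_block (IsMotivic.parts h𝔤 X hX) (hx j)
  choose κ hκ using h1
  obtain ⟨σ, hσ⟩ := h X hX
  exact ⟨σ, fun i => blk (V := fun i => Fin (n i) → ℚ_[ℓ]) i X, κ, x, hσ, hκ, hind⟩

end rank

end Pool.Agent.H50.FT
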