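import Pool.Agent.H50.FT.Near6

/-!
# Tangent vectors with independent eigenvalues: places with independent Frobenius eigenvalues
-/

set_option autoImplicit false

namespace Pool.Agent.H50.FT

open NumberField IsDedekindDomain Polynomial Module Topology Filter Pool.Agent.Y114.TF
  Pool.Agent.Y114.GF Pool.Agent.Y114.MU Pool.Agent.Y114.RM Pool.Agent.R931.IR

variable {ℓ : ℕ} [hℓ : Fact ℓ.Prime]

/-- the relations in a finite set which are violated at `z` are violated near `z` -/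
theorem exists_radius' {r : ℕ} (z : Fin r → PadicAlgCl ℓ) (hz : ∀ k, z k ≠ 0)
    (E : Finset (Fin r → ℤ)) {M : ℕ} (hE : ∀ e ∈ E, (∏ k, z k ^ e k) ^ M ≠ 1) :
    ∃ ε : ℝ, 0 < ε ∧ ∀ y : Fin r → PadicAlgCl ℓ, (∀ k, ‖y k - z k‖ < ε) →
      ∀ e ∈ E, (∏ k, y k ^ e k) ^ M ≠ 1 := by
  have h1 : ∀ e ∈ E, ∀ᶠ y in 𝓝 z, (∏ k, y k ^ e k) ^ M ≠ 1 := by
    intro e he
    have hc : ContinuousAt (fun y : Fin r → PadicAlgCl ℓ => (∏ k, y k ^ e k) ^ M) z := by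
      apply ContinuousAt.pow
      apply tendsto_finsetProd
      intro k _
      exact ((continuous_apply k).continuousAt).zpow₀ (e k) (Or.inl (hz k))
    exact hc.eventually_ne (hE e he)
  have h2 : ∀ᶠ y in 𝓝 z, ∀ e ∈ E, (∏ k, y k ^ e k) ^ M ≠ 1 := by
    rw [Filter.eventually_all_finset]
    exact h1
  obtain ⟨ε, hε, h3⟩ := Metric.eventually_nhds_iff.1 h2
  refine ⟨ε, hε, fun y hy => h3 ?_⟩
  rw [dist_pi_lt_iff hε]
  intro k
  rw [dist_eq_norm]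
  exact hy k

/-- Near a group element which violates finitely many relations there are Frobenius elements which
violate them. -/
theorem exists_place' {F : Type} [Field F] [NumberField F] {ι : Type} {n : ι → ℕ}
    (ρ : Reps Gal(AlgebraicClosure F/F) n ℓ) (hρ : Conts ρ)
    (σ : Gal(AlgebraicClosure F/F)) {r : ℕ} (κ : Fin r → ι) (z : Fin r → PadicAlgCl ℓ)
    (hz : ∀ k, IsRootOf (ρ (κ k) σ).charpoly (z k)) (E : Finset (Fin r → ℤ)) {M : ℕ}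
    (hE : ∀ e ∈ E, (∏ k, z k ^ e k) ^ M ≠ 1) (T : Set (HeightOneSpectrum (𝓞 F))) (hT : T.Finite) :
    ∃ v, v ∉ T ∧ ∃ (Q : Ideal (𝓞 (AlgebraicClosure F))) (φ : Gal(AlgebraicClosure F/F)),
      PrimeOver Q v ∧ IsFrobAt Q (q v) φ ∧ ∃ y : Fin r → PadicAlgCl ℓ,
        (∀ k, IsRootOf (ρ (κ k) φ⁻¹).charpoly (y k)) ∧ ∀ e ∈ E, (∏ k, y k ^ e k) ^ M ≠ 1 := by
  have hz0 : ∀ k, z k ≠ 0 := fun k => root_ne_zero (A := ρ (κ k) σ) (B := ρ (κ k) σ⁻¹) (by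
    rw [← map_mul, mul_inv_cancel, map_one]) (hz k)
  obtain ⟨ε, hε, hrad⟩ := exists_radius' z hz0 E hE
  let O : Set Gal(AlgebraicClosure F/F) :=
    ⋂ k, {g | ‖aeval (z k) (ρ (κ k) g).charpoly‖ < ε ^ n (κ k)}
  have hO : IsOpen O := by
    apply isOpen_iInter_of_finite
    intro k
    exact isOpen_lt (continuous_eval (ρ (κ k)) (hρ (κ k)) (z k)) continuous_const
  have hσO : σ ∈ O := by
    refine Set.mem_iInter.2 fun k => ?_
    show ‖aeval (z k) (ρ (κ k) σ).charpoly‖ < ε ^ n (κ k)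
    have h1 : aeval (z k) (ρ (κ k) σ).charpoly = 0 := hz k
    rw [h1, norm_zero]
    positivity
  obtain ⟨v, hv, φ, ⟨Q, hQ, hQv, hφ⟩, hφO⟩ := Pool.Agent.Y405.ZO.t F O hO ⟨σ, hσO⟩ T hT
  refine ⟨v, hv, Q, φ, ⟨hQ.isPrime, hQv⟩, hφ, ?_⟩
  have h1 : ∀ k, ∃ y : PadicAlgCl ℓ, IsRootOf (ρ (κ k) φ⁻¹).charpoly y ∧ ‖y - z k‖ < ε := fun k =>
    exists_root_near _ (z k) hε (Set.mem_iInter.1 hφO k)
  choose y hy hyz using h1
  exact ⟨y, hy, hrad y hyz⟩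

/-- Some tangent vector `X` of the image of `ρ` has `r` eigenvalues which are linearly independent
over the integers. -/
def TangentIndep {G : Type} [Group G] {ι : Type} {n : ι → ℕ} (ρ : Reps G n ℓ) (r : ℕ) : Prop :=
  ∃ (σ : ℕ → G) (X : ∀ i, End ℚ_[ℓ] (Fin (n i) → ℚ_[ℓ])) (κ : Fin r → ι)
    (x : Fin r → PadicAlgCl ℓ),
    (∀ i, Tendsto (fun m : ℕ => ((ℓ : ℚ_[ℓ]) ^ m)⁻¹ • (LinearMap.toMatrix' (ρ i (σ m)) - 1)) atTop
      (𝓝 (LinearMap.toMatrix' (X i)))) ∧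
    (∀ k, IsRootOf (X (κ k)).charpoly (x k)) ∧
    ∀ e : Fin r → ℤ, ∑ k, (e k : PadicAlgCl ℓ) * x k = 0 → e = 0

theorem exists_violating {G : Type} [Group G] {ι : Type} {n : ι → ℕ} {ρ : Reps G n ℓ} {r : ℕ}
    (h : TangentIndep ρ r) :
    ∃ κ : Fin r → ι, ∀ (E : Finset (Fin r → ℤ)) (M : ℕ), (0 : Fin r → ℤ) ∉ E → 0 < M →
      ∃ (σ : G) (z : Fin r → PadicAlgCl ℓ), (∀ k, IsRootOf (ρ (κ k) σ).charpoly (z k)) ∧
        ∀ e ∈ E, (∏ k, z k ^ e k) ^ M ≠ 1 := by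
  obtain ⟨σ, X, κ, x, hσ, hx, hind⟩ := h
  refine ⟨κ, fun E M h0 hM => ?_⟩
  have hl : ∀ m : ℕ, (ℓ : ℚ_[ℓ]) ^ m ≠ 0 := fun m =>
    pow_ne_zero _ (by exact_mod_cast (Fact.out : ℓ.Prime).ne_zero)
  let A : ∀ i, ℕ → End ℚ_[ℓ] (Fin (n i) → ℚ_[ℓ]) := fun i m =>
    ((ℓ : ℚ_[ℓ]) ^ m)⁻¹ • (ρ i (σ m) - 1)
  have hA : ∀ i m, LinearMap.toMatrix' (A i m) =
      ((ℓ : ℚ_[ℓ]) ^ m)⁻¹ • (LinearMap.toMatrix' (ρ i (σ m)) - 1) := by
    intro i m
    change LinearMap.toMatrix' (((ℓ : ℚ_[ℓ]) ^ m)⁻¹ • (ρ i (σ m) - 1)) = _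
    rw [map_smul, map_sub, LinearMap.toMatrix'_one]
  have h1 : ∀ k, ∃ y : ℕ → PadicAlgCl ℓ, (∀ m, IsRootOf (A (κ k) m).charpoly (y m)) ∧
      Tendsto y atTop (𝓝 (x k)) := fun k => by
    refine exists_roots ?_ (hx k)
    have h2 := hσ (κ k)
    refine h2.congr fun m => (hA (κ k) m).symm
  choose y hy hyx using h1
  let z : Fin r → ℕ → PadicAlgCl ℓ := fun k m => 1 + (ℓ : PadicAlgCl ℓ) ^ m * y k m
  have hz : ∀ k m, IsRootOf (ρ (κ k) (σ m)).charpoly (z k m) := by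
    intro k m
    have h2 := root_shift (A (κ k) m) (ρ (κ k) (σ m)) ((ℓ : ℚ_[ℓ]) ^ m) (by
      rw [hA, smul_smul, mul_inv_cancel₀ (hl m), one_smul, add_sub_cancel]) (hy k m)
    rwa [map_pow, map_natCast] at h2
  have hDS : ∀ k, DS ℓ (z k) (x k) := by
    intro k
    refine (hyx k).congr fun m => ?_
    change y k m = ((ℓ : PadicAlgCl ℓ) ^ m)⁻¹ * (1 + (ℓ : PadicAlgCl ℓ) ^ m * y k m - 1)
    rw [add_sub_cancel_left, ← mul_assoc, inv_mul_cancel₀ (pow_ne_zero _ l_ne_om), one_mul]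
  have h3 : ∀ e ∈ E, ∀ᶠ m in atTop, (∏ k, z k m ^ e k) ^ M ≠ 1 := by
    intro e he
    refine (DS.prod fun k => (hDS k).zpow (e k)).ne_one ?_ hM
    intro hs
    apply h0
    rwa [← hind e hs]
  have h4 : ∀ᶠ m in atTop, ∀ e ∈ E, (∏ k, z k m ^ e k) ^ M ≠ 1 := by
    rw [Filter.eventually_all_finset]
    exact h3
  obtain ⟨m, hm⟩ := h4.exists
  exact ⟨σ m, fun k => z k m, fun k => hz k m, hm⟩

/-- A tangent vector with independent eigenvalues gives a group element with independent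
eigenvalues. -/
theorem exists_indep_of_tangent {ι : Type} [Fintype ι] {n : ι → ℕ}
    (ρ : Reps Gal(AlgebraicClosure ℚ/ℚ) n ℓ) (hρ : Conts ρ) (w : ι → ℤ) (c : ℕ)
    (S : Set (HeightOneSpectrum (𝓞 ℚ))) (hS : S.Finite)
    (P : HeightOneSpectrum (𝓞 ℚ) → ι → ℚ[X])
    (hP : ∀ v ∉ S, ∀ i, GoodReduction ρ i (w i) v (P v i) ∧ IntegralRoots c v (P v i))
    (r : ℕ) (ht : TangentIndep ρ r) :
    ∃ σ : Gal(AlgebraicClosure ℚ/ℚ), IndependentEigenvalues ρ σ r := by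
  obtain ⟨κ, hκ⟩ := exists_violating ht
  obtain ⟨σ, z, hz, hzE⟩ := hκ
    (exs (fun k => w (κ k)) (bd (fun k => w (κ k)) c (∑ i, n i)))
    ((2 * (∑ i, n i) ^ r).factorial) (zero_notMem_exs _ _) (Nat.factorial_pos _)
  obtain ⟨v, hv, Q, φ, hQ, hφ, y, hy, hyE⟩ := exists_place' ρ hρ σ κ z hz _ hzE S hS
  refine ⟨φ⁻¹, κ, y, hy, fun e he => ?_⟩
  obtain ⟨j⟩ := exists_emb ℓ
  obtain ⟨p, hp, hpv⟩ := exists_prime v
  have hq : q v = p := absNorm_eq hp hpv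
  have hroot : ∀ k, aeval (j (y k)) (P v (κ k)) = 0 := by
    intro k
    have h1 : (ρ (κ k) φ⁻¹).charpoly = (P v (κ k)).map (algebraMap ℚ ℚ_[ℓ]) :=
      ((hP v hv (κ k)).1.2 Q hQ φ).2 hφ
    have h2 : aeval (y k) (ρ (κ k) φ⁻¹).charpoly = 0 := hy k
    rw [h1, aeval_map_algebraMap] at h2
    have h3 := congrArg j.toRatAlgHom h2
    rw [map_zero, ← aeval_algHom_apply] at h3
    exact h3
  by_contra hne
  obtain ⟨e', he', hrel⟩ := relation_complex (fun k => w (κ k)) c (D := ∑ i, n i) hp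
    (fun k => P v (κ k)) (fun k => j (y k))
    (fun k => ⟨(good_poly (hP v hv (κ k)).1).1, by
      rw [(good_poly (hP v hv (κ k)).1).2]
      exact Finset.single_le_sum (f := n) (fun _ _ => Nat.zero_le _) (Finset.mem_univ _)⟩)
    (fun k b hb => by
      have h1 := (hP v hv (κ k)).1.1 b (by
        rw [mem_aroots]
        exact ⟨(good_poly (hP v hv (κ k)).1).1, hb⟩)
      rw [hq] at h1
      exact h1)
    (fun k b hb => by
      have h1 := (hP v hv (κ k)).2 b hb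
      rw [hq] at h1
      exact h1)
    hroot ⟨e, hne, by
      have h1 := congrArg j he
      rw [map_one, map_prod] at h1
      rw [← h1]
      exact Finset.prod_congr rfl fun k _ => by rw [map_zpow₀]⟩
  apply hyE e' he'
  apply j.injective
  rw [map_one, map_pow, map_prod, ← hrel]
  congr 1
  exact Finset.prod_congr rfl fun k _ => by rw [map_zpow₀]

end Pool.Agent.H50.FT
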