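import Pool.Agent.H50.FT.Wten
import Pool.Agent.H50.FT.Oproj

/-!
# The tensor attached to a space of endomorphisms
-/

set_option autoImplicit false

namespace Pool.Agent.H50.FT

open Module Pool.Agent.Y114.RM

variable {k : Type} [Field k] {V : Type} [AddCommGroup V] [Module k V] {d : ℕ}

/-- the matrix `f_a (t_b x_a)` -/
def pmat (t : Fin d → End k V) (v : Fin (d + d) → V × Dual k V) : Matrix (Fin d) (Fin d) k :=
  Matrix.of fun a c => (v (Fin.natAdd d a)).2 (t c (v (Fin.castAdd d a)).1)

theorem pmat_update_left (t : Fin d → End k V) (v : Fin (d + d) → V × Dual k V) (a : Fin d)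
    (z : V × Dual k V) : pmat t (Function.update v (Fin.castAdd d a) z) =
      (pmat t v).updateRow a fun c => (v (Fin.natAdd d a)).2 (t c z.1) := by
  have hne : ∀ i : Fin d, Fin.natAdd d i ≠ Fin.castAdd d a := fun i h => by
    have := congrArg Fin.val h
    rw [Fin.val_natAdd, Fin.val_castAdd] at this
    have := a.2
    omega
  ext i c
  by_cases hi : i = a
  · subst hi
    rw [Matrix.updateRow_self]
    unfold pmat
    rw [Matrix.of_apply, Function.update_self, Function.update_of_ne (hne i)]
  · rw [Matrix.updateRow_ne hi]
    unfold pmat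
    rw [Matrix.of_apply, Matrix.of_apply, Function.update_of_ne (hne i),
      Function.update_of_ne (fun h => hi (Fin.castAdd_injective _ _ h))]

theorem pmat_update_right (t : Fin d → End k V) (v : Fin (d + d) → V × Dual k V) (a : Fin d)
    (z : V × Dual k V) : pmat t (Function.update v (Fin.natAdd d a) z) =
      (pmat t v).updateRow a fun c => z.2 (t c (v (Fin.castAdd d a)).1) := by
  have hne : ∀ i : Fin d, Fin.castAdd d i ≠ Fin.natAdd d a := fun i h => by
    have := congrArg Fin.val h
    rw [Fin.val_natAdd, Fin.val_castAdd] at this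
    have := i.2
    omega
  ext i c
  by_cases hi : i = a
  · subst hi
    rw [Matrix.updateRow_self]
    unfold pmat
    rw [Matrix.of_apply, Function.update_self, Function.update_of_ne (hne i)]
  · rw [Matrix.updateRow_ne hi]
    unfold pmat
    rw [Matrix.of_apply, Matrix.of_apply, Function.update_of_ne (hne i),
      Function.update_of_ne (fun h => hi (Fin.natAdd_injective _ _ h))]

/-- the tensor -/
def PT (t : Fin d → End k V) : Tensor k V (d + d) where
  toFun v := Matrix.det (pmat t v)
  map_update_add' := by
    intro inst v l x y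
    have hi : inst = instDecidableEqFin _ := Subsingleton.elim _ _
    subst hi
    induction l using Fin.addCases with
    | left a =>
      rw [pmat_update_left, pmat_update_left, pmat_update_left, ← Matrix.det_updateRow_add]
      congr 2
      funext c
      rw [Prod.fst_add, map_add, map_add]
      rfl
    | right a =>
      rw [pmat_update_right, pmat_update_right, pmat_update_right, ← Matrix.det_updateRow_add]
      congr 2
  map_update_smul' := by
    intro inst v l c x
    have hi : inst = instDecidableEqFin _ := Subsingleton.elim _ _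
    subst hi
    induction l using Fin.addCases with
    | left a =>
      rw [pmat_update_left, pmat_update_left, smul_eq_mul, ← Matrix.det_updateRow_smul]
      congr 2
      funext e
      rw [Prod.smul_fst, map_smul, map_smul]
      rfl
    | right a =>
      rw [pmat_update_right, pmat_update_right, smul_eq_mul, ← Matrix.det_updateRow_smul]
      congr 2

theorem PT_apply (t : Fin d → End k V) (v : Fin (d + d) → V × Dual k V) :
    PT t v = Matrix.det (pmat t v) := rfl

theorem der_PT (t : Fin d → End k V) (X : End k V) (v : Fin (d + d) → V × Dual k V) :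
    der X (PT t) v = ∑ a, Matrix.det ((pmat t v).updateRow a fun c =>
      (v (Fin.natAdd d a)).2 ((t c * X - X * t c) (v (Fin.castAdd d a)).1)) := by
  unfold der
  rw [Fin.sum_univ_add, ← Finset.sum_add_distrib]
  refine Finset.sum_congr rfl fun a _ => ?_
  rw [PT_apply, PT_apply, pmat_update_left, pmat_update_right, ← Matrix.det_updateRow_add]
  congr 2
  funext c
  change (v (Fin.natAdd d a)).2 (t c (X (v (Fin.castAdd d a)).1)) +
    -((v (Fin.natAdd d a)).2 (X (t c (v (Fin.castAdd d a)).1))) = _
  rw [LinearMap.sub_apply, map_sub, Module.End.mul_apply, Module.End.mul_apply, sub_eq_add_neg]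

/-- the action of the group on the tensor -/
theorem PT_grp {t : Fin d → End k V} {g g' : End k V} {M : Matrix (Fin d) (Fin d) k}
    (hM : ∀ c, AdE g' g (t c) = ∑ e, M e c • t e) (v : Fin (d + d) → V × Dual k V) :
    PT t (fun l => grp g g' (v l)) = PT t v * M.det := by
  rw [PT_apply, PT_apply, ← Matrix.det_mul]
  congr 1
  ext a c
  rw [Matrix.mul_apply]
  unfold pmat
  rw [Matrix.of_apply]
  change (v (Fin.natAdd d a)).2 (g' (t c (g (v (Fin.castAdd d a)).1))) = _
  have h1 : g' (t c (g (v (Fin.castAdd d a)).1)) = AdE g' g (t c) (v (Fin.castAdd d a)).1 := rfl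
  rw [h1, hM, LinearMap.sum_apply, map_sum]
  refine Finset.sum_congr rfl fun e _ => ?_
  rw [LinearMap.smul_apply, map_smul, smul_eq_mul, Matrix.of_apply, mul_comm]

/-- the map `y ↦ (tr (y s_b))` -/
noncomputable def trA (s : Fin d → End k V) : End k V →ₗ[k] (Fin d → k) :=
  LinearMap.pi fun c => (LinearMap.trace k V) ∘ₗ LinearMap.mulRight k (s c)

theorem trA_apply (s : Fin d → End k V) (y : End k V) (c : Fin d) :
    trA s y c = LinearMap.trace k V (y * s c) := rfl

theorem trace_rk [FiniteDimensional k V] (x : V) (f : Dual k V) (S : End k V) :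
    LinearMap.trace k V (rk x f * S) = f (S x) := by
  have h1 : rk x f * S = rk x (S.dualMap f) := rk_mul S x f
  rw [h1]
  have h2 : rk x (S.dualMap f) = LinearMap.toSpanSingleton k V x ∘ₗ (S.dualMap f) := by
    refine LinearMap.ext fun y => ?_
    rfl
  rw [h2, LinearMap.trace_comp_comm']
  have h3 : (S.dualMap f) ∘ₗ LinearMap.toSpanSingleton k V x = (f (S x)) • LinearMap.id := by
    refine LinearMap.ext_ring ?_
    change f (S ((1 : k) • x)) = (f (S x)) • (1 : k)
    rw [one_smul, smul_eq_mul, mul_one]
  rw [h3, map_smul, LinearMap.trace_id]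
  simp

/-- the derivative, as a multilinear form in endomorphisms -/
noncomputable def HT (s s' : Fin d → End k V) :
    MultilinearMap k (fun _ : Fin d => End k V) k :=
  ∑ a, (Matrix.detRowAlternating (R := k) (n := Fin d)).toMultilinearMap.compLinearMap
    (Function.update (fun _ => trA s) a (trA s'))

theorem HT_apply (s s' : Fin d → End k V) (y : Fin d → End k V) :
    HT s s' y = ∑ a, Matrix.det ((Matrix.of fun i => trA s (y i)).updateRow a (trA s' (y a))) := by
  unfold HT
  rw [MultilinearMap.sum_apply]
  refine Finset.sum_congr rfl fun a _ => ?_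
  change Matrix.det (Matrix.of fun i => (Function.update (fun _ => trA s) a (trA s')) i (y i)) = _
  congr 1
  ext i c
  by_cases hi : i = a
  · subst hi
    rw [Matrix.updateRow_self, Matrix.of_apply, Function.update_self]
  · rw [Matrix.updateRow_ne hi, Matrix.of_apply, Matrix.of_apply, Function.update_of_ne hi]

/-- there is a basis of endomorphisms of rank one -/
theorem exists_rk_basis [FiniteDimensional k V] : ∃ (I : Type) (_ : Fintype I)
    (β : Basis I k (End k V)), ∀ i, ∃ x f, β i = rk x f := by
  classical
  let b := finBasis k V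
  refine ⟨Fin (finrank k V) × Fin (finrank k V), inferInstance,
    (Matrix.stdBasis k (Fin (finrank k V)) (Fin (finrank k V))).map
      (LinearMap.toMatrix b b).symm, ?_⟩
  rintro ⟨i, j⟩
  refine ⟨b i, b.coord j, ?_⟩
  rw [Basis.map_apply, Matrix.stdBasis_eq_single]
  refine b.ext fun l => ?_
  rw [LinearMap.toMatrix_symm, Matrix.toLin_self, rk_apply, Basis.coord_apply, Basis.repr_self,
    Finset.sum_eq_single i]
  · rw [Matrix.single_apply, Finsupp.single_apply]
    by_cases h : j = l
    · subst h
      simp
    · rw [if_neg (by rintro ⟨-, h2⟩; exact h h2), if_neg (fun h2 => h h2.symm)]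
  · intro p _ hp
    rw [Matrix.single_apply, if_neg (by rintro ⟨h2, -⟩; exact hp h2.symm), zero_smul]
  · intro h
    exact absurd (Finset.mem_univ _) h

theorem HT_zero [FiniteDimensional k V] {t : Fin d → End k V} {X : End k V}
    (h : KillsTensor X (PT t)) : HT t (fun c => t c * X - X * t c) = 0 := by
  obtain ⟨I, _, β, hβ⟩ := exists_rk_basis (k := k) (V := V)
  refine Basis.ext_multilinear (fun _ => β) fun v => ?_
  rw [MultilinearMap.zero_apply, HT_apply]
  choose x f hxf using hβ
  let w : Fin (d + d) → V × Dual k V :=
    Fin.append (fun a => (x (v a), 0)) fun a => (0, f (v a))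
  have h1 := h w
  change der X (PT t) w = 0 at h1
  rw [der_PT] at h1
  rw [← h1]
  refine Finset.sum_congr rfl fun a _ => ?_
  have hw1 : ∀ a, w (Fin.castAdd d a) = (x (v a), 0) := fun a => Fin.append_left _ _ a
  have hw2 : ∀ a, w (Fin.natAdd d a) = (0, f (v a)) := fun a => Fin.append_right _ _ a
  congr 2
  · ext i c
    unfold pmat
    rw [Matrix.of_apply, Matrix.of_apply, hw1, hw2, trA_apply, hxf, trace_rk]
  · funext c
    rw [hw1, hw2, trA_apply, hxf, trace_rk]

/-- if `X` kills the tensor of a basis of a space of endomorphisms, it normalizes the space -/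
theorem norm_of_kills [FiniteDimensional k V] {t : Fin d → End k V} (ht : LinearIndependent k t)
    {X : End k V} (h : KillsTensor X (PT t)) (c₀ : Fin d) :
    t c₀ * X - X * t c₀ ∈ Submodule.span k (Set.range t) := by
  classical
  by_contra hcon
  -- functionals are given by the trace form
  have hnd : ∀ Λ : Dual k (End k V), ∃ y : End k V, ∀ S, Λ S = LinearMap.trace k V (y * S) := by
    have hN : (trf k V).Nondegenerate := by
      have h0 : ∀ X : End k V, (∀ Y, trf k V X Y = 0) → X = 0 := by
        intro X hX
        refine LinearMap.ext fun x => ?_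
        rw [LinearMap.zero_apply, ← Module.forall_dual_apply_eq_zero_iff k]
        intro f
        rw [← trace_rk x f X, LinearMap.trace_mul_comm]
        exact hX _
      refine ⟨h0, fun X hX => h0 X fun Y => ?_⟩
      rw [trf_comm]
      exact hX Y
    intro Λ
    refine ⟨((trf k V).toDual hN).symm Λ, fun S => ?_⟩
    have h1 := LinearMap.BilinForm.apply_toDual_symm_apply (hB := hN) Λ S
    exact h1.symm
  obtain ⟨Λ, hΛ, hΛt⟩ := Submodule.exists_le_ker_of_notMem hcon
  obtain ⟨g, hg⟩ := hnd Λ
  have hgt : ∀ c, LinearMap.trace k V (g * t c) = 0 := fun c => by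
    rw [← hg]
    exact hΛt (Submodule.subset_span ⟨c, rfl⟩)
  have hdual : ∀ a, ∃ y : End k V, ∀ c, LinearMap.trace k V (y * t c) =
      (1 : Matrix (Fin d) (Fin d) k) a c := by
    intro a
    obtain ⟨Λa, hΛa⟩ := LinearMap.exists_extend ((Basis.span ht).coord a)
    obtain ⟨y, hy⟩ := hnd Λa
    refine ⟨y, fun c => ?_⟩
    rw [← hy]
    have h1 : t c = ((Basis.span ht) c : End k V) := by rw [Basis.span_apply]
    have h2 := LinearMap.congr_fun hΛa ((Basis.span ht) c)
    rw [LinearMap.comp_apply, Submodule.subtype_apply, ← h1, Basis.coord_apply, Basis.repr_self,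
      Finsupp.single_apply] at h2
    rw [h2, Matrix.one_apply]
    exact if_congr eq_comm rfl rfl
  choose y hy using hdual
  have h1 := congrArg (fun H => H (Function.update y c₀ g)) (HT_zero h)
  simp only [MultilinearMap.zero_apply] at h1
  rw [HT_apply] at h1
  have hrow : trA t ((Function.update y c₀ g) c₀) = 0 := by
    funext c
    rw [Function.update_self, trA_apply, hgt]
    rfl
  rw [Finset.sum_eq_single c₀] at h1
  · apply hΛ
    have h2 : (Matrix.of fun i => trA t ((Function.update y c₀ g) i)).updateRow c₀
        (trA (fun c => t c * X - X * t c) ((Function.update y c₀ g) c₀)) =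
        (1 : Matrix (Fin d) (Fin d) k).updateRow c₀ (fun c => Λ (t c * X - X * t c)) := by
      ext i c
      by_cases hi : i = c₀
      · subst hi
        rw [Matrix.updateRow_self, Matrix.updateRow_self, Function.update_self, trA_apply, hg]
      · rw [Matrix.updateRow_ne hi, Matrix.updateRow_ne hi, Matrix.of_apply,
          Function.update_of_ne hi, trA_apply, hy]
    rw [h2, det_updateRow_one] at h1
    exact h1
  · intro a _ ha
    refine Matrix.det_eq_zero_of_row_eq_zero c₀ fun c => ?_
    rw [Matrix.updateRow_ne (Ne.symm ha), Matrix.of_apply, hrow]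
    rfl
  · intro h5
    exact absurd (Finset.mem_univ _) h5

end Pool.Agent.H50.FT
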