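import Mathlib
import Pool.Agent.Y114.GF.Clifford
import Pool.Agent.Y114.TF.Defs

/-!
# Semisimplicity: direct sums, polarized representations
-/

set_option autoImplicit false

namespace Pool.Agent.H50.FT

open Module Pool.Agent.Y114.GF Pool.Agent.Y114.TF Pool.Agent.H204R3.GP

section semi

variable {k : Type} [Field k] {V : Type} [AddCommGroup V] [Module k V] [FiniteDimensional k V]
  {Γ : Type} [Group Γ] (ρ : Representation k Γ V)

/-- a representation is semisimple if every proper stable subspace `A` has a nonzero stable subspace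
`X` with `X ∩ A = 0` -/
theorem semi_of_exists {Δ : Subgroup Γ} (h : ∀ A : Submodule k V, Stab ρ Δ A → A ≠ ⊤ →
    ∃ X : Submodule k V, Stab ρ Δ X ∧ X ≠ ⊥ ∧ Disjoint A X) : Semi ρ Δ := by
  intro U hU
  obtain ⟨U', hU', hUU', hmax⟩ : ∃ U' : Submodule k V, Stab ρ Δ U' ∧ Disjoint U U' ∧
      ∀ U'' : Submodule k V, Stab ρ Δ U'' → Disjoint U U'' → finrank k U'' ≤ finrank k U' := by
    let S : Set ℕ := {d | ∃ U' : Submodule k V, Stab ρ Δ U' ∧ Disjoint U U' ∧ finrank k U' = d}
    have hS : S.Nonempty := ⟨0, ⊥, fun g _ u hu => by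
      rw [Submodule.mem_bot] at hu ⊢
      rw [hu, map_zero], disjoint_bot_right, finrank_bot k V⟩
    have hb : BddAbove S := ⟨finrank k V, by
      rintro d ⟨U', -, -, rfl⟩
      exact Submodule.finrank_le U'⟩
    obtain ⟨U', h1, h2, h3⟩ := Nat.sSup_mem hS hb
    exact ⟨U', h1, h2, fun U'' h4 h5 => by
      rw [h3]
      exact le_csSup hb ⟨U'', h4, h5, rfl⟩⟩
  refine ⟨U', hU', hUU', ?_⟩
  rw [codisjoint_iff]
  by_contra hne
  obtain ⟨X, hX, hX0, hXA⟩ := h (U ⊔ U') (hU.sup ρ hU') hne
  have h1 := hmax (U' ⊔ X) (hU'.sup ρ hX) (hUU'.disjoint_sup_right_of_disjoint_sup_left hXA)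
  have h2 : Disjoint U' X := hXA.mono_left le_sup_right
  have h3 := Submodule.finrank_sup_add_finrank_inf_eq U' X
  rw [h2.eq_bot, finrank_bot, add_zero] at h3
  have h4 : 0 < finrank k X := by
    rw [Nat.pos_iff_ne_zero]
    intro h0
    exact hX0 (Submodule.finrank_eq_zero.1 h0)
  omega

theorem finiteIndexSemisimple_of_semi [CharZero k] (h : Semi ρ ⊤) : FiniteIndexSemisimple ρ := by
  intro Δ hΔ U hU
  obtain ⟨U', hU', hc⟩ := semi_finiteIndex ρ h Δ U hU
  exact ⟨U', hU', hc⟩

variable {B : LinearMap.BilinForm k V}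

/-- the orthogonal complement of a stable subspace is stable -/
theorem stab_orthogonal (hsim : ∀ γ, ∃ c, ∀ x y, B (ρ γ x) (ρ γ y) = c * B x y)
    {A : Submodule k V} (hA : Stab ρ ⊤ A) : Stab ρ ⊤ (B.orthogonal A) := by
  intro γ _ x hx
  rw [LinearMap.BilinForm.mem_orthogonal_iff] at hx ⊢
  intro y hy
  obtain ⟨c, hc⟩ := hsim γ
  have h1 : ρ γ (ρ γ⁻¹ y) = y := rho_inv_mul ρ γ y
  change B y (ρ γ x) = 0
  rw [← h1, hc]
  have h2 : B (ρ γ⁻¹ y) x = 0 := hx _ (hA γ⁻¹ trivial y hy)
  rw [h2, mul_zero]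

/-- a polarized representation is semisimple if all isotropic stable subspaces have stable
complements -/
theorem semi_polarized (hB : B.Nondegenerate) (hrefl : B.IsRefl)
    (hsim : ∀ γ, ∃ c, ∀ x y, B (ρ γ x) (ρ γ y) = c * B x y)
    (hiso : ∀ W : Submodule k V, Stab ρ ⊤ W → W ≤ B.orthogonal W →
      ∃ W', Stab ρ ⊤ W' ∧ IsCompl W W') : Semi ρ ⊤ := by
  refine semi_of_exists ρ fun A hA hne => ?_
  have hperp := stab_orthogonal ρ hsim hA
  have hn0 : B.orthogonal A ≠ ⊥ := by
    intro h0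
    have h1 := LinearMap.BilinForm.finrank_orthogonal hB A
    rw [h0, finrank_bot] at h1
    have h2 := Submodule.finrank_lt hne
    omega
  obtain ⟨W, ⟨hW0, hW, hmin⟩, hWA⟩ := exists_min ρ ⊤ (B.orthogonal A) hperp hn0
  by_cases hWa : Disjoint A W
  · exact ⟨W, hW, hW0, hWa⟩
  · have h1 : W ≤ A := by
      rcases hmin (A ⊓ W) (hA.inf ρ hW) inf_le_right with h | h
      · exact absurd (disjoint_iff.2 h) hWa
      · exact inf_eq_right.1 h
    have h2 : W ≤ B.orthogonal W := fun x hx => by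
      rw [LinearMap.BilinForm.mem_orthogonal_iff]
      intro y hy
      exact (LinearMap.BilinForm.mem_orthogonal_iff.1 (hWA hx)) y (h1 hy)
    obtain ⟨W', hW', hc⟩ := hiso W hW h2
    refine ⟨B.orthogonal W', stab_orthogonal ρ hsim hW', ?_, ?_⟩
    · intro h0
      have h3 := LinearMap.BilinForm.finrank_orthogonal hB W'
      rw [h0, finrank_bot] at h3
      have h4 := Submodule.finrank_add_eq_of_isCompl hc
      have h5 : 0 < finrank k W := by
        rw [Nat.pos_iff_ne_zero]
        intro h0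
        exact hW0 (Submodule.finrank_eq_zero.1 h0)
      omega
    · rw [Submodule.disjoint_def]
      intro x hxA hx
      refine hB.2 x fun y => ?_
      have hy : y ∈ W ⊔ W' := by rw [hc.sup_eq_top]; trivial
      obtain ⟨a, ha, b, hb, rfl⟩ := Submodule.mem_sup.1 hy
      have h3 : B a x = 0 := hrefl _ _ ((LinearMap.BilinForm.mem_orthogonal_iff.1 (hWA ha)) x hxA)
      have h4 : B b x = 0 := (LinearMap.BilinForm.mem_orthogonal_iff.1 hx) b hb
      rw [map_add, LinearMap.add_apply, h3, h4, add_zero]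

end semi

section sum

variable {k : Type} [Field k] {ι : Type} [Fintype ι] [DecidableEq ι] {V : ι → Type}
  [∀ i, AddCommGroup (V i)] [∀ i, Module k (V i)] [∀ i, FiniteDimensional k (V i)] {Γ : Type}
  [Group Γ]

/-- direct sums of semisimple representations are semisimple -/
theorem semi_sumRep (ρ : ∀ i, Representation k Γ (V i)) (h : ∀ i, Semi (ρ i) ⊤) :
    Semi (sumRep ρ) ⊤ := by
  refine semi_of_exists (sumRep ρ) fun A hA hne => ?_
  have h1 : ∃ i, A.comap (LinearMap.single k V i) ≠ ⊤ := by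
    by_contra hcon
    push Not at hcon
    apply hne
    rw [eq_top_iff]
    intro x _
    have h2 : x = ∑ i, LinearMap.single k V i (x i) := by
      funext j
      rw [Finset.sum_apply]
      simp
    rw [h2]
    refine A.sum_mem fun i _ => ?_
    have h3 : x i ∈ A.comap (LinearMap.single k V i) := by rw [hcon i]; trivial
    exact h3
  obtain ⟨i, hi⟩ := h1
  have hst : ∀ γ (x : V i), sumRep ρ γ (LinearMap.single k V i x) =
      LinearMap.single k V i (ρ i γ x) := by
    intro γ x
    funext j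
    by_cases hj : j = i
    · subst hj
      change ρ j γ ((Pi.single j x : ∀ i, V i) j) = (Pi.single j (ρ j γ x) : ∀ i, V i) j
      rw [Pi.single_eq_same, Pi.single_eq_same]
    · change ρ j γ ((Pi.single i x : ∀ i, V i) j) = (Pi.single i (ρ i γ x) : ∀ i, V i) j
      rw [Pi.single_eq_of_ne hj, Pi.single_eq_of_ne hj, map_zero]
  obtain ⟨C, hC, hc⟩ := h i (A.comap (LinearMap.single k V i)) fun γ _ x hx => by
    rw [Submodule.mem_comap] at hx ⊢
    rw [← hst]
    exact hA γ trivial _ hx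
  refine ⟨C.map (LinearMap.single k V i), ?_, ?_, ?_⟩
  · rintro γ _ _ ⟨x, hx, rfl⟩
    rw [hst]
    exact ⟨_, hC γ trivial x hx, rfl⟩
  · intro h0
    apply hi
    have h2 : C = ⊥ := by
      rw [eq_bot_iff]
      intro x hx
      have h4 : LinearMap.single k V i x ∈ C.map (LinearMap.single k V i) := ⟨x, hx, rfl⟩
      rw [h0, Submodule.mem_bot] at h4
      have h5 : (Pi.single i x : ∀ i, V i) i = (0 : ∀ i, V i) i := congrFun h4 i
      rw [Pi.single_eq_same] at h5
      exact (Submodule.mem_bot k).2 h5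
    have h3 := hc.sup_eq_top
    rwa [h2, sup_bot_eq] at h3
  · rw [Submodule.disjoint_def]
    rintro _ hx ⟨x, hxC, rfl⟩
    have h2 := Submodule.disjoint_def.1 hc.disjoint x hx hxC
    rw [h2, map_zero]

end sum

end Pool.Agent.H50.FT
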