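import Pool.Agent.H50.FT.Two
import Pool.Agent.H50.FT.Wten
import Pool.Agent.H50.FT.Semi
import Pool.Agent.H50.FT.Char
import Pool.Agent.R913.Adj.Weight

/-!
# Semisimplicity from the Tate tensors in at most `dim V` variables
-/

set_option autoImplicit false

namespace Pool.Agent.H50.FT

open Module NumberField Polynomial Pool.Agent.Y114.RM Pool.Agent.Y114.TF Pool.Agent.Y114.GF
  Pool.Agent.H204R3.GP Pool.Agent.R913.Adj Pool.Agent Pool.Agent.W569.FM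

section char

variable {ℓ : ℕ} [hℓ : Fact ℓ.Prime] {Γ : Type} [Group Γ] [TopologicalSpace Γ]

/-- every continuous character of `Γ` whose restriction by `s` is of finite order is of finite
order -/
def FiniteOrderFrom {G : Type} [Group G] (s : G →* Γ) (ℓ : ℕ) [Fact ℓ.Prime] : Prop :=
  ∀ ψ : Γ →* ℚ_[ℓ]ˣ, Continuous ψ → (∃ m : ℕ, 0 < m ∧ ∀ g, ψ (s g) ^ m = 1) →
    ∃ m : ℕ, 0 < m ∧ ∀ γ, ψ γ ^ m = 1

/-- `σ` is an (arithmetic) Frobenius element at the prime number `p` -/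
def IsFrobeniusAt (p : ℕ) (σ : GF ℚ) : Prop :=
  ∃ Q : Ideal (OO ℚ), Q.IsPrime ∧ (p : OO ℚ) ∈ Q ∧ ∀ x : OO ℚ, σ • x - x ^ p ∈ Q

omit [TopologicalSpace Γ] in
theorem finiteIndex_of_finite_order (ψ : Γ →* ℚ_[ℓ]ˣ) {m : ℕ} (hm : 0 < m)
    (h : ∀ γ, ψ γ ^ m = 1) : ψ.ker.FiniteIndex := by
  have : NeZero m := ⟨hm.ne'⟩
  have h1 : ψ.range ≤ rootsOfUnity m ℚ_[ℓ] := by
    rintro _ ⟨γ, rfl⟩
    rw [mem_rootsOfUnity]
    exact h γ
  have h2 : Finite ψ.range := Finite.of_injective (Subgroup.inclusion h1)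
    (Subgroup.inclusion_injective h1)
  exact Subgroup.finiteIndex_ker ψ

end char

section stable

variable {ℓ : ℕ} [hℓ : Fact ℓ.Prime] {ι : Type} [Fintype ι] [DecidableEq ι] {n : ι → ℕ}
  {Γ : Type} [Group Γ] [TopologicalSpace Γ] [IsTopologicalGroup Γ]

theorem cont_apply {m : ℕ} {R : Representation ℚ_[ℓ] Γ (Fin m → ℚ_[ℓ])}
    (h : Continuous fun g => LinearMap.toMatrix' (R g)) (φ : Dual ℚ_[ℓ] (Fin m → ℚ_[ℓ]))
    (x : Fin m → ℚ_[ℓ]) : Continuous fun g => φ (R g x) := by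
  have h1 : (fun g => φ (R g x)) = fun g => φ ((LinearMap.toMatrix' (R g)).mulVec x) := by
    funext g
    rw [LinearMap.toMatrix'_mulVec]
  rw [h1]
  have h2 : Continuous φ := LinearMap.continuous_of_finiteDimensional φ
  exact h2.comp (h.matrix_mulVec continuous_const)

/-- the tensor of a stable subspace is a Tate tensor -/
theorem tate_TW (ρ : ∀ i, Representation ℚ_[ℓ] Γ (Fin (n i) → ℚ_[ℓ]))
    (hρ : ∀ i, Continuous fun g => LinearMap.toMatrix' (ρ i g)) (i : ι)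
    {B : LinearMap.BilinForm ℚ_[ℓ] (Fin (n i) → ℚ_[ℓ])} (hB : B.Nondegenerate)
    (hsim : ∀ γ, ∃ c, ∀ x y, B (ρ i γ x) (ρ i γ y) = c * B x y)
    (s : GF ℚ →* Γ) (hs : Continuous s) (hfin : FiniteOrderFrom s ℓ) (w : ι → ℤ)
    (p : Fin 3 → ℕ) (hinj : Function.Injective p) (hp : ∀ t, (p t).Prime ∧ p t ≠ ℓ)
    (hgood : ∀ t, ∃ σ, IsFrobeniusAt (p t) σ ∧ ∃ P : ℚ[X],
      (ρ i (s σ⁻¹)).charpoly = P.map (algebraMap ℚ ℚ_[ℓ]) ∧
        ∀ a ∈ P.aroots ℂ, ‖a‖ ^ 2 = (p t : ℝ) ^ w i)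
    {W : Submodule ℚ_[ℓ] (Fin (n i) → ℚ_[ℓ])} (hW : Stab (ρ i) ⊤ W) (hW0 : W ≠ ⊥)
    (b : Basis (Fin (finrank ℚ_[ℓ] W)) ℚ_[ℓ] W) :
    TateTensor (sumRep ρ) (TW (B.compl₁₂ (LinearMap.proj i : (∀ i, Fin (n i) → ℚ_[ℓ]) →ₗ[ℚ_[ℓ]] _)
      (LinearMap.proj i : (∀ i, Fin (n i) → ℚ_[ℓ]) →ₗ[ℚ_[ℓ]] _))
      fun a => LinearMap.single ℚ_[ℓ] (fun i => Fin (n i) → ℚ_[ℓ]) i (b a)) := by
  classical
  have hW' : ∀ g, W ≤ W.comap (ρ i g) := fun g x hx => hW g trivial x hx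
  obtain ⟨μ, ψ, hψc, hμ, hμ0, hψ, hpure⟩ :=
    exists_psi (ρ i) (fun φ x => cont_apply (hρ i) φ x) hB hsim W hW' hW0
  obtain ⟨j, -⟩ := Pool.Agent.Y115.R.exists_j ℓ ℚ_[ℓ] ℚ (algebraMap ℚ ℚ_[ℓ]) (algebraMap ℚ ℂ)
  choose σ hσ P hP hroots using hgood
  choose Q hQ hpQ hσQ using hσ
  have hpos : ∀ t, (0 : ℝ) < (p t : ℝ) ^ w i := fun t =>
    zpow_pos (by exact_mod_cast (hp t).1.pos) _
  have hinv : ∀ t, (ψ (s (σ t)) : ℚ_[ℓ]) = (ψ (s (σ t)⁻¹) : ℚ_[ℓ])⁻¹ := by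
    intro t
    rw [map_inv, map_inv, Units.val_inv_eq_inv_val, inv_inv]
  obtain ⟨N, hN, hNψ⟩ := finite_order (ψ.comp s) (hψc.comp hs) j p (fun t => (hp t).1) hinj
    (fun t => (hp t).2) Q hQ hpQ σ (fun t => hσQ t)
    (fun t => by
      rw [MonoidHom.comp_apply, hinv]
      exact ((hpure j _ _ _ (hpos t) (hP t) (hroots t)).1).inv)
    (by
      rw [MonoidHom.comp_apply, hinv, map_inv₀, norm_inv,
        (hpure j _ _ _ (hpos 0) (hP 0) (hroots 0)).2, inv_one])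
  obtain ⟨m, hm, hmψ⟩ := hfin ψ hψc ⟨N, hN, hNψ⟩
  refine ⟨ψ.ker, finiteIndex_of_finite_order ψ hm hmψ, fun γ hγ v => ?_⟩
  have hmulinv : ∀ x, ρ i γ (ρ i γ⁻¹ x) = x := fun x => rho_inv_mul (ρ i) γ x
  have h1 := TW_grp (B := B.compl₁₂ (LinearMap.proj i : (∀ i, Fin (n i) → ℚ_[ℓ]) →ₗ[ℚ_[ℓ]] _)
      (LinearMap.proj i : (∀ i, Fin (n i) → ℚ_[ℓ]) →ₗ[ℚ_[ℓ]] _))
      (w := fun a => LinearMap.single ℚ_[ℓ] (fun i => Fin (n i) → ℚ_[ℓ]) i (b a))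
      (g := sumRep ρ γ) (g' := sumRep ρ γ⁻¹) (μ := μ γ) (fun x y => by
        change B (ρ i γ (x i)) (y i) = μ γ * B (x i) (ρ i γ⁻¹ (y i))
        rw [← hμ, hmulinv])
      (M := LinearMap.toMatrix b b ((ρ i γ⁻¹).restrict (hW' γ⁻¹))) (fun a => by
        have h2 : ρ i γ⁻¹ (b a : Fin (n i) → ℚ_[ℓ]) =
            ∑ c, LinearMap.toMatrix b b ((ρ i γ⁻¹).restrict (hW' γ⁻¹)) c a •
              (b c : Fin (n i) → ℚ_[ℓ]) := by
          have h3 := b.sum_repr ((ρ i γ⁻¹).restrict (hW' γ⁻¹) (b a))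
          have h4 := congrArg (Subtype.val) h3
          rw [Submodule.coe_sum] at h4
          refine h4.symm.trans ?_
          refine Finset.sum_congr rfl fun c _ => ?_
          rw [LinearMap.toMatrix_apply]
          rfl
        have h5 : sumRep ρ γ⁻¹ (LinearMap.single ℚ_[ℓ] (fun i => Fin (n i) → ℚ_[ℓ]) i (b a)) =
            LinearMap.single ℚ_[ℓ] (fun i => Fin (n i) → ℚ_[ℓ]) i (ρ i γ⁻¹ (b a)) := by
          funext l
          by_cases hl : l = i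
          · subst hl
            change ρ l γ⁻¹ ((Pi.single l (b a : Fin (n l) → ℚ_[ℓ]) : ∀ i, Fin (n i) → ℚ_[ℓ]) l) =
              (Pi.single l (ρ l γ⁻¹ (b a)) : ∀ i, Fin (n i) → ℚ_[ℓ]) l
            rw [Pi.single_eq_same, Pi.single_eq_same]
          · change ρ l γ⁻¹ ((Pi.single i (b a : Fin (n i) → ℚ_[ℓ]) : ∀ i, Fin (n i) → ℚ_[ℓ]) l) =
              (Pi.single i (ρ i γ⁻¹ (b a)) : ∀ i, Fin (n i) → ℚ_[ℓ]) l
            rw [Pi.single_eq_of_ne hl, Pi.single_eq_of_ne hl, map_zero]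
        rw [h5, h2, map_sum]
        refine Finset.sum_congr rfl fun c _ => ?_
        rw [map_smul]) v
  rw [h1, LinearMap.det_toMatrix]
  have h6 := hψ γ⁻¹
  have h7 : ψ γ⁻¹ = 1 := by rw [map_inv, (MonoidHom.mem_ker).1 hγ, inv_one]
  rw [h7, Units.val_one, one_mul] at h6
  rw [← h6, ← mul_pow]
  have h8 : μ γ * μ γ⁻¹ = 1 := by
    obtain ⟨x₀, hx₀W, hx₀⟩ := W.ne_bot_iff.1 hW0
    obtain ⟨y₀, hxy⟩ : ∃ y, B x₀ y ≠ 0 := by
      by_contra hcon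
      push Not at hcon
      exact hx₀ (hB.1 x₀ hcon)
    apply mul_right_cancel₀ hxy
    rw [mul_assoc, ← hμ γ⁻¹, ← hμ γ, hmulinv, hmulinv, one_mul]
  rw [h8, one_pow, one_mul]

/-- a subspace whose tensor is killed by `𝔤` is stable under `𝔤` -/
theorem stable_of_kills (i : ι)
    {B : LinearMap.BilinForm ℚ_[ℓ] (Fin (n i) → ℚ_[ℓ])} (hB : B.Nondegenerate)
    {W : Submodule ℚ_[ℓ] (Fin (n i) → ℚ_[ℓ])}
    (b : Basis (Fin (finrank ℚ_[ℓ] W)) ℚ_[ℓ] W) {Y : End ℚ_[ℓ] (∀ i, Fin (n i) → ℚ_[ℓ])}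
    (h : KillsTensor Y (TW (B.compl₁₂ (LinearMap.proj i : (∀ i, Fin (n i) → ℚ_[ℓ]) →ₗ[ℚ_[ℓ]] _)
      (LinearMap.proj i : (∀ i, Fin (n i) → ℚ_[ℓ]) →ₗ[ℚ_[ℓ]] _))
      fun a => LinearMap.single ℚ_[ℓ] (fun i => Fin (n i) → ℚ_[ℓ]) i (b a))) :
    ∀ x ∈ W.map (LinearMap.single ℚ_[ℓ] (fun i => Fin (n i) → ℚ_[ℓ]) i),
      Y x ∈ W.map (LinearMap.single ℚ_[ℓ] (fun i => Fin (n i) → ℚ_[ℓ]) i) := by
  classical
  choose f hf using fun a => LinearMap.exists_extend (b.coord a)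
  have hf' : ∀ a c, f a (b c : Fin (n i) → ℚ_[ℓ]) =
      (1 : Matrix (Fin (finrank ℚ_[ℓ] W)) (Fin (finrank ℚ_[ℓ] W)) ℚ_[ℓ]) a c := by
    intro a c
    have h1 := LinearMap.congr_fun (hf a) (b c)
    rw [LinearMap.comp_apply, Submodule.subtype_apply, Basis.coord_apply, Basis.repr_self,
      Finsupp.single_apply] at h1
    rw [h1, Matrix.one_apply]
    exact if_congr eq_comm rfl rfl
  have hspan : Submodule.span ℚ_[ℓ] (Set.range fun a =>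
      LinearMap.single ℚ_[ℓ] (fun i => Fin (n i) → ℚ_[ℓ]) i (b a)) =
      W.map (LinearMap.single ℚ_[ℓ] (fun i => Fin (n i) → ℚ_[ℓ]) i) := by
    have h1 : Submodule.span ℚ_[ℓ] (Set.range fun a => (b a : Fin (n i) → ℚ_[ℓ])) = W := by
      have h2 := congrArg (Submodule.map W.subtype) b.span_eq
      rw [Submodule.map_span, Submodule.map_top, Submodule.range_subtype, ← Set.range_comp] at h2
      exact h2
    conv_rhs => rw [← h1, Submodule.map_span, ← Set.range_comp]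
    rfl
  have key : ∀ c, Y (LinearMap.single ℚ_[ℓ] (fun i => Fin (n i) → ℚ_[ℓ]) i (b c)) ∈
      W.map (LinearMap.single ℚ_[ℓ] (fun i => Fin (n i) → ℚ_[ℓ]) i) := by
    intro c
    rw [← hspan]
    refine mem_span_of_kills (fun a => f a ∘ₗ LinearMap.proj i) (fun a c => ?_)
      (fun a => LinearMap.single ℚ_[ℓ] (fun i => Fin (n i) → ℚ_[ℓ]) i ((B.toDual hB).symm (f a)))
      (fun a c => ?_) h c
    · change f a ((Pi.single i (b c : Fin (n i) → ℚ_[ℓ]) : ∀ i, Fin (n i) → ℚ_[ℓ]) i) = _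
      rw [Pi.single_eq_same, hf']
    · change B ((Pi.single i ((B.toDual hB).symm (f a)) : ∀ i, Fin (n i) → ℚ_[ℓ]) i)
        ((Pi.single i (b c : Fin (n i) → ℚ_[ℓ]) : ∀ i, Fin (n i) → ℚ_[ℓ]) i) = _
      rw [Pi.single_eq_same, Pi.single_eq_same, LinearMap.BilinForm.apply_toDual_symm_apply, hf']
  intro x hx
  rw [← hspan] at hx
  induction hx using Submodule.span_induction with
  | mem x hx =>
    obtain ⟨c, rfl⟩ := hx
    exact key c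
  | zero =>
    rw [map_zero]
    exact Submodule.zero_mem _
  | add a b _ _ ha hb =>
    rw [map_add]
    exact Submodule.add_mem _ ha hb
  | smul c a _ ha =>
    rw [map_smul]
    exact Submodule.smul_mem _ c ha

/-- isotropic stable subspaces have stable complements -/
theorem iso_compl (ρ : ∀ i, Representation ℚ_[ℓ] Γ (Fin (n i) → ℚ_[ℓ]))
    (hρ : ∀ i, Continuous fun g => LinearMap.toMatrix' (ρ i g))
    {𝔤 : Submodule ℚ_[ℓ] (End ℚ_[ℓ] (∀ i, Fin (n i) → ℚ_[ℓ]))} (h𝔤 : IsMotivic ρ 𝔤) (i : ι)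
    {B : LinearMap.BilinForm ℚ_[ℓ] (Fin (n i) → ℚ_[ℓ])} (hB : B.Nondegenerate)
    (hsim : ∀ γ, ∃ c, ∀ x y, B (ρ i γ x) (ρ i γ y) = c * B x y)
    (s : GF ℚ →* Γ) (hs : Continuous s) (hfin : FiniteOrderFrom s ℓ) (w : ι → ℤ)
    (p : Fin 3 → ℕ) (hinj : Function.Injective p) (hp : ∀ t, (p t).Prime ∧ p t ≠ ℓ)
    (hgood : ∀ t, ∃ σ, IsFrobeniusAt (p t) σ ∧ ∃ P : ℚ[X],
      (ρ i (s σ⁻¹)).charpoly = P.map (algebraMap ℚ ℚ_[ℓ]) ∧
        ∀ a ∈ P.aroots ℂ, ‖a‖ ^ 2 = (p t : ℝ) ^ w i)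
    {N : ℕ} (hN : n i ≤ N)
    (hT : ∀ m ≤ N, ∀ φ : Tensor ℚ_[ℓ] (∀ i, Fin (n i) → ℚ_[ℓ]) m, TateTensor (sumRep ρ) φ →
      ∀ X ∈ 𝔤, KillsTensor X φ)
    {W : Submodule ℚ_[ℓ] (Fin (n i) → ℚ_[ℓ])} (hW : Stab (ρ i) ⊤ W) (hiso : W ≤ B.orthogonal W) :
    ∃ W', Stab (ρ i) ⊤ W' ∧ IsCompl W W' := by
  classical
  by_cases hW0 : W = ⊥
  · subst hW0
    exact ⟨⊤, fun _ _ _ _ => trivial, isCompl_bot_top⟩
  have hdim : finrank ℚ_[ℓ] W + finrank ℚ_[ℓ] W ≤ N := by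
    have h1 := LinearMap.BilinForm.finrank_orthogonal hB W
    have h2 := Submodule.finrank_mono hiso
    have h3 := Submodule.finrank_le W
    rw [Module.finrank_fin_fun] at h1 h3
    omega
  let b := finBasis ℚ_[ℓ] W
  have hkill := hT _ hdim _ (tate_TW ρ hρ i hB hsim s hs hfin w p hinj hp hgood hW hW0 b)
  obtain ⟨U', hU', hc⟩ := h𝔤.semisimple (W.map (LinearMap.single ℚ_[ℓ] (fun i => Fin (n i) → ℚ_[ℓ]) i))
    (fun Y hY x hx => stable_of_kills i hB b (hkill Y hY) x hx)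
  set P := Submodule.projection _ U' hc with hP
  have hPc : ∀ Y ∈ 𝔤, Y * P = P * Y := by
    intro Y hY
    refine LinearMap.ext fun x => ?_
    have h1 : x - P x ∈ U' := by
      refine (Submodule.projection_apply_eq_zero_iff hc).1 ?_
      rw [map_sub, ← hP, hP, Submodule.projection_apply_of_mem_left hc
        (Submodule.projection_apply_mem hc x), sub_self]
    have h2 : P (Y (x - P x)) = 0 :=
      (Submodule.projection_apply_eq_zero_iff hc).2 (hU' Y hY _ h1)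
    have h3 : P (Y (P x)) = Y (P x) := Submodule.projection_apply_of_mem_left hc
      (stable_of_kills i hB b (hkill Y hY) _ (Submodule.projection_apply_mem hc x))
    rw [Module.End.mul_apply, Module.End.mul_apply, ← h3]
    rw [map_sub, map_sub, sub_eq_zero] at h2
    exact h2.symm
  obtain ⟨Δ', hΔ', hcΔ⟩ := comm_of_tate_E2 (sumRep ρ)
    (h𝔤.tate 2 (E2 P) fun Y hY => kills_E2.2 (hPc Y hY))
  let S : (Fin (n i) → ℚ_[ℓ]) →ₗ[ℚ_[ℓ]] (∀ i, Fin (n i) → ℚ_[ℓ]) :=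
    LinearMap.single ℚ_[ℓ] (fun i => Fin (n i) → ℚ_[ℓ]) i
  have hSi : ∀ x, S x i = x := fun x => Pi.single_eq_same _ _
  have hmem : ∀ x, P (S x) ∈ W.map S := fun x => Submodule.projection_apply_mem hc _
  refine Pool.Agent.Y41.RM.exists_compl_of_commute (ρ i) ⊤ Δ' hΔ' W hW
    (LinearMap.proj i ∘ₗ P ∘ₗ S) (fun x => ?_) (fun u hu => ?_) fun g hg => ?_
  · obtain ⟨y, hy, hyx⟩ := hmem x
    change (P (S x)) i ∈ W
    rw [← hyx, hSi]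
    exact hy
  · have h1 : P (S u) = S u := Submodule.projection_apply_of_mem_left hc ⟨u, hu, rfl⟩
    change (P (S u)) i = u
    rw [h1, hSi]
  · refine LinearMap.ext fun x => ?_
    have h1 : sumRep ρ g (S x) = S (ρ i g x) := by
      funext l
      by_cases hl : l = i
      · subst hl
        change ρ l g ((Pi.single l x : ∀ i, Fin (n i) → ℚ_[ℓ]) l) =
          (Pi.single l (ρ l g x) : ∀ i, Fin (n i) → ℚ_[ℓ]) l
        rw [Pi.single_eq_same, Pi.single_eq_same]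
      · change ρ l g ((Pi.single i x : ∀ i, Fin (n i) → ℚ_[ℓ]) l) =
          (Pi.single i (ρ i g x) : ∀ i, Fin (n i) → ℚ_[ℓ]) l
        rw [Pi.single_eq_of_ne hl, Pi.single_eq_of_ne hl, map_zero]
    have h2 := LinearMap.congr_fun (hcΔ g hg) (S x)
    rw [Module.End.mul_apply, Module.End.mul_apply, h1] at h2
    change (P (S (ρ i g x))) i = ρ i g ((P (S x)) i)
    rw [h2]
    rfl

/-- **Semisimplicity from the Tate tensors in at most `dim V` variables.** -/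
theorem semisimple_of_tensors (ρ : ∀ i, Representation ℚ_[ℓ] Γ (Fin (n i) → ℚ_[ℓ]))
    (hρ : ∀ i, Continuous fun g => LinearMap.toMatrix' (ρ i g))
    {𝔤 : Submodule ℚ_[ℓ] (End ℚ_[ℓ] (∀ i, Fin (n i) → ℚ_[ℓ]))} (h𝔤 : IsMotivic ρ 𝔤)
    (hpol : ∀ i, ∃ B : LinearMap.BilinForm ℚ_[ℓ] (Fin (n i) → ℚ_[ℓ]), B.Nondegenerate ∧ B.IsRefl ∧
      ∀ γ, ∃ c, ∀ x y, B (ρ i γ x) (ρ i γ y) = c * B x y)
    (s : GF ℚ →* Γ) (hs : Continuous s) (hfin : FiniteOrderFrom s ℓ) (w : ι → ℤ)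
    (p : Fin 3 → ℕ) (hinj : Function.Injective p) (hp : ∀ t, (p t).Prime ∧ p t ≠ ℓ)
    (hgood : ∀ i t, ∃ σ, IsFrobeniusAt (p t) σ ∧ ∃ P : ℚ[X],
      (ρ i (s σ⁻¹)).charpoly = P.map (algebraMap ℚ ℚ_[ℓ]) ∧
        ∀ a ∈ P.aroots ℂ, ‖a‖ ^ 2 = (p t : ℝ) ^ w i)
    {N : ℕ} (hN : ∀ i, n i ≤ N)
    (hT : ∀ m ≤ N, ∀ φ : Tensor ℚ_[ℓ] (∀ i, Fin (n i) → ℚ_[ℓ]) m, TateTensor (sumRep ρ) φ →
      ∀ X ∈ 𝔤, KillsTensor X φ) : FiniteIndexSemisimple (sumRep ρ) := by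
  refine finiteIndexSemisimple_of_semi (sumRep ρ) (semi_sumRep ρ fun i => ?_)
  obtain ⟨B, hB, hrefl, hsim⟩ := hpol i
  exact semi_polarized (ρ i) hB hrefl hsim fun W hW hiso =>
    iso_compl ρ hρ h𝔤 i hB hsim s hs hfin w p hinj hp (hgood i) (hN i) hT hW hiso

end stable

end Pool.Agent.H50.FT
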