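import Pool.Agent.H50.FT.TanT
import Pool.Agent.H50.FT.Perp
import Pool.Agent.H50.FT.Detf

/-!
# The tangent space of the image, if all Tate tensors are killed by the Lie algebra
-/

set_option autoImplicit false

namespace Pool.Agent.H50.FT

open Module NumberField Polynomial Topology Filter Pool.Agent.Y114.RM Pool.Agent.Y114.TF
  Pool.Agent.Y114.GF Pool.Agent.H204R3.GP Pool.Agent.R913.Adj Pool.Agent Pool.Agent.W569.FM
  Pool.Agent.Y708.ZO Pool.Agent.Y142.ZO Pool.Agent.Y497.ZO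

section lin

variable {k : Type} [Field k] {V : Type} [AddCommGroup V] [Module k V] [FiniteDimensional k V]

theorem exists_fin_basis (T : Submodule k (End k V)) : ∃ d : ℕ, Nonempty (Basis (Fin d) k T) :=
  ⟨finrank k T, ⟨finBasis k T⟩⟩

theorem norm_ideal {T : Submodule k (End k V)} {d : ℕ} (β : Basis (Fin d) k T) {Y : End k V}
    (h : KillsTensor Y (PT fun a => (β a : End k V))) {Z : End k V} (hZ : Z ∈ T) :
    Z * Y - Y * Z ∈ T := by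
  have h2 : LinearIndependent k fun a => (β a : End k V) :=
    β.linearIndependent.map' T.subtype (Submodule.ker_subtype T)
  have h3 := norm_of_kills h2 h
  have h4 : ∀ c, (β c : End k V) * Y - Y * β c ∈ T := by
    intro c
    refine (Submodule.span_le.2 ?_) (h3 c)
    rintro _ ⟨a, rfl⟩
    exact (β a).2
  have h5 : (LinearMap.mulRight k Y - LinearMap.mulLeft k Y) Z ∈ T := by
    have h6 : Z = ∑ c, β.repr ⟨Z, hZ⟩ c • (β c : End k V) := by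
      have h7 := congrArg Subtype.val (β.sum_repr ⟨Z, hZ⟩)
      rw [Submodule.coe_sum] at h7
      exact h7.symm
    rw [h6, map_sum]
    refine T.sum_mem fun c _ => ?_
    rw [map_smul]
    exact T.smul_mem _ (h4 c)
  exact h5

end lin

section comm

variable {ℓ : ℕ} [hℓ : Fact ℓ.Prime] {ι : Type} [Fintype ι] [DecidableEq ι] {n : ι → ℕ}
  {Γ : Type} [Group Γ] [TopologicalSpace Γ] [IsTopologicalGroup Γ] [CompactSpace Γ]

theorem finiteIndex_of_open {U : Subgroup Γ} (hU : IsOpen (U : Set Γ)) : U.FiniteIndex := by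
  have := Subgroup.quotient_finite_of_isOpen U hU
  exact Subgroup.finiteIndex_of_finite_quotient

/-- what commutes with the tangent vectors is a Tate tensor -/
theorem tate_of_comm_tangent (ρ : ∀ i, Representation ℚ_[ℓ] Γ (Fin (n i) → ℚ_[ℓ]))
    (hρ : ∀ i, Continuous fun g => LinearMap.toMatrix' (ρ i g)) {D : ℕ}
    (b : Basis (Fin D) ℚ_[ℓ] (∀ i, Fin (n i) → ℚ_[ℓ]))
    {C : End ℚ_[ℓ] (∀ i, Fin (n i) → ℚ_[ℓ])}
    (hC : ∀ Z ∈ TV b (sumRep ρ), Z * C = C * Z) : TateTensor (sumRep ρ) (E2 C) := by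
  obtain ⟨U, hU, hU'⟩ := comm_mt (Mr b (sumRep ρ)) (cont_Mr b ρ hρ) (mt b C) fun X hX => by
    have h1 : (mt b).symm X ∈ TV b (sumRep ρ) := by
      rw [mem_TV, AlgEquiv.apply_symm_apply]
      exact hX
    have h2 := congrArg (mt b) (hC _ h1)
    rwa [map_mul, map_mul, AlgEquiv.apply_symm_apply] at h2
  refine tate_E2 (sumRep ρ) (finiteIndex_of_open hU) fun γ hγ => ?_
  have h1 := hU' γ hγ
  rw [Mr_apply, ← map_mul, ← map_mul] at h1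
  exact ((mt b).injective h1).symm

end comm

section ideal

variable {ℓ : ℕ} [hℓ : Fact ℓ.Prime] {ι : Type} [Fintype ι] [DecidableEq ι] {n : ι → ℕ}
  {Γ : Type} [Group Γ] [TopologicalSpace Γ] [IsTopologicalGroup Γ] [CompactSpace Γ]

/-- tangent vectors are in `𝔤` -/
theorem TV_le {ρ : ∀ i, Representation ℚ_[ℓ] Γ (Fin (n i) → ℚ_[ℓ])} {D : ℕ}
    (b : Basis (Fin D) ℚ_[ℓ] (∀ i, Fin (n i) → ℚ_[ℓ]))
    {𝔤 : Submodule ℚ_[ℓ] (End ℚ_[ℓ] (∀ i, Fin (n i) → ℚ_[ℓ]))} (h𝔤 : IsMotivic ρ 𝔤) :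
    TV b (sumRep ρ) ≤ 𝔤 := fun X hX => h𝔤.algebraic X fun m φ h =>
      TV_kills b (sumRep ρ) hX φ (h𝔤.tate m φ h)

/-- the tangent space is an ideal of `𝔤` if all Tate tensors are killed by `𝔤` -/
theorem TV_ideal (ρ : ∀ i, Representation ℚ_[ℓ] Γ (Fin (n i) → ℚ_[ℓ]))
    (hρ : ∀ i, Continuous fun g => LinearMap.toMatrix' (ρ i g)) {D : ℕ}
    (b : Basis (Fin D) ℚ_[ℓ] (∀ i, Fin (n i) → ℚ_[ℓ]))
    {𝔤 : Submodule ℚ_[ℓ] (End ℚ_[ℓ] (∀ i, Fin (n i) → ℚ_[ℓ]))} (h𝔤 : IsMotivic ρ 𝔤)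
    (hT : ∀ (m : ℕ) (φ : Tensor ℚ_[ℓ] (∀ i, Fin (n i) → ℚ_[ℓ]) m), TateTensor (sumRep ρ) φ →
      ∀ X ∈ 𝔤, KillsTensor X φ)
    (s : GF ℚ →* Γ) (hs : Continuous s) (hfin : FiniteOrderFrom s ℓ) (w : ι → ℤ)
    (p : Fin 3 → ℕ) (hinj : Function.Injective p) (hp : ∀ t, (p t).Prime ∧ p t ≠ ℓ)
    (hgood : ∀ t, ∃ σ, IsFrobeniusAt (p t) σ ∧ ∀ i, ∃ P : ℚ[X],
      (ρ i (s σ⁻¹)).charpoly = P.map (algebraMap ℚ ℚ_[ℓ]) ∧
        ∀ a ∈ P.aroots ℂ, ‖a‖ ^ 2 = (p t : ℝ) ^ w i)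
    {Z : End ℚ_[ℓ] (∀ i, Fin (n i) → ℚ_[ℓ])} (hZ : Z ∈ TV b (sumRep ρ))
    {Y : End ℚ_[ℓ] (∀ i, Fin (n i) → ℚ_[ℓ])} (hY : Y ∈ 𝔤) :
    Z * Y - Y * Z ∈ TV b (sumRep ρ) := by
  obtain ⟨d, ⟨β⟩⟩ := exists_fin_basis (TV b (sumRep ρ))
  exact norm_ideal β (hT _ _ (tate_PT ρ hρ s hs hfin w p hinj hp hgood (TV b (sumRep ρ))
    (fun X hX => h𝔤.parts X (TV_le b h𝔤 hX)) (fun γ X hX => TV_conj b (sumRep ρ) γ hX) β) Y hY) hZ

end ideal

section full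

variable {ℓ : ℕ} [hℓ : Fact ℓ.Prime] {ι : Type} [Fintype ι] [DecidableEq ι] {n : ι → ℕ}
  {Γ : Type} [Group Γ] [TopologicalSpace Γ] [IsTopologicalGroup Γ] [CompactSpace Γ]

/-- the matrix of the `i`-th block, as a function of the matrix of the endomorphism -/
noncomputable def Lb {D : ℕ} (b : Basis (Fin D) ℚ_[ℓ] (∀ i, Fin (n i) → ℚ_[ℓ])) (i : ι) :
    Matrix (Fin D) (Fin D) ℚ_[ℓ] →ₗ[ℚ_[ℓ]] Matrix (Fin (n i)) (Fin (n i)) ℚ_[ℓ] :=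
  LinearMap.toMatrix'.toLinearMap ∘ₗ blk (V := fun i => Fin (n i) → ℚ_[ℓ]) i ∘ₗ
    (mt b).symm.toLinearMap

theorem Lb_mt {D : ℕ} (b : Basis (Fin D) ℚ_[ℓ] (∀ i, Fin (n i) → ℚ_[ℓ])) (i : ι)
    (X : End ℚ_[ℓ] (∀ i, Fin (n i) → ℚ_[ℓ])) :
    Lb b i (mt b X) = LinearMap.toMatrix' (blk (V := fun i => Fin (n i) → ℚ_[ℓ]) i X) := by
  change LinearMap.toMatrix' (blk (V := fun i => Fin (n i) → ℚ_[ℓ]) i ((mt b).symm (mt b X))) = _
  rw [AlgEquiv.symm_apply_apply]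

theorem Lb_cont {D : ℕ} (b : Basis (Fin D) ℚ_[ℓ] (∀ i, Fin (n i) → ℚ_[ℓ])) (i : ι) :
    Continuous (Lb b i) := LinearMap.continuous_of_finiteDimensional _

omit [TopologicalSpace Γ] [IsTopologicalGroup Γ] [CompactSpace Γ] in
theorem blk_sumRep (ρ : ∀ i, Representation ℚ_[ℓ] Γ (Fin (n i) → ℚ_[ℓ])) (i : ι) (γ : Γ) :
    blk (V := fun i => Fin (n i) → ℚ_[ℓ]) i (sumRep ρ γ) = ρ i γ := by
  refine LinearMap.ext fun x => ?_
  change ρ i γ ((Pi.single i x : ∀ i, Fin (n i) → ℚ_[ℓ]) i) = ρ i γ x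
  rw [Pi.single_eq_same]

/-- if the traces of the tangent vectors on the blocks vanish, the weights of the blocks vanish -/
theorem weight_eq_zero (ρ : ∀ i, Representation ℚ_[ℓ] Γ (Fin (n i) → ℚ_[ℓ]))
    (hρ : ∀ i, Continuous fun g => LinearMap.toMatrix' (ρ i g)) {D : ℕ}
    (b : Basis (Fin D) ℚ_[ℓ] (∀ i, Fin (n i) → ℚ_[ℓ])) (i : ι)
    (htr : ∀ X ∈ TV b (sumRep ρ),
      LinearMap.trace ℚ_[ℓ] (Fin (n i) → ℚ_[ℓ]) (blk (V := fun i => Fin (n i) → ℚ_[ℓ]) i X) = 0)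
    {w : ℤ} {q : ℕ} (hq : 1 < q) {g : Γ} {P : ℚ[X]}
    (hP : (ρ i g).charpoly = P.map (algebraMap ℚ ℚ_[ℓ]))
    (hroots : ∀ a ∈ P.aroots ℂ, ‖a‖ ^ 2 = (q : ℝ) ^ w) : w = 0 ∨ n i = 0 := by
  let τ : Γ →* Matrix (Fin (n i)) (Fin (n i)) ℚ_[ℓ] :=
    { toFun := fun g => LinearMap.toMatrix' (ρ i g)
      map_one' := by rw [map_one, LinearMap.toMatrix'_one]
      map_mul' := fun a c => by rw [map_mul, LinearMap.toMatrix'_mul] }
  obtain ⟨U, hU, hU'⟩ := det_open (Mr b (sumRep ρ)) (cont_Mr b ρ hρ) τ (hρ i) (Lb b i) (Lb_cont b i)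
    (fun g => by
      rw [Mr_apply, Lb_mt, blk_sumRep]
      rfl) (fun X hX => by
      have h1 : (mt b).symm X ∈ TV b (sumRep ρ) := by
        rw [mem_TV, AlgEquiv.apply_symm_apply]
        exact hX
      have h2 := htr _ h1
      rw [LinearMap.trace_eq_matrix_trace ℚ_[ℓ] (Pi.basisFun ℚ_[ℓ] (Fin (n i))),
        LinearMap.toMatrix_eq_toMatrix'] at h2
      exact h2)
  have hUi := finiteIndex_of_open hU
  obtain ⟨M, hM0, -, hM⟩ := Subgroup.exists_pow_mem_of_index_ne_zero hUi.index_ne_zero g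
  have h1 : LinearMap.det (ρ i g) ^ M = 1 := by
    have h2 := hU' _ hM
    change (LinearMap.toMatrix' (ρ i (g ^ M))).det = 1 at h2
    rw [LinearMap.det_toMatrix', map_pow, map_pow] at h2
    exact h2
  obtain ⟨j, -⟩ := Pool.Agent.Y115.R.exists_j ℓ ℚ_[ℓ] ℚ (algebraMap ℚ ℚ_[ℓ]) (algebraMap ℚ ℂ)
  have h2 := (det_restrict_pure j (ρ i g) P hP hroots ⊤ (fun _ _ => trivial)).2
  rw [det_restrict_top (ρ i g) (fun _ _ => trivial), finrank_top, Module.finrank_fin_fun] at h2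
  have h3 : (((q : ℝ) ^ w) ^ n i) ^ M = 1 := by
    rw [← h2, ← pow_mul, mul_comm, pow_mul, ← norm_pow, ← map_pow, h1, map_one, norm_one, one_pow]
  have hq' : (1 : ℝ) < q := by exact_mod_cast hq
  have h4 : (q : ℝ) ^ (w * n i * M) = (q : ℝ) ^ (0 : ℤ) := by
    rw [zpow_zero, ← h3, zpow_mul, zpow_mul, zpow_natCast, zpow_natCast]
  have h5 := zpow_right_injective₀ (by linarith) hq'.ne' h4
  have hM' : (M : ℤ) ≠ 0 := by exact_mod_cast hM0.ne'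
  rcases mul_eq_zero.1 h5 with h | h
  · rcases mul_eq_zero.1 h with h | h
    · exact Or.inl h
    · exact Or.inr (by exact_mod_cast h)
  · exact absurd h hM'

/-- **The tangent space.** If all Tate tensors are killed by `𝔤` and the centre of `𝔤` is spanned by
the weight operator, all elements of `𝔤` are tangent vectors of the image of `Γ`. -/
theorem TV_eq (ρ : ∀ i, Representation ℚ_[ℓ] Γ (Fin (n i) → ℚ_[ℓ]))
    (hρ : ∀ i, Continuous fun g => LinearMap.toMatrix' (ρ i g)) {D : ℕ}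
    (b : Basis (Fin D) ℚ_[ℓ] (∀ i, Fin (n i) → ℚ_[ℓ]))
    {𝔤 : Submodule ℚ_[ℓ] (End ℚ_[ℓ] (∀ i, Fin (n i) → ℚ_[ℓ]))} (h𝔤 : IsMotivic ρ 𝔤)
    (hT : ∀ (m : ℕ) (φ : Tensor ℚ_[ℓ] (∀ i, Fin (n i) → ℚ_[ℓ]) m), TateTensor (sumRep ρ) φ →
      ∀ X ∈ 𝔤, KillsTensor X φ)
    (s : GF ℚ →* Γ) (hs : Continuous s) (hfin : FiniteOrderFrom s ℓ) (w : ι → ℤ)
    (p : Fin 3 → ℕ) (hinj : Function.Injective p) (hp : ∀ t, (p t).Prime ∧ p t ≠ ℓ)
    (hgood : ∀ t, ∃ σ, IsFrobeniusAt (p t) σ ∧ ∀ i, ∃ P : ℚ[X],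
      (ρ i (s σ⁻¹)).charpoly = P.map (algebraMap ℚ ℚ_[ℓ]) ∧
        ∀ a ∈ P.aroots ℂ, ‖a‖ ^ 2 = (p t : ℝ) ^ w i)
    (hcen : ∀ Z ∈ 𝔤, (∀ Y ∈ 𝔤, Y * Z = Z * Y) →
      ∃ c : ℚ_[ℓ], Z = c • weightOp (fun i => Fin (n i) → ℚ_[ℓ]) w) :
    𝔤 ≤ TV b (sumRep ρ) := by
  by_contra hcon
  have hle := TV_le b h𝔤
  have hid : ∀ Z ∈ TV b (sumRep ρ), ∀ Y ∈ 𝔤, Z * Y - Y * Z ∈ TV b (sumRep ρ) := fun Z hZ Y hY =>
    TV_ideal ρ hρ b h𝔤 hT s hs hfin w p hinj hp hgood hZ hY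
  obtain ⟨C, hC, hC0, hperp⟩ := exists_perp hle hcon
  have hcomm : ∀ Z ∈ TV b (sumRep ρ), Z * C = C * Z := fun Z hZ =>
    comm_of_perp h𝔤.bracket h𝔤.nondeg hle hid hC hperp hZ
  obtain ⟨c, hc⟩ := hcen C hC fun Y hY =>
    kills_E2.1 (hT _ _ (tate_of_comm_tangent ρ hρ b hcomm) Y hY)
  set W := weightOp (k := ℚ_[ℓ]) (fun i => Fin (n i) → ℚ_[ℓ]) w with hW
  have hc0 : c ≠ 0 := by
    rintro rfl
    rw [zero_smul] at hc
    exact hC0 hc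
  have hWperp : ∀ Z ∈ TV b (sumRep ρ), LinearMap.trace ℚ_[ℓ] (∀ i, Fin (n i) → ℚ_[ℓ]) (W * Z) = 0 := by
    intro Z hZ
    have h1 := hperp Z hZ
    rw [hc, smul_mul_assoc, map_smul, smul_eq_mul] at h1
    exact (mul_eq_zero.1 h1).resolve_left hc0
  have hall : ∀ i, w i = 0 ∨ n i = 0 := by
    intro i
    obtain ⟨σ, -, hσ⟩ := hgood 0
    obtain ⟨P, hP, hroots⟩ := hσ i
    exact weight_eq_zero ρ hρ b i (fun X hX => trace_blk_eq_zero h𝔤.bracket h𝔤.nondeg hle h𝔤.parts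
      hcen hWperp hX i) (hp 0).1.one_lt hP hroots
  apply hC0
  rw [hc]
  have hW0 : W = 0 := by
    refine LinearMap.ext fun x => ?_
    funext i
    rcases hall i with h | h
    · change ((w i : ℤ) : ℚ_[ℓ]) • x i = 0
      rw [h, Int.cast_zero, zero_smul]
    · have : IsEmpty (Fin (n i)) := by
        rw [h]
        infer_instance
      exact Subsingleton.elim _ _
  rw [hW0, smul_zero]

end full

end Pool.Agent.H50.FT
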