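import Pool.Agent.H50.FT.TanV
import Pool.Agent.H50.FT.Pten
import Pool.Agent.H50.FT.SemiT
import Pool.Agent.Y114.RM.All

/-!
# The tensor of the tangent space is a Tate tensor
-/

set_option autoImplicit false

namespace Pool.Agent.H50.FT

open Module NumberField Polynomial Topology Filter Pool.Agent.Y114.RM Pool.Agent.Y114.TF
  Pool.Agent.Y114.GF Pool.Agent.H204R3.GP Pool.Agent.R913.Adj Pool.Agent Pool.Agent.W569.FM

section restr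

variable {k : Type} [Field k] {V : Type} [AddCommGroup V] [Module k V]

theorem PT_restrict (T : Submodule k (End k V)) {g g' : End k V} (h : ∀ X ∈ T, AdE g' g X ∈ T)
    {d : ℕ} (b : Basis (Fin d) k T) (v : Fin (d + d) → V × Dual k V) :
    PT (fun a => (b a : End k V)) (fun l => grp g g' (v l)) =
      PT (fun a => (b a : End k V)) v * detOn T (AdE g' g) h := by
  have h1 := PT_grp (t := fun a => (b a : End k V)) (g := g) (g' := g')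
    (M := LinearMap.toMatrix b b ((AdE g' g).restrict h))
    (fun c => by
      have h3 := b.sum_repr ((AdE g' g).restrict h (b c))
      have h4 := congrArg (Subtype.val) h3
      rw [Submodule.coe_sum] at h4
      refine h4.symm.trans ?_
      refine Finset.sum_congr rfl fun e _ => ?_
      rw [LinearMap.toMatrix_apply]
      rfl) v
  rw [h1]
  congr 1
  exact LinearMap.det_toMatrix b _

end restr

section cont

variable {ℓ : ℕ} [hℓ : Fact ℓ.Prime] {ι : Type} [Fintype ι] [DecidableEq ι] {n : ι → ℕ}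
  {Γ : Type} [Group Γ] [TopologicalSpace Γ] [IsTopologicalGroup Γ]

theorem cont_sum (ρ : ∀ i, Representation ℚ_[ℓ] Γ (Fin (n i) → ℚ_[ℓ]))
    (hρ : ∀ i, Continuous fun g => LinearMap.toMatrix' (ρ i g))
    (φ : Dual ℚ_[ℓ] (∀ i, Fin (n i) → ℚ_[ℓ])) (x : ∀ i, Fin (n i) → ℚ_[ℓ]) :
    Continuous fun g => φ (sumRep ρ g x) := by
  have h1 : ∀ y : ∀ i, Fin (n i) → ℚ_[ℓ], φ y =
      ∑ i, φ (LinearMap.single ℚ_[ℓ] (fun i => Fin (n i) → ℚ_[ℓ]) i (y i)) := by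
    intro y
    rw [← map_sum]
    congr 1
    funext j
    rw [Finset.sum_apply]
    simp
  have h2 : (fun g => φ (sumRep ρ g x)) = fun g =>
      ∑ i, (φ ∘ₗ LinearMap.single ℚ_[ℓ] (fun i => Fin (n i) → ℚ_[ℓ]) i) (ρ i g (x i)) := by
    funext g
    rw [h1]
    rfl
  rw [h2]
  exact continuous_finsetSum _ fun i _ => cont_apply (hρ i) _ (x i)

theorem cont_Mr {D : ℕ} (b : Basis (Fin D) ℚ_[ℓ] (∀ i, Fin (n i) → ℚ_[ℓ]))
    (ρ : ∀ i, Representation ℚ_[ℓ] Γ (Fin (n i) → ℚ_[ℓ]))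
    (hρ : ∀ i, Continuous fun g => LinearMap.toMatrix' (ρ i g)) :
    Continuous (Mr b (sumRep ρ)) := by
  refine continuous_matrix fun a c => ?_
  have h1 : (fun g => Mr b (sumRep ρ) g a c) = fun g => b.coord a (sumRep ρ g (b c)) := by
    funext g
    rw [Mr_apply]
    exact LinearMap.toMatrixAlgEquiv_apply b _ a c
  rw [h1]
  exact cont_sum ρ hρ _ _

end cont

section tate

variable {ℓ : ℕ} [hℓ : Fact ℓ.Prime] {ι : Type} [Fintype ι] [DecidableEq ι] {n : ι → ℕ}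
  {Γ : Type} [Group Γ] [TopologicalSpace Γ] [IsTopologicalGroup Γ]

/-- the tensor of a stable space of endomorphisms is a Tate tensor -/
theorem tate_PT (ρ : ∀ i, Representation ℚ_[ℓ] Γ (Fin (n i) → ℚ_[ℓ]))
    (hρ : ∀ i, Continuous fun g => LinearMap.toMatrix' (ρ i g))
    (s : GF ℚ →* Γ) (hs : Continuous s) (hfin : FiniteOrderFrom s ℓ) (w : ι → ℤ)
    (p : Fin 3 → ℕ) (hinj : Function.Injective p) (hp : ∀ t, (p t).Prime ∧ p t ≠ ℓ)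
    (hgood : ∀ t, ∃ σ, IsFrobeniusAt (p t) σ ∧ ∀ i, ∃ P : ℚ[X],
      (ρ i (s σ⁻¹)).charpoly = P.map (algebraMap ℚ ℚ_[ℓ]) ∧
        ∀ a ∈ P.aroots ℂ, ‖a‖ ^ 2 = (p t : ℝ) ^ w i)
    (T : Submodule ℚ_[ℓ] (End ℚ_[ℓ] (∀ i, Fin (n i) → ℚ_[ℓ])))
    (hblk : ∀ X ∈ T, ∀ x i, X x i = X (Pi.single i (x i)) i)
    (hT : ∀ γ, ∀ X ∈ T, AdE (sumRep ρ γ) (sumRep ρ γ⁻¹) X ∈ T) {d : ℕ}
    (b : Basis (Fin d) ℚ_[ℓ] T) :
    TateTensor (sumRep ρ) (PT fun a => (b a : End ℚ_[ℓ] (∀ i, Fin (n i) → ℚ_[ℓ]))) := by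
  classical
  obtain ⟨ψ, hψc, hψ⟩ := inputs.cont ℓ ι n Γ ρ hρ T hT
  obtain ⟨j, -⟩ := Pool.Agent.Y115.R.exists_j ℓ ℚ_[ℓ] ℚ (algebraMap ℚ ℚ_[ℓ]) (algebraMap ℚ ℂ)
  choose σ hσ P hP hroots using hgood
  choose Q hQ hpQ hσQ using hσ
  have key : ∀ t, IsAlgebraic ℚ (ψ (s (σ t)⁻¹) : ℚ_[ℓ]) ∧ ‖j (ψ (s (σ t)⁻¹) : ℚ_[ℓ])‖ = 1 := by
    intro t
    rw [hψ]
    exact inputs.adw ℓ j ι n (sumRep ρ (s (σ t)⁻¹)) (sumRep ρ (s (σ t)⁻¹)⁻¹)
      (fun i => ρ i (s (σ t)⁻¹)) (P t) (fun i => (p t : ℝ) ^ w i)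
      (by rw [← map_mul, mul_inv_cancel, map_one])
      (by rw [← map_mul, inv_mul_cancel, map_one]) (fun x i => rfl) (hP t) (hroots t) T hblk (hT (s (σ t)⁻¹))
  have hinv : ∀ t, (ψ (s (σ t)) : ℚ_[ℓ]) = (ψ (s (σ t)⁻¹) : ℚ_[ℓ])⁻¹ := by
    intro t
    rw [map_inv, map_inv, Units.val_inv_eq_inv_val, inv_inv]
  obtain ⟨N, hN, hNψ⟩ := finite_order (ψ.comp s) (hψc.comp hs) j p (fun t => (hp t).1) hinj
    (fun t => (hp t).2) Q hQ hpQ σ (fun t => hσQ t)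
    (fun t => by
      rw [MonoidHom.comp_apply, hinv]
      exact (key t).1.inv)
    (by rw [MonoidHom.comp_apply, hinv, map_inv₀, norm_inv, (key 0).2, inv_one])
  obtain ⟨m, hm, hmψ⟩ := hfin ψ hψc ⟨N, hN, hNψ⟩
  refine ⟨ψ.ker, finiteIndex_of_finite_order ψ hm hmψ, fun γ hγ v => ?_⟩
  have h7 : ψ γ⁻¹ = 1 := by rw [map_inv, (MonoidHom.mem_ker).1 hγ, inv_one]
  have h6 := hψ γ⁻¹
  rw [h7, Units.val_one] at h6
  have hT' : ∀ X ∈ T, AdE (sumRep ρ γ⁻¹) (sumRep ρ γ) X ∈ T := by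
    have h8 := hT γ⁻¹
    rwa [inv_inv] at h8
  have h9 : detOn T (AdE (sumRep ρ γ⁻¹) (sumRep ρ γ)) hT' = 1 := by
    rw [h6]
    congr 2
    rw [inv_inv]
  rw [PT_restrict T hT' b v, h9, mul_one]

end tate

end Pool.Agent.H50.FT
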