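import Pool.Agent.H50.FT.Tang

/-!
# The tangent space of the image of a representation
-/

set_option autoImplicit false

namespace Pool.Agent.H50.FT

open Module Topology Filter Pool.Agent.Y114.RM Pool.Agent.Y708.ZO Pool.Agent.Y142.ZO
  Pool.Agent.Y497.ZO

section tan

variable {ℓ : ℕ} [hℓ : Fact ℓ.Prime] {V : Type} [AddCommGroup V] [Module ℚ_[ℓ] V]
  [FiniteDimensional ℚ_[ℓ] V] {D : ℕ} (b : Basis (Fin D) ℚ_[ℓ] V) {G : Type} [Group G]
  (R : Representation ℚ_[ℓ] G V)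

/-- the matrices of the representation -/
noncomputable def Mr : G →* Matrix (Fin D) (Fin D) ℚ_[ℓ] where
  toFun γ := mt b (R γ)
  map_one' := by rw [map_one, map_one]
  map_mul' a c := by rw [map_mul, map_mul]

theorem Mr_apply (γ : G) : Mr b R γ = mt b (R γ) := rfl

/-- the tangent space -/
noncomputable def TV : Submodule ℚ_[ℓ] (End ℚ_[ℓ] V) :=
  (Pool.Agent.Y708.ZO.tan (Mr b R)).comap (mt b).toLinearMap

theorem mem_TV (X : End ℚ_[ℓ] V) : X ∈ TV b R ↔ IsTangent ℓ (Mr b R) (mt b X) := Iff.rfl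

theorem TV_lie {X Y : End ℚ_[ℓ] V} (hX : X ∈ TV b R) (hY : Y ∈ TV b R) :
    X * Y - Y * X ∈ TV b R := by
  rw [mem_TV] at hX hY ⊢
  rw [map_sub, map_mul, map_mul]
  exact tangent_lie _ hX hY

theorem TV_conj (γ : G) {X : End ℚ_[ℓ] V} (hX : X ∈ TV b R) : AdE (R γ) (R γ⁻¹) X ∈ TV b R := by
  rw [mem_TV] at hX ⊢
  rw [AdE_apply, map_mul, map_mul, ← mul_assoc]
  exact tangent_conj (Mr b R) γ hX

theorem geom_tendsto {g : ℕ → Matrix (Fin D) (Fin D) ℚ_[ℓ]} (hg : Tendsto g atTop (𝓝 1)) (N : ℕ) :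
    Tendsto (fun n => ∑ i ∈ Finset.range N, g n ^ i) atTop (𝓝 ((N : ℚ_[ℓ]) • 1)) := by
  have h1 : Tendsto (fun n => ∑ i ∈ Finset.range N, g n ^ i) atTop
      (𝓝 (∑ i ∈ Finset.range N, (1 : Matrix (Fin D) (Fin D) ℚ_[ℓ]) ^ i)) :=
    tendsto_finsetSum _ fun i _ => hg.pow i
  have h2 : (∑ i ∈ Finset.range N, (1 : Matrix (Fin D) (Fin D) ℚ_[ℓ]) ^ i) = (N : ℚ_[ℓ]) • 1 := by
    simp only [one_pow, Finset.sum_const, Finset.card_range]
    rw [Nat.cast_smul_eq_nsmul]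
  rwa [h2] at h1

/-- tangent vectors kill Tate tensors -/
theorem TV_kills {X : End ℚ_[ℓ] V} (hX : X ∈ TV b R) {m : ℕ} (φ : Tensor ℚ_[ℓ] V m)
    (hφ : TateTensor R φ) : KillsTensor X φ := by
  obtain ⟨Δ, hΔ, hfix⟩ := hφ
  obtain ⟨σ, hσ⟩ := (mem_TV b R X).1 hX
  have hcore : Δ.normalCore.FiniteIndex := inferInstance
  set N : ℕ := Δ.normalCore.index with hN
  have hN0 : N ≠ 0 := hcore.index_ne_zero
  have hmem : ∀ γ : G, γ ^ N ∈ Δ := fun γ =>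
    Δ.normalCore_le (Subgroup.pow_index_mem Δ.normalCore γ)
  have hρ := rho_tendsto (Mr b R) hσ
  -- the powers
  have h1 : Tendsto (fun n : ℕ => ((ℓ : ℚ_[ℓ]) ^ n)⁻¹ • (mt b (R (σ n ^ N)) - 1)) atTop
      (𝓝 (mt b ((N : ℚ_[ℓ]) • X))) := by
    have h2 := (geom_tendsto hρ N).mul hσ
    rw [smul_mul_assoc, one_mul, ← map_smul] at h2
    refine h2.congr fun n => ?_
    rw [mul_smul_comm, geom_sum_mul]
    congr 2
    rw [← map_pow]
    rfl
  have hρ' : Tendsto (fun n => Mr b R (σ n ^ N)) atTop (𝓝 1) := rho_tendsto (Mr b R) h1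
  have h3 : Tendsto (fun n : ℕ => ((ℓ : ℚ_[ℓ]) ^ n)⁻¹ • (mt b (R (σ n ^ N)⁻¹) - 1)) atTop
      (𝓝 (mt b (-((N : ℚ_[ℓ]) • X)))) := by
    have h4 := ((Tendsto.mul h1 (rho_inv_tendsto (Mr b R) hρ'))).neg
    rw [mul_one, ← map_neg] at h4
    refine h4.congr fun n => ?_
    rw [smul_mul_assoc, ← smul_neg]
    congr 1
    rw [sub_mul, one_mul]
    have h5 : mt b (R (σ n ^ N)) * Mr b R (σ n ^ N)⁻¹ = 1 := by
      rw [← Mr_apply, ← map_mul, mul_inv_cancel, map_one]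
    rw [h5, neg_sub]
    rfl
  have h6 := kills_of_seq b h1 h3 φ fun n v => hfix _ (hmem (σ n)) v
  intro v
  have h7 := h6 v
  have h8 : ∀ l, φ (Function.update v l (lie ((N : ℚ_[ℓ]) • X) (v l))) =
      (N : ℚ_[ℓ]) * φ (Function.update v l (lie X (v l))) := by
    intro l
    have h9 : lie ((N : ℚ_[ℓ]) • X) (v l) = (N : ℚ_[ℓ]) • lie X (v l) := by
      refine Prod.ext rfl ?_
      refine LinearMap.ext fun y => ?_
      change -((v l).2 (((N : ℚ_[ℓ]) • X) y)) = (N : ℚ_[ℓ]) • -((v l).2 (X y))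
      rw [LinearMap.smul_apply, map_smul, smul_neg]
    rw [h9, MultilinearMap.map_update_smul, smul_eq_mul]
  simp only [h8] at h7
  rw [← Finset.mul_sum] at h7
  exact (mul_eq_zero.1 h7).resolve_left (by exact_mod_cast hN0)

end tan

section comm

attribute [local instance] Matrix.normedAddCommGroup Matrix.normedSpace

variable {ℓ : ℕ} [hℓ : Fact ℓ.Prime] {N : ℕ}

/-- the commutator with `Y` -/
noncomputable def cmt (Y : Mt ℓ N) : Mt ℓ N →ₗ[ℚ_[ℓ]] Mt ℓ N :=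
  LinearMap.mulRight ℚ_[ℓ] Y - LinearMap.mulLeft ℚ_[ℓ] Y

theorem cmt_apply (Y A : Mt ℓ N) : cmt Y A = A * Y - Y * A := rfl

theorem cmt_pow (Y A : Mt ℓ N) (hA : ‖A‖ ≤ 1) (k : ℕ) (hk : 1 ≤ k) :
    ‖cmt Y (A ^ k)‖ ≤ ‖cmt Y A‖ := by
  have : IsUltrametricDist (Mt ℓ N) :=
    inferInstanceAs (IsUltrametricDist (Fin N → Fin N → ℚ_[ℓ]))
  induction k, hk using Nat.le_induction with
  | base => rw [pow_one]
  | succ k hk ih =>
    have e1 : cmt Y (A ^ (k + 1)) = A ^ k * cmt Y A + cmt Y (A ^ k) * A := by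
      rw [cmt_apply, cmt_apply, cmt_apply, pow_succ]
      noncomm_ring
    rw [e1]
    refine (IsUltrametricDist.norm_add_le_max _ _).trans (max_le ?_ ?_)
    · refine (nmul _ _).trans ?_
      exact mul_le_of_le_one_left (norm_nonneg _) (npow A hA le_rfl k hk)
    · refine (nmul _ _).trans ?_
      exact (mul_le_of_le_one_right (norm_nonneg _) hA).trans ih

/-- A matrix which commutes with the tangent vectors commutes with an open subgroup. -/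
theorem comm_mt {G : Type} [Group G] [TopologicalSpace G] [IsTopologicalGroup G]
    (ρ : G →* Mt ℓ N) (hρ : Continuous ρ) (Y : Mt ℓ N)
    (h : ∀ X, IsTangent ℓ ρ X → X * Y = Y * X) :
    ∃ U : Subgroup G, IsOpen (U : Set G) ∧ ∀ σ ∈ U, ρ σ * Y = Y * ρ σ := by
  have : IsUltrametricDist (Mt ℓ N) :=
    inferInstanceAs (IsUltrametricDist (Fin N → Fin N → ℚ_[ℓ]))
  obtain ⟨U, hU, hU'⟩ := exists_open G ρ hρ (((ℓ : ℝ) ^ 2)⁻¹) (inv_pos.2 (pow_pos lR_pos 2))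
    (inv_pow_le 2)
  refine ⟨U, hU, fun σ hσ => ?_⟩
  have h0 : ‖Aj (ρ σ) 0‖ ≤ 1 := aj_zero (ρ σ) (by rw [mul_one]; exact hU' σ hσ)
  obtain ⟨A, hA⟩ := exists_lim (ρ σ) h0
  have h1 := norm_lim (cmt Y) le_rfl (fun A hA k hk => cmt_pow Y A hA k hk) (ρ σ) h0 A hA
  rw [cmt_apply, h A (aj_tangent ρ σ A hA), sub_self, norm_zero, eq_comm, norm_eq_zero,
    cmt_apply, sub_eq_zero] at h1
  have h2 := pow_eq (ρ σ) 0
  rw [pow_zero, pow_one] at h2
  rw [h2, add_mul, mul_add, one_mul, mul_one, smul_mul_assoc, mul_smul_comm, h1]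

end comm

end Pool.Agent.H50.FT
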