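import Pool.Agent.H50.FT.Tens
import Pool.Agent.Y708.ZO.Tan
import Pool.Agent.Y497.ZO.LogPow

/-!
# Tangent vectors kill Tate tensors
-/

set_option autoImplicit false

namespace Pool.Agent.H50.FT

open Module Topology Filter Pool.Agent.Y114.RM Pool.Agent.Y708.ZO Pool.Agent.Y142.ZO

section cont

variable {ℓ : ℕ} [hℓ : Fact ℓ.Prime]

/-- multilinear forms on `ℚ_ℓ ^ q` are continuous -/
theorem continuous_multilinear {m q : ℕ}
    (f : MultilinearMap ℚ_[ℓ] (fun _ : Fin m => Fin q → ℚ_[ℓ]) ℚ_[ℓ]) : Continuous f := by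
  have h1 : ∀ v : Fin m → Fin q → ℚ_[ℓ], f v = ∑ r : Fin m → Fin q, (∏ i, v i (r i)) *
      f (fun i => Pi.single (r i) 1) := by
    intro v
    have h2 : v = fun i => ∑ j, v i j • (Pi.single j (1 : ℚ_[ℓ]) : Fin q → ℚ_[ℓ]) := by
      funext i
      exact (pi_eq_sum_univ' (v i))
    conv_lhs => rw [h2]
    rw [MultilinearMap.map_sum]
    refine Finset.sum_congr rfl fun r _ => ?_
    rw [MultilinearMap.map_smul_univ, smul_eq_mul]
  have h2 : (f : (Fin m → Fin q → ℚ_[ℓ]) → ℚ_[ℓ]) = fun v =>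
      ∑ r : Fin m → Fin q, (∏ i, v i (r i)) * f (fun i => Pi.single (r i) 1) := funext h1
  change Continuous (f : (Fin m → Fin q → ℚ_[ℓ]) → ℚ_[ℓ])
  rw [h2]
  fun_prop

end cont

section kill

variable {ℓ : ℕ} [hℓ : Fact ℓ.Prime] {V : Type} [AddCommGroup V] [Module ℚ_[ℓ] V]
  [FiniteDimensional ℚ_[ℓ] V] {D : ℕ} (b : Basis (Fin D) ℚ_[ℓ] V)

/-- the matrix of an endomorphism -/
noncomputable def mt : End ℚ_[ℓ] V ≃ₐ[ℚ_[ℓ]] Matrix (Fin D) (Fin D) ℚ_[ℓ] :=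
  LinearMap.toMatrixAlgEquiv b

/-- linear maps of the matrices are continuous -/
theorem continuous_lin {q : ℕ} (Λ : Matrix (Fin D) (Fin D) ℚ_[ℓ] →ₗ[ℚ_[ℓ]] (Fin q → ℚ_[ℓ])) :
    Continuous Λ := LinearMap.continuous_of_finiteDimensional Λ

omit [FiniteDimensional ℚ_[ℓ] V] in
/-- a tangent vector of group elements which fix a tensor kills the tensor -/
theorem kills_of_seq [FiniteDimensional ℚ_[ℓ] V] {g g' : ℕ → End ℚ_[ℓ] V} {X : End ℚ_[ℓ] V}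
    (hg : Tendsto (fun n : ℕ => ((ℓ : ℚ_[ℓ]) ^ n)⁻¹ • (mt b (g n) - 1)) atTop (𝓝 (mt b X)))
    (hg' : Tendsto (fun n : ℕ => ((ℓ : ℚ_[ℓ]) ^ n)⁻¹ • (mt b (g' n) - 1)) atTop (𝓝 (mt b (-X))))
    {m : ℕ} (φ : Tensor ℚ_[ℓ] V m)
    (hφ : ∀ n v, φ (fun l => grp (g n) (g' n) (v l)) = φ v) : KillsTensor X φ := by
  intro v
  let e := (finBasis ℚ_[ℓ] (V × Dual ℚ_[ℓ] V)).equivFun
  let f : ContinuousMultilinearMap ℚ_[ℓ]
      (fun _ : Fin m => Fin (finrank ℚ_[ℓ] (V × Dual ℚ_[ℓ] V)) → ℚ_[ℓ]) ℚ_[ℓ] :=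
    ⟨φ.compLinearMap fun _ => e.symm.toLinearMap, continuous_multilinear _⟩
  have hf : ∀ y, f y = φ fun l => e.symm (y l) := fun y => rfl
  let x : Fin m → Fin (finrank ℚ_[ℓ] (V × Dual ℚ_[ℓ] V)) → ℚ_[ℓ] := fun l => e (v l)
  let d : ℕ → Fin m → Fin (finrank ℚ_[ℓ] (V × Dual ℚ_[ℓ] V)) → ℚ_[ℓ] := fun n l =>
    e (grp (g n) (g' n) (v l)) - e (v l)
  -- the difference quotients converge
  have hl : ∀ n : ℕ, (ℓ : ℚ_[ℓ]) ^ n ≠ 0 := fun n => pow_ne_zero _ ell_ne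
  have hcd : ∀ l, Tendsto (fun n => ((ℓ : ℚ_[ℓ]) ^ n)⁻¹ • d n l) atTop (𝓝 (e (lie X (v l)))) := by
    intro l
    let Λ₁ : Matrix (Fin D) (Fin D) ℚ_[ℓ] →ₗ[ℚ_[ℓ]]
        (Fin (finrank ℚ_[ℓ] (V × Dual ℚ_[ℓ] V)) → ℚ_[ℓ]) :=
      e.toLinearMap ∘ₗ LinearMap.inl ℚ_[ℓ] V (Dual ℚ_[ℓ] V) ∘ₗ
        LinearMap.applyₗ (v l).1 ∘ₗ (mt b).symm.toLinearMap
    let Λ₂ : Matrix (Fin D) (Fin D) ℚ_[ℓ] →ₗ[ℚ_[ℓ]]
        (Fin (finrank ℚ_[ℓ] (V × Dual ℚ_[ℓ] V)) → ℚ_[ℓ]) :=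
      e.toLinearMap ∘ₗ LinearMap.inr ℚ_[ℓ] V (Dual ℚ_[ℓ] V) ∘ₗ
        (LinearMap.llcomp ℚ_[ℓ] V V ℚ_[ℓ] (v l).2) ∘ₗ (mt b).symm.toLinearMap
    have e1 : ∀ A : End ℚ_[ℓ] V, Λ₁ (mt b A) = e (A (v l).1, 0) := fun A => by
      change e (((mt b).symm (mt b A)) (v l).1, 0) = _
      rw [AlgEquiv.symm_apply_apply]
    have e2 : ∀ A : End ℚ_[ℓ] V, Λ₂ (mt b A) = e (0, (v l).2 ∘ₗ A) := fun A => by
      change e (0, (v l).2 ∘ₗ ((mt b).symm (mt b A))) = _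
      rw [AlgEquiv.symm_apply_apply]
    have h1 := ((continuous_lin Λ₁).tendsto _).comp hg
    have h2 := ((continuous_lin Λ₂).tendsto _).comp hg'
    have h3 := h1.add h2
    have h4 : Λ₁ (mt b X) + Λ₂ (mt b (-X)) = e (lie X (v l)) := by
      rw [e1, e2, ← map_add]
      congr 1
      rw [Prod.mk_add_mk, add_zero, zero_add]
      refine Prod.ext rfl ?_
      refine LinearMap.ext fun y => ?_
      change (v l).2 ((-X) y) = -((v l).2 (X y))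
      rw [LinearMap.neg_apply, map_neg]
    rw [h4] at h3
    refine h3.congr fun n => ?_
    have h5 : ∀ A : End ℚ_[ℓ] V, ((ℓ : ℚ_[ℓ]) ^ n)⁻¹ • (mt b A - 1) =
        mt b (((ℓ : ℚ_[ℓ]) ^ n)⁻¹ • (A - 1)) := fun A => by
      rw [map_smul, map_sub, map_one]
    change Λ₁ (((ℓ : ℚ_[ℓ]) ^ n)⁻¹ • (mt b (g n) - 1)) +
      Λ₂ (((ℓ : ℚ_[ℓ]) ^ n)⁻¹ • (mt b (g' n) - 1)) = ((ℓ : ℚ_[ℓ]) ^ n)⁻¹ • d n l
    rw [h5, h5, e1, e2, ← map_add]
    change _ = ((ℓ : ℚ_[ℓ]) ^ n)⁻¹ • (e (grp (g n) (g' n) (v l)) - e (v l))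
    rw [← map_sub, ← map_smul]
    congr 1
    rw [Prod.mk_add_mk, add_zero, zero_add]
    refine Prod.ext ?_ ?_
    · change ((((ℓ : ℚ_[ℓ]) ^ n)⁻¹ • (g n - 1)) (v l).1) =
        ((ℓ : ℚ_[ℓ]) ^ n)⁻¹ • ((g n) (v l).1 - (v l).1)
      rw [LinearMap.smul_apply, LinearMap.sub_apply, Module.End.one_apply]
    · refine LinearMap.ext fun y => ?_
      change (v l).2 ((((ℓ : ℚ_[ℓ]) ^ n)⁻¹ • (g' n - 1)) y) =
        ((ℓ : ℚ_[ℓ]) ^ n)⁻¹ • ((v l).2 (g' n y) - (v l).2 y)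
      rw [LinearMap.smul_apply, LinearMap.sub_apply, Module.End.one_apply, map_smul, map_sub]
  have hcd' : Tendsto (fun n => ((ℓ : ℚ_[ℓ]) ^ n)⁻¹ • d n) atTop
      (𝓝 (fun l => e (lie X (v l)))) := by
    rw [tendsto_pi_nhds]
    exact hcd
  have hd : Tendsto d atTop (𝓝 0) := by
    have h1 := (pow_tendsto (ℓ := ℓ)).smul hcd'
    rw [zero_smul] at h1
    refine h1.congr fun n => ?_
    rw [smul_smul, mul_inv_cancel₀ (hl n), one_smul]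
  have hder := f.hasFDerivAt x
  rw [← hasFDerivWithinAt_univ] at hder
  have hlim := hder.lim hd (Eventually.of_forall fun _ => Set.mem_univ _) hcd'
  have hzero : ∀ n, f (x + d n) = f x := by
    intro n
    rw [hf, hf]
    have h1 : (fun l => e.symm ((x + d n) l)) = fun l => grp (g n) (g' n) (v l) := by
      funext l
      change e.symm (e (v l) + (e (grp (g n) (g' n) (v l)) - e (v l))) = _
      rw [add_sub_cancel, LinearEquiv.symm_apply_apply]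
    have h2 : (fun l => e.symm (x l)) = v := by
      funext l
      exact LinearEquiv.symm_apply_apply e (v l)
    rw [h1, h2, hφ]
  have h6 : Tendsto (fun n : ℕ => ((ℓ : ℚ_[ℓ]) ^ n)⁻¹ • (f (x + d n) - f x)) atTop (𝓝 0) := by
    refine tendsto_const_nhds.congr fun n => ?_
    rw [hzero, sub_self, smul_zero]
  have h7 := tendsto_nhds_unique hlim h6
  rw [ContinuousMultilinearMap.linearDeriv_apply] at h7
  rw [← h7]
  refine Finset.sum_congr rfl fun l _ => ?_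
  rw [hf]
  congr 1
  funext i
  by_cases hi : i = l
  · subst hi
    rw [Function.update_self, Function.update_self, LinearEquiv.symm_apply_apply]
  · rw [Function.update_of_ne hi, Function.update_of_ne hi]
    exact (LinearEquiv.symm_apply_apply e (v i)).symm

end kill

end Pool.Agent.H50.FT
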