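import Mathlib
import Pool.Agent.Y114.RM.Defs

/-!
# Tensors: products, determinants, tensors attached to endomorphisms of the space of endomorphisms
-/

set_option autoImplicit false

namespace Pool.Agent.H50.FT

open Module Pool.Agent.Y114.RM

variable {k : Type} [Field k] {V : Type} [AddCommGroup V] [Module k V]

/-- the action of `X` on tensors -/
noncomputable def der (X : End k V) {m : ℕ} (φ : Tensor k V m) (v : Fin m → V × Dual k V) : k :=
  ∑ l, φ (Function.update v l (lie X (v l)))

theorem kills_iff {X : End k V} {m : ℕ} {φ : Tensor k V m} :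
    KillsTensor X φ ↔ ∀ v, der X φ v = 0 := Iff.rfl

/-- the product of two tensors -/
noncomputable def prodT {a b : ℕ} (S : Tensor k V a) (T : Tensor k V b) : Tensor k V (a + b) :=
  ((LinearMap.mul' k k).compMultilinearMap (MultilinearMap.domCoprod S T)).domDomCongr
    finSumFinEquiv

theorem prodT_apply {a b : ℕ} (S : Tensor k V a) (T : Tensor k V b)
    (v : Fin (a + b) → V × Dual k V) :
    prodT S T v = S (fun i => v (Fin.castAdd b i)) * T (fun i => v (Fin.natAdd a i)) := by
  unfold prodT
  rw [MultilinearMap.domDomCongr_apply]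
  simp [MultilinearMap.domCoprod_apply]

theorem der_prodT (X : End k V) {a b : ℕ} (S : Tensor k V a) (T : Tensor k V b)
    (v : Fin (a + b) → V × Dual k V) :
    der X (prodT S T) v = der X S (fun i => v (Fin.castAdd b i)) * T (fun i => v (Fin.natAdd a i)) +
      S (fun i => v (Fin.castAdd b i)) * der X T (fun i => v (Fin.natAdd a i)) := by
  unfold der
  rw [Fin.sum_univ_add, Finset.sum_mul, Finset.mul_sum]
  congr 1
  · refine Finset.sum_congr rfl fun l _ => ?_
    rw [prodT_apply]
    congr 2
    · funext i
      by_cases h : i = l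
      · subst h
        rw [Function.update_self, Function.update_self]
      · rw [Function.update_of_ne h, Function.update_of_ne]
        intro h2
        exact h (Fin.castAdd_injective _ _ h2)
    · funext i
      rw [Function.update_of_ne]
      intro h2
      exact absurd h2 (by
        rw [Fin.ext_iff, Fin.val_natAdd, Fin.val_castAdd]
        have := l.2
        omega)
  · refine Finset.sum_congr rfl fun l _ => ?_
    rw [prodT_apply]
    congr 2
    · funext i
      rw [Function.update_of_ne]
      intro h2
      exact absurd h2 (by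
        rw [Fin.ext_iff, Fin.val_natAdd, Fin.val_castAdd]
        have := i.2
        omega)
    · funext i
      by_cases h : i = l
      · subst h
        rw [Function.update_self, Function.update_self]
      · rw [Function.update_of_ne h, Function.update_of_ne]
        intro h2
        exact h (Fin.natAdd_injective _ _ h2)

/-- the determinant of a family of linear forms on the sum of `V` and its dual space -/
noncomputable def detT {e : ℕ} (A : (V × Dual k V) →ₗ[k] (Fin e → k)) : Tensor k V e :=
  (Matrix.detRowAlternating (R := k) (n := Fin e)).toMultilinearMap.compLinearMap fun _ => A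

theorem detT_apply {e : ℕ} (A : (V × Dual k V) →ₗ[k] (Fin e → k)) (v : Fin e → V × Dual k V) :
    detT A v = Matrix.det (Matrix.of fun i => A (v i)) := rfl

/-- the endomorphism `y ↦ f y • x` -/
def rk (x : V) (f : Dual k V) : End k V := f.smulRight x

theorem rk_apply (x : V) (f : Dual k V) (y : V) : rk x f y = f y • x := rfl

theorem rk_add_left (x x' : V) (f : Dual k V) : rk (x + x') f = rk x f + rk x' f := by
  refine LinearMap.ext fun y => ?_
  rw [LinearMap.add_apply, rk_apply, rk_apply, rk_apply, smul_add]

theorem rk_add_right (x : V) (f f' : Dual k V) : rk x (f + f') = rk x f + rk x f' := by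
  refine LinearMap.ext fun y => ?_
  rw [LinearMap.add_apply, rk_apply, rk_apply, rk_apply, LinearMap.add_apply, add_smul]

theorem rk_smul_left (c : k) (x : V) (f : Dual k V) : rk (c • x) f = c • rk x f := by
  refine LinearMap.ext fun y => ?_
  rw [LinearMap.smul_apply, rk_apply, rk_apply, smul_comm]

theorem rk_smul_right (c : k) (x : V) (f : Dual k V) : rk x (c • f) = c • rk x f := by
  refine LinearMap.ext fun y => ?_
  rw [LinearMap.smul_apply, rk_apply, rk_apply, LinearMap.smul_apply, smul_assoc]

theorem rk_neg_right (x : V) (f : Dual k V) : rk x (-f) = -rk x f := by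
  rw [← neg_one_smul k f, rk_smul_right, neg_one_smul]

theorem mul_rk (Y : End k V) (x : V) (f : Dual k V) : Y * rk x f = rk (Y x) f := by
  refine LinearMap.ext fun y => ?_
  rw [Module.End.mul_apply, rk_apply, rk_apply, map_smul]

theorem rk_mul (Y : End k V) (x : V) (f : Dual k V) : rk x f * Y = rk x (Y.dualMap f) := rfl

/-- rank one endomorphisms span -/
theorem eq_sum_rk [FiniteDimensional k V] (R : End k V) :
    R = ∑ i, rk (R (finBasis k V i)) ((finBasis k V).coord i) := by
  refine LinearMap.ext fun y => ?_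
  rw [LinearMap.sum_apply]
  conv_lhs => rw [← (finBasis k V).sum_repr y, map_sum]
  refine Finset.sum_congr rfl fun i _ => ?_
  rw [map_smul, rk_apply]
  rfl

theorem ext_rk [FiniteDimensional k V] {E : Type} [AddCommGroup E] [Module k E]
    {S T : End k V →ₗ[k] E} (h : ∀ x f, S (rk x f) = T (rk x f)) : S = T := by
  refine LinearMap.ext fun R => ?_
  rw [eq_sum_rk R, map_sum, map_sum]
  exact Finset.sum_congr rfl fun i _ => h _ _

/-- the tensor in four variables attached to an endomorphism of the space of endomorphisms -/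
def E4 (P : End k V →ₗ[k] End k V) : Tensor k V 4 where
  toFun v := (v 3).2 (P (rk (v 0).1 (v 1).2) (v 2).1)
  map_update_add' := by
    intro inst v i x y
    have hi : inst = instDecidableEqFin 4 := Subsingleton.elim _ _
    subst hi
    fin_cases i <;> simp [Function.update, rk_add_left, rk_add_right]
  map_update_smul' := by
    intro inst v i c x
    have hi : inst = instDecidableEqFin 4 := Subsingleton.elim _ _
    subst hi
    fin_cases i <;> simp [Function.update, rk_smul_left, rk_smul_right]

theorem E4_apply (P : End k V →ₗ[k] End k V) (v : Fin 4 → V × Dual k V) :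
    E4 P v = (v 3).2 (P (rk (v 0).1 (v 1).2) (v 2).1) := rfl

theorem der_E4 (P : End k V →ₗ[k] End k V) (Y : End k V) (v : Fin 4 → V × Dual k V) :
    der Y (E4 P) v = (v 3).2 ((P (Y * rk (v 0).1 (v 1).2 - rk (v 0).1 (v 1).2 * Y) -
      (Y * P (rk (v 0).1 (v 1).2) - P (rk (v 0).1 (v 1).2) * Y)) (v 2).1) := by
  unfold der
  rw [Fin.sum_univ_four, E4_apply, E4_apply, E4_apply, E4_apply]
  simp only [Function.update_self, ne_eq, Function.update_of_ne, Fin.reduceEq, not_false_eq_true,
    lie, LinearMap.prodMap_apply, LinearMap.neg_apply, rk_neg_right, mul_rk, rk_mul, map_neg,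
    map_sub, LinearMap.sub_apply, Module.End.mul_apply, LinearMap.dualMap_apply]
  ring

theorem comm_of_kills [FiniteDimensional k V] {P : End k V →ₗ[k] End k V} {Y : End k V}
    (h : KillsTensor Y (E4 P)) (R : End k V) : P (Y * R - R * Y) = Y * P R - P R * Y := by
  have h1 : P ∘ₗ adE Y = adE Y ∘ₗ P := by
    refine ext_rk fun x f => ?_
    rw [LinearMap.comp_apply, LinearMap.comp_apply, adE_apply, adE_apply]
    refine LinearMap.ext fun y => ?_
    rw [← sub_eq_zero, ← Module.forall_dual_apply_eq_zero_iff k]
    intro g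
    have h2 := h ![(x, 0), (0, f), (y, 0), (0, g)]
    have h3 := der_E4 P Y ![(x, 0), (0, f), (y, 0), (0, g)]
    unfold der at h3
    rw [h2] at h3
    rw [← LinearMap.sub_apply]
    exact h3.symm
  exact LinearMap.congr_fun h1 R

theorem tate_E4 [FiniteDimensional k V] {Γ : Type} [Group Γ] (ρ : Representation k Γ V)
    {P : End k V →ₗ[k] End k V} {Δ : Subgroup Γ} (hΔ : Δ.FiniteIndex)
    (h : ∀ γ ∈ Δ, ∀ R, P (AdE (ρ γ) (ρ γ⁻¹) R) = AdE (ρ γ) (ρ γ⁻¹) (P R)) :
    TateTensor ρ (E4 P) := by
  refine ⟨Δ, hΔ, fun γ hγ v => ?_⟩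
  have hmi : ∀ x, ρ γ⁻¹ (ρ γ x) = x := fun x => by
    rw [← Module.End.mul_apply, ← map_mul, inv_mul_cancel, map_one, Module.End.one_apply]
  rw [E4_apply, E4_apply]
  have h1 : rk (grp (ρ γ) (ρ γ⁻¹) (v 0)).1 (grp (ρ γ) (ρ γ⁻¹) (v 1)).2 =
      AdE (ρ γ) (ρ γ⁻¹) (rk (v 0).1 (v 1).2) := by
    rw [AdE_apply, rk_mul, mul_rk]
    rfl
  rw [h1, h γ hγ, AdE_apply]
  change (v 3).2 (ρ γ⁻¹ (ρ γ (P (rk (v 0).1 (v 1).2) (ρ γ⁻¹ (ρ γ (v 2).1))))) = _
  rw [hmi, hmi]

end Pool.Agent.H50.FT
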