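import Mathlib

/-!
# Weights of Cartan subalgebras and independent eigenvalues
-/

set_option autoImplicit false

namespace Pool.Agent.H50.FT

open LieAlgebra LieModule Module TensorProduct Polynomial

section abs

variable {k : Type} [Field k] {L : Type} [LieRing L] [LieAlgebra k L]
  {V : Type} [AddCommGroup V] [Module k V] [LieRingModule L V] [LieModule k L V]

theorem tf_ad (x u z : L) (m : ℕ) : traceForm k L V u ((ad k L x ^ m) z) =
    (-1) ^ m * traceForm k L V ((ad k L x ^ m) u) z := by
  induction m generalizing z with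
  | zero => simp
  | succ m ih =>
    rw [pow_succ, Module.End.mul_apply, ih, ad_apply, ← traceForm_apply_lie_apply, ← lie_skew,
      map_neg, LinearMap.neg_apply, ← pow_succ, pow_succ' (ad k L x), Module.End.mul_apply, ad_apply,
      pow_succ]
    ring

theorem engel_nondeg [FiniteDimensional k L] (h : ∀ x : L, (∀ y, traceForm k L V x y = 0) → x = 0)
    (x : L) {u : L} (hu : u ∈ LieSubalgebra.engel k x)
    (hperp : ∀ y ∈ LieSubalgebra.engel k x, traceForm k L V u y = 0) : u = 0 := by
  refine h u fun y => ?_
  have hc := (ad k L x).isCompl_iSup_ker_pow_iInf_range_pow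
  have hy : y ∈ (⨆ n, LinearMap.ker ((ad k L x) ^ n)) ⊔ ⨅ n, LinearMap.range ((ad k L x) ^ n) := by
    rw [hc.sup_eq_top]
    trivial
  obtain ⟨y₀, hy₀, y₁, hy₁, rfl⟩ := Submodule.mem_sup.1 hy
  have h0 : y₀ ∈ LieSubalgebra.engel k x := by
    rw [LieSubalgebra.mem_engel_iff]
    have hd : Directed (· ≤ ·) fun n => LinearMap.ker ((ad k L x) ^ n) :=
      (monotone_nat_of_le_succ fun n => by
        intro z hz
        rw [LinearMap.mem_ker] at hz ⊢
        rw [pow_succ', Module.End.mul_apply, hz, map_zero]).directed_le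
    obtain ⟨n, hn⟩ := (Submodule.mem_iSup_of_directed _ hd).1 hy₀
    exact ⟨n, hn⟩
  rw [LieSubalgebra.mem_engel_iff] at hu
  obtain ⟨n, hn⟩ := hu
  obtain ⟨z, hz⟩ := (Submodule.mem_iInf _).1 hy₁ n
  rw [map_add, hperp y₀ h0, ← hz, tf_ad, hn, map_zero, LinearMap.zero_apply, mul_zero, add_zero]

end abs

section wts

variable {k : Type} [Field k] {H : Type} [LieRing H] [LieAlgebra k H] [FiniteDimensional k H]
  {V : Type} [AddCommGroup V] [Module k V] [LieRingModule H V] [LieModule k H V]
  [FiniteDimensional k V] [LieRing.IsNilpotent H] (A : Type) [Field A] [Algebra k A] [CharZero A]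
  [IsAlgClosed A]

/-- the trace form stays nondegenerate over `A` -/
theorem tf_surj (hnd : ∀ x : H, (∀ y, traceForm k H V x y = 0) → x = 0) :
    LinearMap.range (traceForm A (A ⊗[k] H) (A ⊗[k] V)) = ⊤ := by
  rw [LinearMap.range_eq_top]
  refine (LinearMap.injective_iff_surjective_of_finrank_eq_finrank
    (by rw [Subspace.dual_finrank_eq])).1 ?_
  rw [injective_iff_map_eq_zero]
  intro φ hφ
  have hsurj : Function.Surjective (traceForm k H V) :=
    (LinearMap.injective_iff_surjective_of_finrank_eq_finrank
      (by rw [Subspace.dual_finrank_eq])).1 (by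
        rw [injective_iff_map_eq_zero]
        intro x hx
        exact hnd x fun y => by rw [hx, LinearMap.zero_apply])
  let b := finBasis k H
  let B := Algebra.TensorProduct.basis A b
  have h1 := B.sum_repr φ
  rw [← h1]
  refine Finset.sum_eq_zero fun e _ => ?_
  obtain ⟨y, hy⟩ := hsurj (b.coord e)
  have h2 := LinearMap.congr_fun hφ (1 ⊗ₜ[k] y)
  rw [LinearMap.zero_apply, ← h1, map_sum, LinearMap.sum_apply, Finset.sum_eq_single e] at h2
  · rw [map_smul, LinearMap.smul_apply, Algebra.TensorProduct.basis_apply, traceForm_baseChange,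
      LinearMap.BilinForm.baseChange_tmul, traceForm_comm, hy, Basis.coord_apply, Basis.repr_self,
      Finsupp.single_eq_same] at h2
    have h3 : (B.repr φ) e = 0 := by simpa using h2
    rw [h3, zero_smul]
  · intro e' _ he'
    rw [map_smul, LinearMap.smul_apply, Algebra.TensorProduct.basis_apply, traceForm_baseChange,
      LinearMap.BilinForm.baseChange_tmul, traceForm_comm, hy, Basis.coord_apply, Basis.repr_self,
      Finsupp.single_eq_of_ne he'.symm, zero_smul, smul_zero]
  · intro h
    exact absurd (Finset.mem_univ _) h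

/-- there are as many linearly independent weights as the dimension -/
theorem exists_weights (hnd : ∀ x : H, (∀ y, traceForm k H V x y = 0) → x = 0) {r : ℕ}
    (hr : r ≤ finrank k H) : ∃ F : Fin r → (H →ₗ[k] A),
      (∀ j (h : H), Module.End.HasEigenvalue (R := A) (M := A ⊗[k] V)
        ((toEnd k H V h).baseChange A) (F j h)) ∧
      ∀ c : Fin r → A, (∀ h : H, ∑ j, c j * F j h = 0) → c = 0 := by
  have h1 := range_traceForm_le_span_weight A (A ⊗[k] H) (A ⊗[k] V)
  rw [tf_surj A hnd, top_le_iff] at h1
  obtain ⟨b, hb, hspan, hli⟩ := exists_linearIndependent A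
    (Set.range (Weight.toLinear A (A ⊗[k] H) (A ⊗[k] V)))
  rw [h1] at hspan
  let β : Basis b A (Dual A (A ⊗[k] H)) := Basis.mk hli (by
    rw [Subtype.range_coe, hspan])
  have : Fintype b := FiniteDimensional.fintypeBasisIndex β
  have hcard : Fintype.card b = finrank k H := by
    rw [← Module.finrank_eq_card_basis β, Subspace.dual_finrank_eq, finrank_baseChange]
  obtain ⟨f⟩ : Nonempty (Fin r ↪ b) := by
    rw [Function.Embedding.nonempty_iff_card_le, Fintype.card_fin, hcard]
    exact hr
  have hχ : ∀ j, ∃ χ : Weight A (A ⊗[k] H) (A ⊗[k] V),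
      Weight.toLinear A (A ⊗[k] H) (A ⊗[k] V) χ = f j := fun j => hb (f j).2
  choose χ hχ using hχ
  refine ⟨fun j => ((Weight.toLinear A (A ⊗[k] H) (A ⊗[k] V) (χ j)).restrictScalars k) ∘ₗ
    TensorProduct.mk k A H 1, fun j h => ?_, fun c hc => ?_⟩
  · have h2 := (χ j).hasEigenvalueAt (1 ⊗ₜ[k] h)
    rw [toEnd_baseChange] at h2
    exact h2
  · have h2 : ∑ j, c j • (f j : Dual A (A ⊗[k] H)) = 0 := by
      refine LinearMap.ext fun φ => ?_
      induction φ using TensorProduct.induction_on with
      | zero => rw [map_zero, map_zero]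
      | add x y hx hy => rw [map_add, hx, hy, map_add]
      | tmul a h =>
        have h3 : a ⊗ₜ[k] h = a • ((1 : A) ⊗ₜ[k] h) := by
          rw [TensorProduct.smul_tmul', smul_eq_mul, mul_one]
        rw [h3, map_smul, map_smul]
        congr 1
        rw [LinearMap.sum_apply, LinearMap.zero_apply, ← hc h]
        refine Finset.sum_congr rfl fun j _ => ?_
        rw [LinearMap.smul_apply, smul_eq_mul, ← hχ]
        rfl
    have h3 : LinearIndependent A fun j => (f j : Dual A (A ⊗[k] H)) := hli.comp f f.injective
    funext j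
    exact Fintype.linearIndependent_iff.1 h3 c h2 j

end wts

section generic

/-- a vector space over an uncountable field is not the union of countably many proper subspaces -/
theorem exists_generic {k : Type} [Field k] [Uncountable k] {H : Type} [AddCommGroup H] [Module k H]
    [FiniteDimensional k H] {A : Type} [Field A] [Algebra k A] [CharZero A] {r : ℕ}
    (F : Fin r → (H →ₗ[k] A)) (hF : ∀ c : Fin r → A, (∀ h : H, ∑ j, c j * F j h = 0) → c = 0) :
    ∃ h : H, ∀ e : Fin r → ℤ, ∑ j, (e j : A) * F j h = 0 → e = 0 := by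
  classical
  let b := finBasis k H
  let v : k → H := fun t => ∑ a : Fin (finrank k H), t ^ (a : ℕ) • b a
  let q : (Fin r → ℤ) → A[X] := fun e => ∑ a : Fin (finrank k H),
    C (∑ j, (e j : A) * F j (b a)) * X ^ (a : ℕ)
  have hv : ∀ e t, ∑ j, (e j : A) * F j (v t) = (q e).eval (algebraMap k A t) := by
    intro e t
    have h1 : ∀ j, F j (v t) = ∑ a : Fin (finrank k H), algebraMap k A t ^ (a : ℕ) * F j (b a) := by
      intro j
      change F j (∑ a : Fin (finrank k H), t ^ (a : ℕ) • b a) = _
      rw [map_sum]
      refine Finset.sum_congr rfl fun a _ => ?_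
      rw [map_smul, Algebra.smul_def, map_pow]
    simp only [h1, q, Finset.mul_sum, eval_finsetSum, eval_mul, eval_C, eval_pow, eval_X]
    rw [Finset.sum_comm]
    refine Finset.sum_congr rfl fun a _ => ?_
    rw [Finset.sum_mul]
    refine Finset.sum_congr rfl fun j _ => ?_
    ring
  have hq : ∀ e, e ≠ 0 → q e ≠ 0 := by
    intro e he h0
    apply he
    have h1 : ∀ a, ∑ j, (e j : A) * F j (b a) = 0 := by
      intro a
      have h2 := congrArg (fun f => f.coeff (a : ℕ)) h0
      simp only [q, finsetSum_coeff, coeff_C_mul, coeff_X_pow, coeff_zero] at h2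
      rw [Finset.sum_eq_single a] at h2
      · simpa using h2
      · intro c _ hc
        rw [if_neg (fun h => hc (Fin.ext h.symm)), mul_zero]
      · intro h
        exact absurd (Finset.mem_univ _) h
    have h2 := hF (fun j => (e j : A)) fun h => by
      rw [← b.sum_repr h]
      simp only [map_sum, map_smul, Finset.mul_sum]
      rw [Finset.sum_comm]
      refine Finset.sum_eq_zero fun a _ => ?_
      have h3 : ∑ j, (e j : A) * (b.repr h a • F j (b a)) =
          b.repr h a • ∑ j, (e j : A) * F j (b a) := by
        rw [Finset.smul_sum]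
        refine Finset.sum_congr rfl fun j _ => ?_
        rw [mul_smul_comm]
      rw [h3, h1, smul_zero]
    funext j
    have h3 : (e j : A) = 0 := congrFun h2 j
    exact Int.cast_eq_zero.1 h3
  have hbad : (⋃ e ∈ {e : Fin r → ℤ | e ≠ 0}, {t : k | (q e).eval (algebraMap k A t) = 0}).Countable := by
    refine Set.Countable.biUnion (Set.to_countable _) fun e he => ?_
    refine Set.Finite.countable ?_
    refine Set.Finite.subset (Set.Finite.preimage ((algebraMap k A).injective.injOn)
      (q e).roots.toFinset.finite_toSet) fun t ht => ?_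
    rw [Set.mem_preimage, Finset.mem_coe, Multiset.mem_toFinset, mem_roots (hq e he)]
    exact ht
  obtain ⟨t, ht⟩ : ∃ t : k, t ∉ ⋃ e ∈ {e : Fin r → ℤ | e ≠ 0},
      {t : k | (q e).eval (algebraMap k A t) = 0} := by
    by_contra hcon
    push Not at hcon
    exact Set.not_countable_univ (hbad.mono fun t _ => hcon t)
  refine ⟨v t, fun e he => ?_⟩
  by_contra hne
  apply ht
  rw [Set.mem_iUnion₂]
  refine ⟨e, hne, ?_⟩
  change (q e).eval (algebraMap k A t) = 0
  rw [← hv]
  exact he

end generic

end Pool.Agent.H50.FT
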